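import Mathlib

/-!
# EZ board: definitions

Theorem EZ: for every `α > 1` the weighted Bergman space `A²_α` fails the wandering subspace property (and some
canonical divisor has an extraneous zero). `g = α + 2 > 3`.
-/

set_option linter.style.longLine false
set_option linter.unusedVariables false

open MeasureTheory Set Filter Topology

namespace Pool.Agent.Lib.MP_70ee11_an.EZ

/-- the weight `W(τ) = |Γ(g/2+iτ)|²/Γ(g)` -/
noncomputable def W (g τ : ℝ) : ℝ := ‖Complex.Gamma (((g / 2 : ℝ) : ℂ) + (τ : ℂ) * Complex.I)‖ ^ 2 / Real.Gamma g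

/-- the kernel `(2 cosh(u/2))^{-g}` on the strip `|Im u| < π` -/
noncomputable def ksech (g : ℝ) (u : ℂ) : ℂ := Complex.exp (-(g : ℂ) * Complex.log (2 * Complex.cosh (u / 2)))

/-- the exponentials `e_a(τ) = exp(-iτ ā)` -/
noncomputable def ee (a : ℂ) (τ : ℝ) : ℂ := Complex.exp (-((τ : ℂ) * Complex.I * (starRingEnd ℂ) a))

/-- `h(τ) = 1 - Σ_{a ∈ S} c_a e_a(τ)` -/
noncomputable def hh (S : Finset ℂ) (c : ℂ → ℂ) (τ : ℝ) : ℂ := 1 - ∑ a ∈ S, c a * ee a τ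

/-- the sign property: the projection of `e_0 = 1` onto the complement of `{e_a : a ∈ S}` in `L²(W dτ)` has
nonnegative (real part of) inner product with `e_x`, for every conjugation symmetric finite `S` in the strip,
off the real line, and every real `x` -/
def SP (g : ℝ) : Prop :=
  ∀ (S : Finset ℂ) (c : ℂ → ℂ), (∀ a ∈ S, 0 < |a.im| ∧ |a.im| < Real.pi / 2) → (∀ a ∈ S, (starRingEnd ℂ) a ∈ S) →
    (∀ b ∈ S, ∫ τ : ℝ, (W g τ : ℂ) * (Complex.exp ((τ : ℂ) * Complex.I * b) * hh S c τ) = 0) →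
    ∀ x : ℝ, 0 ≤ (∫ τ : ℝ, (W g τ : ℂ) * (Complex.exp ((τ : ℂ) * Complex.I * x) * hh S c τ)).re

/-- `S_q(τ) = Σ_{k ∈ ℤ} W(τ+kT) e^{q(τ+kT)}` -/
noncomputable def Sj (g T q τ : ℝ) : ℝ := ∑' k : ℤ, W g (τ + k * T) * Real.exp (q * (τ + k * T))

/-- the determinant `S_{2θ} S_{-2θ} - S_0²` -/
noncomputable def dd (g T θ τ : ℝ) : ℝ := Sj g T (2 * θ) τ * Sj g T (-(2 * θ)) τ - Sj g T 0 τ ^ 2

/-- the coefficient `α` -/
noncomputable def al (g T θ τ : ℝ) : ℝ :=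
  (Sj g T (-(2 * θ)) τ * Sj g T θ τ - Sj g T 0 τ * Sj g T (-θ) τ) / dd g T θ τ

/-- the coefficient `β` -/
noncomputable def be (g T θ τ : ℝ) : ℝ :=
  (Sj g T (2 * θ) τ * Sj g T (-θ) τ - Sj g T 0 τ * Sj g T θ τ) / dd g T θ τ

/-- `D = S_0 - α S_θ - β S_{-θ}` -/
noncomputable def DD (g T θ τ : ℝ) : ℝ := Sj g T 0 τ - al g T θ τ * Sj g T θ τ - be g T θ τ * Sj g T (-θ) τ

/-- the projection `h = 1 - α e^{θτ} - β e^{-θτ}` -/
noncomputable def hT (g T θ τ : ℝ) : ℝ := 1 - al g T θ τ * Real.exp (θ * τ) - be g T θ τ * Real.exp (-(θ * τ))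

/-- the limit function `φ(τ) = 1/(1/W(τ) + c cosh πτ)` -/
noncomputable def phi (g c τ : ℝ) : ℝ := 1 / (1 / W g τ + c * Real.cosh (Real.pi * τ))

/-- the entire function `m(s) = Γ(g)/(Γ(g/2+s)Γ(g/2-s)) + c cos πs` (so that `φ(τ) = 1/m(iτ)`) -/
noncomputable def mm (g c : ℝ) (s : ℂ) : ℂ :=
  Complex.Gamma g * (Complex.Gamma (((g / 2 : ℝ) : ℂ) + s))⁻¹ * (Complex.Gamma (((g / 2 : ℝ) : ℂ) - s))⁻¹ +
    c * Complex.cos (Real.pi * s)

end Pool.Agent.Lib.MP_70ee11_an.EZ
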