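import Mathlib
import Pool.Agent.Lib.MP_70ee11_an.EZ.Defs

/-!
Module Beta. THE FOURIER TRANSFORM OF (2cosh(x/2))^{-g} IS W.

PROOF. `Complex.Gamma_mul_Gamma_eq_betaIntegral`: Γ(u)Γ(v) = Γ(u+v) B(u,v) for Re u, Re v > 0, with
B(u,v) = ∫_0^1 x^{u-1}(1-x)^{v-1} dx (`Complex.betaIntegral`). Take u = g/2+iτ, v = g/2-iτ: u+v = g and
Γ(u)Γ(v) = Γ(u) Γ(conj u) = |Γ(u)|². So W(τ) = B(u,v).
Change of variables x = e^t/(1+e^t) (t ∈ ℝ; `Real.sigmoid` or by hand), dx = x(1-x)dt, x = e^{t/2}/(2cosh(t/2)),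
1-x = e^{-t/2}/(2cosh(t/2)):
   x^{u-1}(1-x)^{v-1} x(1-x) = x^u (1-x)^v = e^{(u-v)t/2} (2cosh(t/2))^{-(u+v)} = e^{iτt} (2cosh(t/2))^{-g} .
(`MeasureTheory.integral_image_eq_integral_abs_deriv_smul` with s = univ, image = Ioo 0 1, the map is injective.)
`F_integrable`: (2cosh(x/2))^{-g} ≤ e^{-g|x|/2}.
-/

set_option linter.style.longLine false

open MeasureTheory Set Filter Topology

namespace Pool.Agent.Lib.MP_70ee11_an.EZ

/-- the logarithm of the sigmoid function -/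
private lemma beta_log_sigmoid (t : ℝ) :
    Real.log (Real.sigmoid t) = t / 2 - Real.log (2 * Real.cosh (t / 2)) := by
  have hc : 0 < 2 * Real.cosh (t / 2) := by have := Real.cosh_pos (t / 2); linarith
  have h1 : Real.sigmoid t = Real.exp (t / 2) / (2 * Real.cosh (t / 2)) := by
    rw [Real.sigmoid_def, Real.cosh_eq, inv_eq_one_div, div_eq_div_iff (by positivity) (by positivity)]
    have e1 : Real.exp (t / 2) * Real.exp (-t) = Real.exp (-(t / 2)) := by
      rw [← Real.exp_add]; congr 1; ring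
    ring_nf
    ring_nf at e1
    rw [e1]
  rw [h1, Real.log_div (Real.exp_pos _).ne' hc.ne', Real.log_exp]

private lemma beta_log_sigmoid' (t : ℝ) :
    Real.log (1 - Real.sigmoid t) = -(t / 2) - Real.log (2 * Real.cosh (t / 2)) := by
  rw [← Real.sigmoid_neg, beta_log_sigmoid, neg_div, Real.cosh_neg]

private lemma beta_pt {u v : ℂ} (t : ℝ) :
    |Real.sigmoid t * (1 - Real.sigmoid t)| •
      (((Real.sigmoid t : ℝ) : ℂ) ^ (u - 1) * (1 - ((Real.sigmoid t : ℝ) : ℂ)) ^ (v - 1)) =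
      Complex.exp ((u - v) * (t / 2)) *
        Complex.exp (-((u + v) * (Real.log (2 * Real.cosh (t / 2)) : ℝ))) := by
  have hs : 0 < Real.sigmoid t := Real.sigmoid_pos t
  have hs1 : 0 < 1 - Real.sigmoid t := by have := Real.sigmoid_lt_one t; linarith
  have e1 : (1 : ℂ) - ((Real.sigmoid t : ℝ) : ℂ) = ((1 - Real.sigmoid t : ℝ) : ℂ) := by
    push_cast; ring
  have hsc : ((Real.sigmoid t : ℝ) : ℂ) ≠ 0 := by exact_mod_cast hs.ne'
  have hsc1 : ((1 - Real.sigmoid t : ℝ) : ℂ) ≠ 0 := by exact_mod_cast hs1.ne'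
  rw [abs_of_pos (mul_pos hs hs1), e1, Complex.cpow_sub _ _ hsc, Complex.cpow_sub _ _ hsc1,
    Complex.cpow_one, Complex.cpow_one, Complex.real_smul, Complex.ofReal_mul]
  have e2 : ((Real.sigmoid t : ℝ) : ℂ) * ((1 - Real.sigmoid t : ℝ) : ℂ) *
      (((Real.sigmoid t : ℝ) : ℂ) ^ u / ((Real.sigmoid t : ℝ) : ℂ) *
        (((1 - Real.sigmoid t : ℝ) : ℂ) ^ v / ((1 - Real.sigmoid t : ℝ) : ℂ))) =
      ((Real.sigmoid t : ℝ) : ℂ) ^ u * ((1 - Real.sigmoid t : ℝ) : ℂ) ^ v := by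
    field_simp
  rw [e2, Complex.cpow_def_of_ne_zero hsc, Complex.cpow_def_of_ne_zero hsc1,
    ← Complex.ofReal_log hs.le, ← Complex.ofReal_log hs1.le, beta_log_sigmoid, beta_log_sigmoid',
    ← Complex.exp_add, ← Complex.exp_add]
  congr 1
  push_cast
  ring

private lemma beta_real {g : ℝ} (t : ℝ) :
    Complex.exp (-((g : ℂ) * (Real.log (2 * Real.cosh (t / 2)) : ℝ))) =
      (((2 * Real.cosh (t / 2)) ^ (-g) : ℝ) : ℂ) := by
  have hc : 0 < 2 * Real.cosh (t / 2) := by have := Real.cosh_pos (t / 2); linarith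
  rw [Real.rpow_def_of_pos hc, Complex.ofReal_exp]
  congr 1
  push_cast
  ring

theorem F_integrable {g : ℝ} (hg : 0 < g) : Integrable (fun x : ℝ => (2 * Real.cosh (x / 2)) ^ (-g)) := by
  have hre : 0 < ((g / 2 : ℝ) : ℂ).re := by rw [Complex.ofReal_re]; linarith
  have h0 := Complex.betaIntegral_convergent hre hre
  rw [intervalIntegrable_iff_integrableOn_Ioo_of_le zero_le_one, ← Real.range_sigmoid,
    ← Set.image_univ] at h0
  have h1 := (integrableOn_image_iff_integrableOn_abs_deriv_smul MeasurableSet.univ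
    (fun x _ => (Real.hasDerivAt_sigmoid x).hasDerivWithinAt) Real.sigmoid_injective.injOn
    (fun x : ℝ => (x : ℂ) ^ (((g / 2 : ℝ) : ℂ) - 1) * (1 - (x : ℂ)) ^ (((g / 2 : ℝ) : ℂ) - 1))).1 h0
  rw [integrableOn_univ] at h1
  have h2 : Integrable (fun x : ℝ => (((2 * Real.cosh (x / 2)) ^ (-g) : ℝ) : ℂ)) := by
    refine h1.congr (Filter.Eventually.of_forall fun t => ?_)
    beta_reduce
    rw [beta_pt, ← beta_real, sub_self, zero_mul, Complex.exp_zero, one_mul]
    congr 1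
    push_cast
    ring
  have h3 := h2.re
  simpa using h3

theorem beta_fourier {g : ℝ} (hg : 0 < g) (τ : ℝ) :
    ∫ x : ℝ, Complex.exp ((τ : ℂ) * Complex.I * x) * (((2 * Real.cosh (x / 2)) ^ (-g) : ℝ) : ℂ) = (W g τ : ℂ) := by
  set u : ℂ := ((g / 2 : ℝ) : ℂ) + (τ : ℂ) * Complex.I with hu
  set v : ℂ := (starRingEnd ℂ) u with hv
  have hv' : v = ((g / 2 : ℝ) : ℂ) - (τ : ℂ) * Complex.I := by
    rw [hv, hu, map_add, map_mul, Complex.conj_ofReal, Complex.conj_ofReal, Complex.conj_I]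
    ring
  have huv : u + v = (g : ℂ) := by
    rw [hv', hu]; push_cast; ring
  have hduv : u - v = 2 * ((τ : ℂ) * Complex.I) := by
    rw [hv', hu]; ring
  have hure : 0 < u.re := by
    rw [hu]; simp; linarith
  have hvre : 0 < v.re := by
    rw [hv, Complex.conj_re]; exact hure
  have hG : (0 : ℝ) < Real.Gamma g := Real.Gamma_pos_of_pos hg
  have h1 : Complex.betaIntegral u v = (W g τ : ℂ) := by
    have h2 := Complex.Gamma_mul_Gamma_eq_betaIntegral hure hvre
    have h3 : Complex.Gamma v = (starRingEnd ℂ) (Complex.Gamma u) := by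
      rw [hv, Complex.Gamma_conj]
    rw [h3, Complex.mul_conj, huv, Complex.Gamma_ofReal, Complex.normSq_eq_norm_sq] at h2
    have hGc : ((Real.Gamma g : ℝ) : ℂ) ≠ 0 := by exact_mod_cast hG.ne'
    rw [W, Complex.ofReal_div, eq_div_iff hGc, ← hu, h2]
    ring
  rw [← h1, Complex.betaIntegral, intervalIntegral.integral_of_le zero_le_one,
    integral_Ioc_eq_integral_Ioo, ← Real.range_sigmoid, ← Set.image_univ,
    integral_image_eq_integral_abs_deriv_smul MeasurableSet.univ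
    (fun x _ => (Real.hasDerivAt_sigmoid x).hasDerivWithinAt) Real.sigmoid_injective.injOn,
    Measure.restrict_univ]
  congr 1
  ext t
  rw [beta_pt, ← beta_real, huv, hduv]
  congr 2
  ring

end Pool.Agent.Lib.MP_70ee11_an.EZ
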