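import Mathlib

/-!
Module Gam1 (Mathlib only). MONOTONICITY OF GAMMA QUOTIENTS.

PROOF.  `Complex.GammaSeq_tendsto_Gamma : Tendsto (GammaSeq z) atTop (𝓝 (Gamma z))`, with
`GammaSeq z n = n^z * n! / ∏_{j ∈ range (n+1)} (z + j)`. So `‖GammaSeq (σ+it) n‖ = n^σ n! / ∏ ‖σ+j+it‖`.
It is enough to prove the inequality for `GammaSeq · n` (n ≥ 1) and pass to the limit (`le_of_tendsto_of_tendsto'`,
norms and products are continuous). For `GammaSeq` the powers of `n` and factorials cancel, and one needs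
  ∏_j ‖σ+j+is‖ ‖σ'+j+it‖ ≤ ∏_j ‖σ+j+it‖ ‖σ'+j+is‖ ,
which is factorwise (`Finset.prod_le_prod`): with a = σ+j, b = σ'+j, 0 < a ≤ b, 0 ≤ s ≤ t:
  (a²+s²)(b²+t²) ≤ (a²+t²)(b²+s²)   since the difference is (b²-a²)(t²-s²) ≥ 0.
(`Complex.norm_cpow_eq_rpow_re_of_pos` for ‖n^z‖ = n^{re z}.)
-/

set_option linter.style.longLine false

open Filter Topology

namespace Pool.Agent.Lib.MP_70ee11_an.EZ

private lemma gam1_norm (a t : ℝ) (j : ℕ) :
    ‖((a : ℂ) + (t : ℂ) * Complex.I) + (j : ℂ)‖ = Real.sqrt ((a + j) ^ 2 + t ^ 2) := by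
  have h : ((a : ℂ) + (t : ℂ) * Complex.I) + (j : ℂ) = ((a + j : ℝ) : ℂ) + (t : ℂ) * Complex.I := by
    push_cast; ring
  rw [h, Complex.norm_add_mul_I]

private lemma gam1_seq (a t : ℝ) (n : ℕ) (hn : 0 < n) :
    ‖Complex.GammaSeq ((a : ℂ) + (t : ℂ) * Complex.I) n‖ =
      (n : ℝ) ^ a * (n.factorial : ℝ) /
        ∏ j ∈ Finset.range (n + 1), Real.sqrt ((a + j) ^ 2 + t ^ 2) := by
  rw [Complex.GammaSeq, norm_div, norm_mul, norm_prod]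
  congr 1
  · congr 1
    · rw [Complex.norm_natCast_cpow_of_pos hn]
      congr 1
      simp
    · exact Complex.norm_natCast _
  · exact Finset.prod_congr rfl fun j _ => gam1_norm a t j

private lemma gam1_pos {a t : ℝ} (ha : 0 < a) (n : ℕ) :
    0 < ∏ j ∈ Finset.range (n + 1), Real.sqrt ((a + j) ^ 2 + t ^ 2) := by
  refine Finset.prod_pos fun j _ => Real.sqrt_pos.mpr ?_
  have : (0 : ℝ) ≤ (j : ℝ) := Nat.cast_nonneg j
  positivity

private lemma gam1_fac {a b s t : ℝ} (ha : 0 < a) (hab : a ≤ b) (hs : 0 ≤ s) (hst : s ≤ t) :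
    Real.sqrt (a ^ 2 + s ^ 2) * Real.sqrt (b ^ 2 + t ^ 2) ≤
      Real.sqrt (a ^ 2 + t ^ 2) * Real.sqrt (b ^ 2 + s ^ 2) := by
  rw [← Real.sqrt_mul (by positivity), ← Real.sqrt_mul (by positivity)]
  refine Real.sqrt_le_sqrt ?_
  have h1 : 0 ≤ b ^ 2 - a ^ 2 := by nlinarith
  have h2 : 0 ≤ t ^ 2 - s ^ 2 := by nlinarith
  nlinarith [mul_nonneg h1 h2]

private lemma gam1_main {σ σ' s t : ℝ} (hσ : 0 < σ) (hσσ : σ ≤ σ') (hs : 0 ≤ s) (hst : s ≤ t)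
    (n : ℕ) (hn : 0 < n) :
    ‖Complex.GammaSeq ((σ : ℂ) + (t : ℂ) * Complex.I) n‖ *
        ‖Complex.GammaSeq ((σ' : ℂ) + (s : ℂ) * Complex.I) n‖ ≤
      ‖Complex.GammaSeq ((σ : ℂ) + (s : ℂ) * Complex.I) n‖ *
        ‖Complex.GammaSeq ((σ' : ℂ) + (t : ℂ) * Complex.I) n‖ := by
  have hσ' : 0 < σ' := lt_of_lt_of_le hσ hσσ
  rw [gam1_seq σ t n hn, gam1_seq σ' s n hn, gam1_seq σ s n hn, gam1_seq σ' t n hn,
    div_mul_div_comm, div_mul_div_comm]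
  refine div_le_div_of_nonneg_left (by positivity)
    (mul_pos (gam1_pos hσ n) (gam1_pos hσ' n)) ?_
  rw [← Finset.prod_mul_distrib, ← Finset.prod_mul_distrib]
  refine Finset.prod_le_prod (fun j _ => by positivity) fun j _ => ?_
  have hj : (0 : ℝ) ≤ (j : ℝ) := Nat.cast_nonneg j
  exact gam1_fac (by linarith) (by linarith) hs hst

theorem gamma_ratio {σ σ' s t : ℝ} (hσ : 0 < σ) (hσσ : σ ≤ σ') (hs : 0 ≤ s) (hst : s ≤ t) :
    ‖Complex.Gamma ((σ : ℂ) + (t : ℂ) * Complex.I)‖ * ‖Complex.Gamma ((σ' : ℂ) + (s : ℂ) * Complex.I)‖ ≤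
      ‖Complex.Gamma ((σ : ℂ) + (s : ℂ) * Complex.I)‖ * ‖Complex.Gamma ((σ' : ℂ) + (t : ℂ) * Complex.I)‖ := by
  have h := fun z : ℂ => (Complex.GammaSeq_tendsto_Gamma z).norm
  refine le_of_tendsto_of_tendsto ((h _).mul (h _)) ((h _).mul (h _)) ?_
  filter_upwards [eventually_gt_atTop 0] with n hn
  exact gam1_main hσ hσσ hs hst n hn

end Pool.Agent.Lib.MP_70ee11_an.EZ
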