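import Mathlib
import Pool.Agent.Lib.MP_70ee11_an.EZ.Defs
import Pool.Agent.Lib.MP_70ee11_an.EZ.Gam1

/-!
Module Gam2. BASIC FACTS ON `W(τ) = |Γ(g/2+iτ)|²/Γ(g)`.

PROOF.
* `W_pos`, `W_even`, `W_cont`: Γ has no zeros (`Complex.Gamma_ne_zero_of_re_pos`), `Γ(conj z) = conj Γ(z)`
  (`Complex.Gamma_conj`), Γ is differentiable on `Re > 0` (`Complex.differentiableAt_Gamma`).
* `norm_half`: for real t, ‖Γ(1/2+it)‖² = π / cosh(πt): `Complex.Gamma_mul_Gamma_one_sub (z)` with z = 1/2+it,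
  1 - z = 1/2 - it = conj z, so Γ(z)Γ(1-z) = |Γ(z)|², and sin(π(1/2+it)) = cos(iπt) = cosh(πt).
* `norm_half_nat`: by induction on m with Γ(z+1) = zΓ(z) (`Complex.Gamma_add_one`).
* `W_upper`: choose m with g/2 ≤ m+1/2. By `gamma_ratio` (s = 0, σ = g/2, σ' = m+1/2), for t = |τ|:
     ‖Γ(g/2+it)‖ Γ(m+1/2) ≤ Γ(g/2) ‖Γ(m+1/2+it)‖ ,
  so W(τ) ≤ C ∏_{j<m} ((j+1/2)²+t²) · π/cosh(πt) ≤ C' (1+t)^{2m} e^{-πt} ≤ C'' e^{-ρt} for ρ < π
  ((1+t)^{2m} e^{-(π-ρ)t} is bounded; cosh x ≥ e^x/2).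
* `W_lower` (g ≥ 1): by `gamma_ratio` (s = 0, σ = 1/2, σ' = g/2): ‖Γ(1/2+it)‖ Γ(g/2) ≤ Γ(1/2) ‖Γ(g/2+it)‖,
  so W(τ) ≥ c/cosh(πt) ≥ c e^{-πt} (cosh x ≤ e^x for x ≥ 0).
* `W_integrable_exp`: for |q| < π the function W(τ) e^{q|τ|} is integrable: W ≤ C e^{-ρ|τ|} with |q| < ρ < π
  (`integrable_exp_neg_mul_abs`-like fact; prove integrability of e^{-a|τ|}, a>0, by splitting if not in Mathlib).
-/

set_option linter.style.longLine false

open MeasureTheory Set Filter Topology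

namespace Pool.Agent.Lib.MP_70ee11_an.EZ

theorem W_pos {g : ℝ} (hg : 0 < g) (τ : ℝ) : 0 < W g τ := by
  unfold W
  have h1 : Complex.Gamma (((g / 2 : ℝ) : ℂ) + (τ : ℂ) * Complex.I) ≠ 0 := by
    apply Complex.Gamma_ne_zero_of_re_pos
    simp only [Complex.add_re, Complex.ofReal_re, Complex.mul_re, Complex.I_re, mul_zero,
      Complex.ofReal_im, Complex.I_im, mul_one, sub_self, add_zero]
    linarith
  have h2 : 0 < Real.Gamma g := Real.Gamma_pos_of_pos hg
  have h3 : 0 < ‖Complex.Gamma (((g / 2 : ℝ) : ℂ) + (τ : ℂ) * Complex.I)‖ := norm_pos_iff.2 h1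
  positivity

/-- `‖Γ(σ - it)‖ = ‖Γ(σ + it)‖` -/
theorem norm_gamma_neg (σ τ : ℝ) : ‖Complex.Gamma ((σ : ℂ) + ((-τ : ℝ) : ℂ) * Complex.I)‖ =
    ‖Complex.Gamma ((σ : ℂ) + (τ : ℂ) * Complex.I)‖ := by
  have h : (σ : ℂ) + ((-τ : ℝ) : ℂ) * Complex.I =
      (starRingEnd ℂ) ((σ : ℂ) + (τ : ℂ) * Complex.I) := by
    simp
  rw [h, Complex.Gamma_conj, RCLike.norm_conj]

theorem W_even (g τ : ℝ) : W g (-τ) = W g τ := by
  unfold W
  rw [norm_gamma_neg]

theorem W_abs (g τ : ℝ) : W g |τ| = W g τ := by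
  rcases abs_choice τ with h | h
  · rw [h]
  · rw [h, W_even]

theorem W_cont {g : ℝ} (hg : 0 < g) : Continuous (W g) := by
  unfold W
  refine Continuous.div_const (Continuous.pow (Continuous.norm ?_) 2) _
  rw [continuous_iff_continuousAt]
  intro τ
  have h1 : ContinuousAt Complex.Gamma (((g / 2 : ℝ) : ℂ) + (τ : ℂ) * Complex.I) := by
    apply DifferentiableAt.continuousAt (𝕜 := ℂ)
    apply Complex.differentiableAt_Gamma
    intro m hm
    have := congrArg Complex.re hm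
    simp only [Complex.add_re, Complex.ofReal_re, Complex.mul_re, Complex.I_re, mul_zero,
      Complex.ofReal_im, Complex.I_im, mul_one, sub_self, add_zero, Complex.neg_re,
      Complex.natCast_re] at this
    have h2 : (0 : ℝ) ≤ m := Nat.cast_nonneg m
    linarith
  exact ContinuousAt.comp (f := fun τ : ℝ => ((g / 2 : ℝ) : ℂ) + (τ : ℂ) * Complex.I) h1
    (by fun_prop)

theorem norm_half (t : ℝ) : ‖Complex.Gamma (((1 / 2 : ℝ) : ℂ) + (t : ℂ) * Complex.I)‖ ^ 2 =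
    Real.pi / Real.cosh (Real.pi * t) := by
  set z : ℂ := ((1 / 2 : ℝ) : ℂ) + (t : ℂ) * Complex.I with hz
  have h1 : 1 - z = (starRingEnd ℂ) z := by
    rw [hz]
    simp only [map_add, Complex.conj_ofReal, map_mul, Complex.conj_I]
    push_cast
    ring
  have h2 := Complex.Gamma_mul_Gamma_one_sub z
  rw [h1, Complex.Gamma_conj, Complex.mul_conj'] at h2
  have h3 : Complex.sin (Real.pi * z) = ((Real.cosh (Real.pi * t) : ℝ) : ℂ) := by
    have h4 : (Real.pi : ℂ) * z = (Real.pi * t * Complex.I : ℂ) + Real.pi / 2 := by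
      rw [hz]
      push_cast
      ring
    rw [h4, Complex.sin_add_pi_div_two, Complex.cos_mul_I]
    push_cast
    rfl
  rw [h3] at h2
  exact_mod_cast h2

theorem norm_half_nat (m : ℕ) (t : ℝ) : ‖Complex.Gamma (((m + 1 / 2 : ℝ) : ℂ) + (t : ℂ) * Complex.I)‖ ^ 2 =
    (∏ j ∈ Finset.range m, (((j : ℝ) + 1 / 2) ^ 2 + t ^ 2)) * (Real.pi / Real.cosh (Real.pi * t)) := by
  induction m with
  | zero =>
    rw [Finset.prod_range_zero, one_mul, ← norm_half t]
    norm_num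
  | succ m ih =>
    have h0 : ((((m + 1 : ℕ) : ℝ) + 1 / 2 : ℝ) : ℂ) + (t : ℂ) * Complex.I =
        ((((m : ℝ) + 1 / 2 : ℝ) : ℂ) + (t : ℂ) * Complex.I) + 1 := by
      push_cast
      ring
    have hne : (((m : ℝ) + 1 / 2 : ℝ) : ℂ) + (t : ℂ) * Complex.I ≠ 0 := by
      intro h
      have := congrArg Complex.re h
      simp only [Complex.add_re, Complex.ofReal_re, Complex.mul_re, Complex.I_re, mul_zero,
        Complex.ofReal_im, Complex.I_im, mul_one, sub_self, add_zero, Complex.zero_re] at this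
      have h2 : (0 : ℝ) ≤ m := Nat.cast_nonneg m
      linarith
    rw [h0, Complex.Gamma_add_one _ hne, norm_mul, mul_pow, ih, Finset.prod_range_succ]
    have h1 : ‖(((m : ℝ) + 1 / 2 : ℝ) : ℂ) + (t : ℂ) * Complex.I‖ ^ 2 = ((m : ℝ) + 1 / 2) ^ 2 + t ^ 2 := by
      rw [Complex.sq_norm, Complex.normSq_add_mul_I]
    rw [h1]
    ring

private theorem cosh_lower (x : ℝ) : Real.exp x / 2 ≤ Real.cosh x := by
  rw [Real.cosh_eq]
  have := Real.exp_pos (-x)
  linarith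

private theorem cosh_upper {x : ℝ} (hx : 0 ≤ x) : Real.cosh x ≤ Real.exp x := by
  rw [Real.cosh_eq]
  have : Real.exp (-x) ≤ Real.exp x := Real.exp_le_exp.2 (by linarith)
  linarith

/-- each factor is at most a constant times `exp (δ t)` -/
private theorem factor_le {δ : ℝ} (hδ : 0 < δ) (a : ℝ) {t : ℝ} (ht : 0 ≤ t) :
    a ^ 2 + t ^ 2 ≤ (a ^ 2 + 2 / δ ^ 2) * Real.exp (δ * t) := by
  have h0 : 0 ≤ δ * t := by positivity
  have h1 := Real.quadratic_le_exp_of_nonneg h0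
  have h2 : 1 ≤ Real.exp (δ * t) := Real.one_le_exp h0
  have h3 : (δ * t) ^ 2 / 2 ≤ Real.exp (δ * t) := by linarith
  have h4 : t ^ 2 ≤ 2 / δ ^ 2 * Real.exp (δ * t) := by
    have h5 : t ^ 2 = 2 / δ ^ 2 * ((δ * t) ^ 2 / 2) := by
      field_simp
    rw [h5]
    gcongr
  have h6 : a ^ 2 * 1 ≤ a ^ 2 * Real.exp (δ * t) := by gcongr
  linarith

theorem W_upper {g : ℝ} (hg : 0 < g) {ρ : ℝ} (hρ : ρ < Real.pi) :
    ∃ C : ℝ, 0 < C ∧ ∀ τ : ℝ, W g τ ≤ C * Real.exp (-(ρ * |τ|)) := by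
  obtain ⟨m, hm⟩ := exists_nat_ge (g / 2)
  have hm' : g / 2 ≤ (m : ℝ) + 1 / 2 := by linarith
  set δ : ℝ := (Real.pi - ρ) / ((m : ℝ) + 1) with hδ
  have hm1 : (0 : ℝ) < (m : ℝ) + 1 := by positivity
  have hδ0 : 0 < δ := div_pos (by linarith) hm1
  have hmδ : (m : ℝ) * δ ≤ Real.pi - ρ := by
    rw [hδ, ← mul_div_assoc, div_le_iff₀ hm1]
    have : 0 ≤ Real.pi - ρ := by linarith
    nlinarith
  set A : ℝ := ‖Complex.Gamma (((m + 1 / 2 : ℝ) : ℂ) + ((0 : ℝ) : ℂ) * Complex.I)‖ with hA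
  set B : ℝ := ‖Complex.Gamma (((g / 2 : ℝ) : ℂ) + ((0 : ℝ) : ℂ) * Complex.I)‖ with hB
  have hA0 : 0 < A := by
    rw [hA, norm_pos_iff]
    apply Complex.Gamma_ne_zero_of_re_pos
    simp only [Complex.add_re, Complex.ofReal_re, Complex.mul_re, Complex.I_re, mul_zero,
      Complex.ofReal_im, Complex.I_im, mul_one, sub_self, add_zero]
    positivity
  have hB0 : 0 < B := by
    rw [hB, norm_pos_iff]
    apply Complex.Gamma_ne_zero_of_re_pos
    simp only [Complex.add_re, Complex.ofReal_re, Complex.mul_re, Complex.I_re, mul_zero,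
      Complex.ofReal_im, Complex.I_im, mul_one, sub_self, add_zero]
    positivity
  have hG : 0 < Real.Gamma g := Real.Gamma_pos_of_pos hg
  set P : ℝ := ∏ j ∈ Finset.range m, (((j : ℝ) + 1 / 2) ^ 2 + 2 / δ ^ 2) with hP
  have hP0 : 0 < P := Finset.prod_pos fun j _ => by positivity
  have hpi := Real.pi_pos
  refine ⟨(B / A) ^ 2 * (P * (2 * Real.pi)) / Real.Gamma g, by positivity, fun τ => ?_⟩
  have ht : 0 ≤ |τ| := abs_nonneg τ
  rw [← W_abs]
  generalize |τ| = t at ht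
  have hσ : 0 < g / 2 := by linarith
  have h1 := gamma_ratio hσ hm' (le_refl 0) ht
  rw [← hA, ← hB] at h1
  set w : ℝ := ‖Complex.Gamma (((g / 2 : ℝ) : ℂ) + (t : ℂ) * Complex.I)‖ with hw
  set w' : ℝ := ‖Complex.Gamma (((m + 1 / 2 : ℝ) : ℂ) + (t : ℂ) * Complex.I)‖ with hw'
  have hw0 : 0 ≤ w := norm_nonneg _
  have hw'0 : 0 ≤ w' := norm_nonneg _
  have h2 : w ≤ B / A * w' := by
    rw [div_mul_eq_mul_div, le_div_iff₀ hA0]
    exact h1
  have h3 : w ^ 2 ≤ (B / A) ^ 2 * w' ^ 2 := by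
    rw [← mul_pow]
    exact pow_le_pow_left₀ hw0 h2 2
  have h4 : w' ^ 2 ≤ (P * Real.exp ((Real.pi - ρ) * t)) * (2 * Real.pi * Real.exp (-(Real.pi * t))) := by
    rw [hw', norm_half_nat m t]
    have h5 : ∏ j ∈ Finset.range m, (((j : ℝ) + 1 / 2) ^ 2 + t ^ 2) ≤
        P * Real.exp ((Real.pi - ρ) * t) := by
      calc ∏ j ∈ Finset.range m, (((j : ℝ) + 1 / 2) ^ 2 + t ^ 2)
          ≤ ∏ j ∈ Finset.range m, ((((j : ℝ) + 1 / 2) ^ 2 + 2 / δ ^ 2) * Real.exp (δ * t)) :=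
            Finset.prod_le_prod (fun j _ => by positivity) fun j _ => factor_le hδ0 _ ht
        _ = P * Real.exp (δ * t) ^ m := by
            rw [Finset.prod_mul_distrib, Finset.prod_const, Finset.card_range]
        _ ≤ P * Real.exp ((Real.pi - ρ) * t) := by
            rw [← Real.exp_nat_mul]
            have h6 : (m : ℝ) * (δ * t) ≤ (Real.pi - ρ) * t := by
              rw [← mul_assoc]
              exact mul_le_mul_of_nonneg_right hmδ ht
            gcongr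
    have h7 : Real.pi / Real.cosh (Real.pi * t) ≤ 2 * Real.pi * Real.exp (-(Real.pi * t)) := by
      rw [div_le_iff₀ (Real.cosh_pos _)]
      have h8 := cosh_lower (Real.pi * t)
      have h9 : Real.exp (-(Real.pi * t)) * Real.exp (Real.pi * t) = 1 := by
        rw [← Real.exp_add]
        simp
      have h10 := Real.exp_pos (-(Real.pi * t))
      calc Real.pi = 2 * Real.pi * (Real.exp (-(Real.pi * t)) * Real.exp (Real.pi * t)) / 2 := by
            rw [h9]; ring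
        _ = 2 * Real.pi * Real.exp (-(Real.pi * t)) * (Real.exp (Real.pi * t) / 2) := by ring
        _ ≤ 2 * Real.pi * Real.exp (-(Real.pi * t)) * Real.cosh (Real.pi * t) := by gcongr
    have h11 : 0 ≤ Real.pi / Real.cosh (Real.pi * t) := by
      have := Real.cosh_pos (Real.pi * t)
      positivity
    exact mul_le_mul h5 h7 h11 (by positivity)
  have h12 : (P * Real.exp ((Real.pi - ρ) * t)) * (2 * Real.pi * Real.exp (-(Real.pi * t))) =
      P * (2 * Real.pi) * Real.exp (-(ρ * t)) := by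
    have h13 : Real.exp ((Real.pi - ρ) * t) * Real.exp (-(Real.pi * t)) = Real.exp (-(ρ * t)) := by
      rw [← Real.exp_add]
      congr 1
      ring
    rw [← h13]
    ring
  rw [h12] at h4
  unfold W
  rw [← hw, div_mul_eq_mul_div]
  apply div_le_div_of_nonneg_right _ hG.le
  calc w ^ 2 ≤ (B / A) ^ 2 * w' ^ 2 := h3
    _ ≤ (B / A) ^ 2 * (P * (2 * Real.pi) * Real.exp (-(ρ * t))) := by gcongr
    _ = (B / A) ^ 2 * (P * (2 * Real.pi)) * Real.exp (-(ρ * t)) := by ring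

theorem W_lower {g : ℝ} (hg : 1 ≤ g) :
    ∃ c : ℝ, 0 < c ∧ ∀ τ : ℝ, c * Real.exp (-(Real.pi * |τ|)) ≤ W g τ := by
  set A : ℝ := ‖Complex.Gamma (((g / 2 : ℝ) : ℂ) + ((0 : ℝ) : ℂ) * Complex.I)‖ with hA
  set B : ℝ := ‖Complex.Gamma (((1 / 2 : ℝ) : ℂ) + ((0 : ℝ) : ℂ) * Complex.I)‖ with hB
  have hA0 : 0 < A := by
    rw [hA, norm_pos_iff]
    apply Complex.Gamma_ne_zero_of_re_pos
    simp only [Complex.add_re, Complex.ofReal_re, Complex.mul_re, Complex.I_re, mul_zero,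
      Complex.ofReal_im, Complex.I_im, mul_one, sub_self, add_zero]
    positivity
  have hB0 : 0 < B := by
    rw [hB, norm_pos_iff]
    apply Complex.Gamma_ne_zero_of_re_pos
    simp only [Complex.add_re, Complex.ofReal_re, Complex.mul_re, Complex.I_re, mul_zero,
      Complex.ofReal_im, Complex.I_im, mul_one, sub_self, add_zero]
    positivity
  have hG : 0 < Real.Gamma g := Real.Gamma_pos_of_pos (by linarith)
  have hpi := Real.pi_pos
  refine ⟨Real.pi * A ^ 2 / (B ^ 2 * Real.Gamma g), by positivity, fun τ => ?_⟩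
  have ht : 0 ≤ |τ| := abs_nonneg τ
  rw [← W_abs]
  generalize |τ| = t at ht
  have h1 := gamma_ratio (show (0 : ℝ) < 1 / 2 by norm_num) (show (1 / 2 : ℝ) ≤ g / 2 by linarith)
    (le_refl 0) ht
  rw [← hA, ← hB] at h1
  have hh := norm_half t
  set w : ℝ := ‖Complex.Gamma (((g / 2 : ℝ) : ℂ) + (t : ℂ) * Complex.I)‖ with hw
  set w' : ℝ := ‖Complex.Gamma (((1 / 2 : ℝ) : ℂ) + (t : ℂ) * Complex.I)‖ with hw'
  have hw0 : 0 ≤ w := norm_nonneg _
  have hw'0 : 0 ≤ w' := norm_nonneg _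
  have h2 : w' ^ 2 * A ^ 2 ≤ B ^ 2 * w ^ 2 := by
    rw [← mul_pow, ← mul_pow]
    exact pow_le_pow_left₀ (by positivity) h1 2
  rw [hh] at h2
  have h3 : Real.pi * Real.exp (-(Real.pi * t)) ≤ Real.pi / Real.cosh (Real.pi * t) := by
    rw [le_div_iff₀ (Real.cosh_pos _)]
    have h4 := cosh_upper (show 0 ≤ Real.pi * t by positivity)
    have h5 : Real.exp (-(Real.pi * t)) * Real.exp (Real.pi * t) = 1 := by
      rw [← Real.exp_add]
      simp
    have h6 := Real.exp_pos (-(Real.pi * t))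
    calc Real.pi * Real.exp (-(Real.pi * t)) * Real.cosh (Real.pi * t)
        ≤ Real.pi * Real.exp (-(Real.pi * t)) * Real.exp (Real.pi * t) := by gcongr
      _ = Real.pi := by rw [mul_assoc, h5, mul_one]
  unfold W
  rw [← hw, le_div_iff₀ hG]
  have h7 : Real.pi * A ^ 2 / (B ^ 2 * Real.Gamma g) * Real.exp (-(Real.pi * t)) * Real.Gamma g =
      (Real.pi * Real.exp (-(Real.pi * t))) * A ^ 2 / B ^ 2 := by
    field_simp
  rw [h7, div_le_iff₀ (by positivity)]
  calc (Real.pi * Real.exp (-(Real.pi * t))) * A ^ 2 ≤ Real.pi / Real.cosh (Real.pi * t) * A ^ 2 := by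
        gcongr
    _ ≤ B ^ 2 * w ^ 2 := h2
    _ = w ^ 2 * B ^ 2 := by ring

theorem exp_abs_integrable {a : ℝ} (ha : 0 < a) : Integrable (fun τ : ℝ => Real.exp (-(a * |τ|))) := by
  rw [← integrableOn_univ, ← Set.Iic_union_Ioi (a := (0 : ℝ)), integrableOn_union]
  constructor
  · refine (integrableOn_exp_mul_Iic ha 0).congr_fun (fun τ hτ => ?_) measurableSet_Iic
    have : |τ| = -τ := abs_of_nonpos hτ
    simp only [this]
    congr 1
    ring
  · refine (integrableOn_exp_mul_Ioi (show -a < 0 by linarith) 0).congr_fun (fun τ hτ => ?_)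
      measurableSet_Ioi
    have : |τ| = τ := abs_of_pos hτ
    simp only [this]
    congr 1
    ring

theorem W_integrable {g : ℝ} (hg : 0 < g) {q : ℝ} (hq : q < Real.pi) :
    Integrable (fun τ : ℝ => W g τ * Real.exp (q * |τ|)) := by
  obtain ⟨C, hC, h⟩ := W_upper hg (show (q + Real.pi) / 2 < Real.pi by linarith)
  have h1 := (exp_abs_integrable (show 0 < (Real.pi - q) / 2 by linarith)).const_mul C
  refine h1.mono' ?_ (Filter.Eventually.of_forall fun τ => ?_)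
  · have := W_cont hg
    exact (by fun_prop : Continuous fun τ : ℝ => W g τ * Real.exp (q * |τ|)).aestronglyMeasurable
  · have hW := W_pos hg τ
    have hE := Real.exp_pos (q * |τ|)
    rw [Real.norm_of_nonneg (by positivity)]
    calc W g τ * Real.exp (q * |τ|) ≤ C * Real.exp (-((q + Real.pi) / 2 * |τ|)) * Real.exp (q * |τ|) := by
          gcongr
          exact h τ
      _ = C * Real.exp (-((Real.pi - q) / 2 * |τ|)) := by
          rw [mul_assoc, ← Real.exp_add]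
          congr 2
          ring

end Pool.Agent.Lib.MP_70ee11_an.EZ
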