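import Mathlib
import Pool.Agent.Lib.MP_70ee11_an.EZ.Defs
import Pool.Agent.Lib.MP_70ee11_an.EZ.Gam2
import Pool.Agent.Lib.MP_70ee11_an.EZ.Beta

/-!
Module FourA. FOURIER INVERSION ON THE REAL LINE: ∫ W(τ) e^{iτx} dτ = 2π (2cosh(x/2))^{-g}.

PROOF. F(x) = (2cosh(x/2))^{-g} is continuous and integrable (`F_integrable`), its Fourier transform (Mathlib's
𝓕 F (ξ) = ∫ e^{-2πi x ξ} F(x) dx) is ξ ↦ W(-2πξ) = W(2πξ) by `beta_fourier` (τ = -2πξ), which is integrable
(`W_integrable` with q = 0, and scaling). `Continuous.fourierInv_fourier_eq` (or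
`MeasureTheory.Integrable.fourierInv_fourier_eq`) gives F(x) = ∫ e^{2πi x ξ} W(2πξ) dξ = (1/2π) ∫ e^{iτx} W(τ) dτ.
-/

set_option linter.style.longLine false

open MeasureTheory Set Filter Topology

namespace Pool.Agent.Lib.MP_70ee11_an.EZ

open scoped FourierTransform in
theorem four_real {g : ℝ} (hg : 0 < g) (x : ℝ) :
    ∫ τ : ℝ, (W g τ : ℂ) * Complex.exp ((τ : ℂ) * Complex.I * x) =
      2 * Real.pi * (((2 * Real.cosh (x / 2)) ^ (-g) : ℝ) : ℂ) := by
  set F : ℝ → ℂ := fun y => (((2 * Real.cosh (y / 2)) ^ (-g) : ℝ) : ℂ) with hF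
  have hpi : (0 : ℝ) < 2 * Real.pi := by positivity
  have hFc : Continuous F := by
    refine Complex.continuous_ofReal.comp ?_
    refine Continuous.rpow_const (by fun_prop) fun y => Or.inl ?_
    have := Real.cosh_pos (y / 2)
    positivity
  have hFi : Integrable F := (F_integrable hg).ofReal
  have hft : ∀ ξ : ℝ, 𝓕 F ξ = (W g (2 * Real.pi * ξ) : ℂ) := by
    intro ξ
    rw [Real.fourier_real_eq_integral_exp_smul]
    rw [show W g (2 * Real.pi * ξ) = W g (-(2 * Real.pi * ξ)) from (W_even g _).symm,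
      ← beta_fourier hg (-(2 * Real.pi * ξ))]
    refine integral_congr_ae (Eventually.of_forall fun y => ?_)
    simp only [smul_eq_mul, hF]
    congr 1
    congr 1
    push_cast
    ring
  have hWi : Integrable (fun τ : ℝ => (W g τ : ℂ)) := by
    have h1 := W_integrable hg (q := 0) Real.pi_pos
    simp only [zero_mul, Real.exp_zero, mul_one] at h1
    exact h1.ofReal
  have hfti : Integrable (𝓕 F) := by
    have h2 : 𝓕 F = fun ξ : ℝ => (W g (2 * Real.pi * ξ) : ℂ) := funext hft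
    rw [h2]
    exact hWi.comp_mul_left' hpi.ne'
  have hinv := congrFun (Continuous.fourierInv_fourier_eq hFc hFi hfti) x
  rw [Real.fourierInv_eq'] at hinv
  have h3 : ∫ v : ℝ, Complex.exp (((2 * Real.pi * inner ℝ v x : ℝ) : ℂ) * Complex.I) • 𝓕 F v =
      ∫ v : ℝ, (fun τ : ℝ => (W g τ : ℂ) * Complex.exp ((τ : ℂ) * Complex.I * x)) (2 * Real.pi * v) := by
    refine integral_congr_ae (Eventually.of_forall fun v => ?_)
    simp only [hft, smul_eq_mul]
    rw [mul_comm]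
    congr 2
    simp only [RCLike.inner_apply, conj_trivial]
    push_cast
    ring
  rw [h3, Measure.integral_comp_mul_left (fun τ : ℝ => (W g τ : ℂ) * Complex.exp ((τ : ℂ) * Complex.I * x))
    (2 * Real.pi), abs_of_pos (inv_pos.mpr hpi), Complex.real_smul] at hinv
  have hne : ((2 * Real.pi : ℝ) : ℂ) ≠ 0 := by exact_mod_cast hpi.ne'
  have h4 : (((2 * Real.pi)⁻¹ : ℝ) : ℂ) * ∫ τ : ℝ, (W g τ : ℂ) * Complex.exp ((τ : ℂ) * Complex.I * x) = F x := hinv
  have h5 : ∫ τ : ℝ, (W g τ : ℂ) * Complex.exp ((τ : ℂ) * Complex.I * x) = ((2 * Real.pi : ℝ) : ℂ) * F x := by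
    rw [← h4, ← mul_assoc, ← Complex.ofReal_mul, mul_inv_cancel₀ hpi.ne']
    simp
  rw [h5]
  push_cast
  rfl

end Pool.Agent.Lib.MP_70ee11_an.EZ
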