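import Mathlib
import Pool.Agent.Lib.MP_70ee11_an.EZ.Defs
import Pool.Agent.Lib.MP_70ee11_an.EZ.Gam2
import Pool.Agent.Lib.MP_70ee11_an.EZ.FourA

/-!
Module FourB. ANALYTIC CONTINUATION TO THE STRIP |Im u| < π.

PROOF. Both sides are holomorphic on the (convex, open) strip Σ = {|Im u| < π}:
* right side: for u = x+iy, |y| < π: cosh(u/2) has real part cosh(x/2)cos(y/2) > 0, so 2cosh(u/2) is in the slit plane
  (`re_cosh_pos`), and ksech is a composition of holomorphic functions;
* left side: `hasDerivAt_integral_of_dominated_loc_of_deriv_le` near u₀ (|Im u| ≤ q < π on a small ball): the derivative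
  of the integrand is W(τ) iτ e^{iτu}, bounded by W(τ)|τ|e^{q|τ|} ≤ C W(τ) e^{q'|τ|}, q < q' < π, integrable by
  `W_integrable`.
They agree on ℝ (`four_real`, and for real x: ksech g x = ((2cosh(x/2))^{-g} : ℝ)). Identity theorem
(`AnalyticOnNhd.eqOn_of_preconnected_of_frequently_eq` at the point 0, the real points accumulate at 0;
`DifferentiableOn.analyticOnNhd`).
-/

set_option linter.style.longLine false

open MeasureTheory Set Filter Topology

namespace Pool.Agent.Lib.MP_70ee11_an.EZ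

theorem re_cosh_pos {u : ℂ} (hu : |u.im| < Real.pi) : 0 < (Complex.cosh (u / 2)).re := by
  have h1 : (Complex.cosh (u / 2)).re = Real.cosh (u.re / 2) * Real.cos (u.im / 2) := by
    have hre : (u / 2).re = u.re / 2 := by simp
    have him : (u / 2).im = u.im / 2 := by simp
    have h2 : (Complex.cosh (u / 2)).re =
        ((Complex.exp (u / 2)).re + (Complex.exp (-(u / 2))).re) / 2 := by
      rw [Complex.cosh]
      simp
    rw [h2, Complex.exp_re, Complex.exp_re, Complex.neg_re, Complex.neg_im, Real.cos_neg, hre, him,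
      Real.cosh_eq]
    ring
  rw [h1]
  obtain ⟨ha, hb⟩ := abs_lt.1 hu
  exact mul_pos (Real.cosh_pos _) (Real.cos_pos_of_mem_Ioo ⟨by linarith, by linarith⟩)

private theorem fb_slit {u : ℂ} (hu : |u.im| < Real.pi) :
    2 * Complex.cosh (u / 2) ∈ Complex.slitPlane := by
  rw [Complex.mem_slitPlane_iff]
  left
  have h := re_cosh_pos hu
  have h2 : (2 * Complex.cosh (u / 2)).re = 2 * (Complex.cosh (u / 2)).re := by
    simp
  rw [h2]
  linarith

theorem ksech_diff (g : ℝ) {u : ℂ} (hu : |u.im| < Real.pi) : DifferentiableAt ℂ (ksech g) u := by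
  unfold ksech
  have h1 : DifferentiableAt ℂ (fun u : ℂ => 2 * Complex.cosh (u / 2)) u := by
    fun_prop
  have h2 : DifferentiableAt ℂ (fun u : ℂ => Complex.log (2 * Complex.cosh (u / 2))) u :=
    h1.clog (fb_slit hu)
  exact (h2.const_mul (-(g : ℂ))).cexp

theorem ksech_real (g x : ℝ) : ksech g x = (((2 * Real.cosh (x / 2)) ^ (-g) : ℝ) : ℂ) := by
  unfold ksech
  have h0 : 0 < 2 * Real.cosh (x / 2) := by
    have := Real.cosh_pos (x / 2)
    positivity
  have h1 : 2 * Complex.cosh ((x : ℂ) / 2) = ((2 * Real.cosh (x / 2) : ℝ) : ℂ) := by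
    push_cast
    rfl
  rw [h1, ← Complex.ofReal_log h0.le, Real.rpow_def_of_pos h0, Complex.ofReal_exp]
  congr 1
  push_cast
  ring

theorem ksech_conj (g : ℝ) {u : ℂ} (hu : |u.im| < Real.pi) : ksech g ((starRingEnd ℂ) u) = (starRingEnd ℂ) (ksech g u) := by
  unfold ksech
  have h1 : 2 * Complex.cosh ((starRingEnd ℂ) u / 2) =
      (starRingEnd ℂ) (2 * Complex.cosh (u / 2)) := by
    have h2 : (starRingEnd ℂ) u / 2 = (starRingEnd ℂ) (u / 2) := by
      rw [map_div₀, map_ofNat]
    rw [h2, Complex.cosh_conj, map_mul, map_ofNat]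
  rw [h1, Complex.log_conj _ (Complex.slitPlane_arg_ne_pi (fb_slit hu)), ← Complex.exp_conj]
  simp

private theorem fb_norm (g : ℝ) (hg : 0 < g) (τ : ℝ) (u : ℂ) :
    ‖(W g τ : ℂ) * Complex.exp ((τ : ℂ) * Complex.I * u)‖ = W g τ * Real.exp (-(τ * u.im)) := by
  rw [norm_mul, Complex.norm_real, Real.norm_of_nonneg (W_pos hg τ).le, Complex.norm_exp]
  congr 2
  simp

private theorem fb_exp_le {τ y q : ℝ} (h : |y| ≤ q) : Real.exp (-(τ * y)) ≤ Real.exp (q * |τ|) := by
  apply Real.exp_le_exp.2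
  have h1 : |τ * y| ≤ q * |τ| := by
    rw [abs_mul, mul_comm]
    exact mul_le_mul_of_nonneg_right h (abs_nonneg τ)
  exact (neg_le_abs _).trans h1

private theorem fb_cont (g : ℝ) (hg : 0 < g) (u : ℂ) :
    Continuous fun τ : ℝ => (W g τ : ℂ) * Complex.exp ((τ : ℂ) * Complex.I * u) := by
  have := W_cont hg
  fun_prop

private theorem fb_int (g : ℝ) (hg : 0 < g) {u : ℂ} (hu : |u.im| < Real.pi) :
    Integrable fun τ : ℝ => (W g τ : ℂ) * Complex.exp ((τ : ℂ) * Complex.I * u) := by
  refine (W_integrable hg hu).mono' (fb_cont g hg u).aestronglyMeasurable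
    (Filter.Eventually.of_forall fun τ => ?_)
  rw [fb_norm g hg]
  exact mul_le_mul_of_nonneg_left (fb_exp_le le_rfl) (W_pos hg τ).le

private theorem fb_diff (g : ℝ) (hg : 0 < g) {u : ℂ} (hu : |u.im| < Real.pi) :
    DifferentiableAt ℂ
      (fun u : ℂ => ∫ τ : ℝ, (W g τ : ℂ) * Complex.exp ((τ : ℂ) * Complex.I * u)) u := by
  obtain ⟨δ, hδ⟩ : ∃ δ : ℝ, δ = (Real.pi - |u.im|) / 3 := ⟨_, rfl⟩
  have hδ0 : 0 < δ := by rw [hδ]; linarith
  obtain ⟨q, hq⟩ : ∃ q : ℝ, q = |u.im| + δ := ⟨_, rfl⟩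
  have hq' : q + δ < Real.pi := by
    have : 3 * δ = Real.pi - |u.im| := by rw [hδ]; ring
    rw [hq]; linarith
  have hball : ∀ v ∈ Metric.ball u δ, |v.im| ≤ q := by
    intro v hv
    rw [Metric.mem_ball, dist_eq_norm] at hv
    have h1 : |(v - u).im| ≤ ‖v - u‖ := Complex.abs_im_le_norm _
    rw [Complex.sub_im] at h1
    have h2 : |v.im| ≤ |v.im - u.im| + |u.im| := by
      have := abs_add_le (v.im - u.im) u.im
      simpa using this
    rw [hq]
    linarith
  have key := hasDerivAt_integral_of_dominated_loc_of_deriv_le (μ := volume) (x₀ := u)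
    (F := fun (v : ℂ) (τ : ℝ) => (W g τ : ℂ) * Complex.exp ((τ : ℂ) * Complex.I * v))
    (F' := fun (v : ℂ) (τ : ℝ) =>
      (W g τ : ℂ) * (Complex.exp ((τ : ℂ) * Complex.I * v) * ((τ : ℂ) * Complex.I)))
    (s := Metric.ball u δ) (bound := fun τ => 1 / δ * (W g τ * Real.exp ((q + δ) * |τ|)))
    (Metric.ball_mem_nhds u hδ0)
    (Filter.Eventually.of_forall fun v => (fb_cont g hg v).aestronglyMeasurable)
    (fb_int g hg hu)
    (by
      have := W_cont hg
      exact (by fun_prop : Continuous fun τ : ℝ =>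
        (W g τ : ℂ) * (Complex.exp ((τ : ℂ) * Complex.I * u) * ((τ : ℂ) * Complex.I))).aestronglyMeasurable)
    (Filter.Eventually.of_forall fun τ v hv => by
      have h1 : ‖(W g τ : ℂ) * (Complex.exp ((τ : ℂ) * Complex.I * v) * ((τ : ℂ) * Complex.I))‖ =
          W g τ * Real.exp (-(τ * v.im)) * |τ| := by
        rw [← mul_assoc, norm_mul, fb_norm g hg, norm_mul, Complex.norm_real, Complex.norm_I,
          mul_one, Real.norm_eq_abs]
      rw [h1]
      have h2 := fb_exp_le (τ := τ) (hball v hv)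
      have h3 : |τ| ≤ 1 / δ * Real.exp (δ * |τ|) := by
        have h4 := Real.add_one_le_exp (δ * |τ|)
        have h5 : δ * |τ| ≤ Real.exp (δ * |τ|) := by linarith
        rw [one_div, inv_mul_eq_div, le_div_iff₀ hδ0]
        linarith
      have hW := (W_pos hg τ).le
      calc W g τ * Real.exp (-(τ * v.im)) * |τ|
          ≤ W g τ * Real.exp (q * |τ|) * (1 / δ * Real.exp (δ * |τ|)) := by
            gcongr
        _ = 1 / δ * (W g τ * Real.exp ((q + δ) * |τ|)) := by
            rw [add_mul, Real.exp_add]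
            ring)
    ((W_integrable hg hq').const_mul _)
    (Filter.Eventually.of_forall fun τ v _ => by
      have h1 : HasDerivAt (fun v : ℂ => (τ : ℂ) * Complex.I * v) ((τ : ℂ) * Complex.I) v := by
        simpa using (hasDerivAt_id v).const_mul ((τ : ℂ) * Complex.I)
      exact (h1.cexp).const_mul (W g τ : ℂ))
  exact key.2.differentiableAt

theorem four {g : ℝ} (hg : 0 < g) {u : ℂ} (hu : |u.im| < Real.pi) :
    ∫ τ : ℝ, (W g τ : ℂ) * Complex.exp ((τ : ℂ) * Complex.I * u) = 2 * Real.pi * ksech g u := by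
  set S : Set ℂ := {u : ℂ | |u.im| < Real.pi} with hS
  have hSo : IsOpen S := by
    have : Continuous fun u : ℂ => |u.im| := by fun_prop
    exact isOpen_lt this continuous_const
  have hSc : Convex ℝ S := by
    intro x hx y hy a b ha hb hab
    simp only [hS, Set.mem_ofPred_eq, abs_lt] at hx hy ⊢
    have him : (a • x + b • y).im = a * x.im + b * y.im := by simp
    rw [him]
    constructor
    · rcases ha.eq_or_lt with h | h
      · rw [← h] at hab ⊢
        have : b = 1 := by linarith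
        rw [this]; linarith [hy.1]
      · nlinarith [hx.1, hy.1]
    · rcases ha.eq_or_lt with h | h
      · rw [← h] at hab ⊢
        have : b = 1 := by linarith
        rw [this]; linarith [hy.2]
      · nlinarith [hx.2, hy.2]
  have hf : AnalyticOnNhd ℂ
      (fun u : ℂ => ∫ τ : ℝ, (W g τ : ℂ) * Complex.exp ((τ : ℂ) * Complex.I * u)) S :=
    DifferentiableOn.analyticOnNhd
      (fun v hv => (fb_diff g hg hv).differentiableWithinAt) hSo
  have hk : AnalyticOnNhd ℂ (fun u : ℂ => 2 * Real.pi * ksech g u) S :=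
    DifferentiableOn.analyticOnNhd
      (fun v hv => ((ksech_diff g hv).const_mul _).differentiableWithinAt) hSo
  have h0 : (0 : ℂ) ∈ S := by
    simp [hS, Real.pi_pos]
  have hfreq : ∃ᶠ z in 𝓝[≠] (0 : ℂ),
      (fun u : ℂ => ∫ τ : ℝ, (W g τ : ℂ) * Complex.exp ((τ : ℂ) * Complex.I * u)) z =
        (fun u : ℂ => 2 * Real.pi * ksech g u) z := by
    have h1 : Filter.Tendsto (fun x : ℝ => (x : ℂ)) (𝓝[≠] (0 : ℝ)) (𝓝[≠] (0 : ℂ)) := by
      rw [tendsto_nhdsWithin_iff]
      constructor
      · have : Filter.Tendsto (fun x : ℝ => (x : ℂ)) (𝓝 (0 : ℝ)) (𝓝 ((0 : ℝ) : ℂ)) :=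
          Complex.continuous_ofReal.tendsto 0
        rw [Complex.ofReal_zero] at this
        exact this.mono_left nhdsWithin_le_nhds
      · filter_upwards [self_mem_nhdsWithin] with x hx
        simpa using hx
    apply h1.frequently
    apply Filter.Eventually.frequently
    apply Filter.Eventually.of_forall
    intro x
    change ∫ τ : ℝ, (W g τ : ℂ) * Complex.exp ((τ : ℂ) * Complex.I * x) = 2 * Real.pi * ksech g x
    rw [four_real hg x, ksech_real]
  exact hf.eqOn_of_preconnected_of_frequently_eq hk hSc.isPreconnected h0 hfreq hu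

end Pool.Agent.Lib.MP_70ee11_an.EZ
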