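import Mathlib
import Pool.Agent.Lib.MP_70ee11_an.Mobius
import Pool.Agent.Lib.MP_70ee11_an.EZ.Defs
import Pool.Agent.Lib.MP_70ee11_an.EZ.FourB

/-!
Module Kern. THE BERGMAN KERNEL IN STRIP COORDINATES z = tanh(t/2).

`kern α c z = exp(-(α+2) log(1 - c̄ z))` (file Mobius.lean, already proved things there may be used).

PROOF. Write t = x+iy, |y| < π/2.
* cosh(t/2) has real part cosh(x/2)cos(y/2) > 0 and imaginary part sinh(x/2)sin(y/2), and
  |sinh(x/2) sin(y/2)| < cosh(x/2) cos(y/2) as |tan(y/2)| < 1. So K(t) := 2cosh(t/2) satisfies |Im K| < Re K, hence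
  |arg K| < π/4 (e.g. K² = 2(cosh t + 1) has positive real part, so |arg K²| < π/2 and arg K² = 2 arg K; or
  tan(arg) = Im/Re).
* th_mem: |sinh(t/2)|² = (cosh x - cos y)/2 < (cosh x + cos y)/2 = |cosh(t/2)|² since cos y > 0.
* th_im: Im(sinh(t/2) conj cosh(t/2)) = (sin y)/2 ≠ 0 for 0 < |y| < π/2 (so Im tanh(t/2) = sin y/(cosh x + cos y)).
* th_real: real x gives a real value.
* kern_th: 1 - conj(th s) th t = cosh((t-s̄)/2)/(cosh(t/2) cosh(s̄/2)) = 2 K1/(K2 K3), with K1 = 2cosh((t-s̄)/2),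
  K2 = 2cosh(t/2), K3 = 2cosh(s̄/2) = conj(2cosh(s/2)) (addition formula for cosh). Here |arg K1| < π/2 because
  |Im(t-s̄)| < π, |arg K2|, |arg K3| < π/4. So the complex number L = log 2 + log K1 - log K2 - log K3 has |Im L| < π and
  exp L = 2K1/(K2K3); hence log(1 - conj(th s) th t) = L (`Complex.log_exp`). Multiply by -(α+2) and exponentiate:
  kern = exp(-(α+2) log 2) · ksech (t-s̄) · exp((α+2) log K2) · exp((α+2) log K3), and exp((α+2) log K3) = conj (CC s)
  (`Complex.log_conj` as arg ≠ π, `Complex.exp_conj`).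
-/

set_option linter.style.longLine false

open MeasureTheory Set Filter Topology

namespace Pool.Agent.Lib.MP_70ee11_an.EZ

/-- tanh(t/2) -/
noncomputable def th (t : ℂ) : ℂ := Complex.sinh (t / 2) / Complex.cosh (t / 2)

/-- (2cosh(t/2))^g -/
noncomputable def CC (g : ℝ) (t : ℂ) : ℂ := Complex.exp ((g : ℂ) * Complex.log (2 * Complex.cosh (t / 2)))

private theorem kern_cosh (t : ℂ) : Complex.cosh (t / 2) =
    ⟨Real.cosh (t.re / 2) * Real.cos (t.im / 2), Real.sinh (t.re / 2) * Real.sin (t.im / 2)⟩ := by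
  have h1 : t / 2 = ((t.re / 2 : ℝ) : ℂ) + ((t.im / 2 : ℝ) : ℂ) * Complex.I := by
    apply Complex.ext <;> simp
  rw [h1, Complex.cosh_add, Complex.cosh_mul_I, Complex.sinh_mul_I, ← Complex.ofReal_cosh,
    ← Complex.ofReal_sinh, ← Complex.ofReal_cos, ← Complex.ofReal_sin]
  generalize Real.cosh (t.re / 2) = A
  generalize Real.sinh (t.re / 2) = B
  generalize Real.cos (t.im / 2) = C
  generalize Real.sin (t.im / 2) = D
  apply Complex.ext <;> simp

private theorem kern_sinh (t : ℂ) : Complex.sinh (t / 2) =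
    ⟨Real.sinh (t.re / 2) * Real.cos (t.im / 2), Real.cosh (t.re / 2) * Real.sin (t.im / 2)⟩ := by
  have h1 : t / 2 = ((t.re / 2 : ℝ) : ℂ) + ((t.im / 2 : ℝ) : ℂ) * Complex.I := by
    apply Complex.ext <;> simp
  rw [h1, Complex.sinh_add, Complex.cosh_mul_I, Complex.sinh_mul_I, ← Complex.ofReal_cosh,
    ← Complex.ofReal_sinh, ← Complex.ofReal_cos, ← Complex.ofReal_sin]
  generalize Real.cosh (t.re / 2) = A
  generalize Real.sinh (t.re / 2) = B
  generalize Real.cos (t.im / 2) = C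
  generalize Real.sin (t.im / 2) = D
  apply Complex.ext <;> simp

private theorem kern_trig {y : ℝ} (hy : |y| < Real.pi / 2) :
    0 < Real.cos (y / 2) ∧ |Real.sin (y / 2)| < Real.cos (y / 2) := by
  have hpi := Real.pi_pos
  rw [abs_lt] at hy
  have h1 : 0 < Real.cos (y / 2) := Real.cos_pos_of_mem_Ioo ⟨by linarith, by linarith⟩
  have h2 : 0 < Real.cos y := Real.cos_pos_of_mem_Ioo ⟨by linarith, by linarith⟩
  have h3 : Real.cos y = 2 * Real.cos (y / 2) ^ 2 - 1 := by
    rw [← Real.cos_two_mul]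
    congr 1
    ring
  have h4 := Real.sin_sq_add_cos_sq (y / 2)
  refine ⟨h1, ?_⟩
  rw [← abs_of_pos h1]
  apply sq_lt_sq.1
  nlinarith

private theorem kern_abs_sinh (a : ℝ) : |Real.sinh a| < Real.cosh a := by
  have h1 := Real.cosh_sq a
  have h2 := Real.cosh_pos a
  rw [← abs_of_pos h2]
  apply sq_lt_sq.1
  linarith

private theorem kern_K {t : ℂ} (ht : |t.im| < Real.pi / 2) :
    |(2 * Complex.cosh (t / 2)).im| < (2 * Complex.cosh (t / 2)).re := by
  obtain ⟨h1, h2⟩ := kern_trig ht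
  have h3 := kern_abs_sinh (t.re / 2)
  have h4 := Real.cosh_pos (t.re / 2)
  rw [kern_cosh]
  have e1 : ((2 : ℂ) * ⟨Real.cosh (t.re / 2) * Real.cos (t.im / 2),
      Real.sinh (t.re / 2) * Real.sin (t.im / 2)⟩).im =
      2 * (Real.sinh (t.re / 2) * Real.sin (t.im / 2)) := by simp
  have e2 : ((2 : ℂ) * ⟨Real.cosh (t.re / 2) * Real.cos (t.im / 2),
      Real.sinh (t.re / 2) * Real.sin (t.im / 2)⟩).re =
      2 * (Real.cosh (t.re / 2) * Real.cos (t.im / 2)) := by simp
  rw [e1, e2, abs_mul, abs_of_pos (by norm_num : (0 : ℝ) < 2), abs_mul]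
  have h5 : |Real.sinh (t.re / 2)| * |Real.sin (t.im / 2)| <
      Real.cosh (t.re / 2) * Real.cos (t.im / 2) :=
    mul_lt_mul'' h3 h2 (abs_nonneg _) (abs_nonneg _)
  linarith

private theorem kern_arg {z : ℂ} (h : |z.im| < z.re) : |z.arg| < Real.pi / 4 := by
  have hpi := Real.pi_pos
  have hre : 0 < z.re := (abs_nonneg _).trans_lt h
  have hz : z ≠ 0 := by
    rintro rfl
    simp at hre
  have hn : 0 < ‖z‖ := norm_pos_iff.2 hz
  have h1 : |z.arg| < Real.pi / 2 := Complex.abs_arg_lt_pi_div_two_iff.2 (Or.inl hre)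
  have hc : Real.cos |z.arg| = z.re / ‖z‖ := by rw [Real.cos_abs, Complex.cos_arg hz]
  have hs : Real.sin |z.arg| = |z.im| / ‖z‖ := by
    rw [← Real.abs_sin_eq_sin_abs_of_abs_le_pi (by linarith), Complex.sin_arg, abs_div,
      abs_of_pos hn]
  have h2 : Real.sin |z.arg| < Real.cos |z.arg| := by
    rw [hc, hs]
    exact div_lt_div_of_pos_right h hn
  by_contra hcon
  push Not at hcon
  have h3 : Real.sin (Real.pi / 4) ≤ Real.sin |z.arg| :=
    Real.sin_le_sin_of_le_of_le_pi_div_two (by linarith) h1.le hcon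
  have h4 : Real.cos |z.arg| ≤ Real.cos (Real.pi / 4) :=
    Real.cos_le_cos_of_nonneg_of_le_pi (by linarith) (by linarith) hcon
  rw [Real.sin_pi_div_four] at h3
  rw [Real.cos_pi_div_four] at h4
  linarith

private theorem kern_cosh_ne {t : ℂ} (ht : |t.im| < Real.pi / 2) : Complex.cosh (t / 2) ≠ 0 := by
  intro h0
  have h1 := kern_K ht
  rw [h0] at h1
  simp at h1

theorem th_mem {t : ℂ} (ht : |t.im| < Real.pi / 2) : th t ∈ Metric.ball (0 : ℂ) 1 := by
  obtain ⟨h1, h2⟩ := kern_trig ht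
  rw [mem_ball_zero_iff, th, norm_div, div_lt_one (norm_pos_iff.2 (kern_cosh_ne ht))]
  have h3 : ‖Complex.sinh (t / 2)‖ ^ 2 < ‖Complex.cosh (t / 2)‖ ^ 2 := by
    rw [← Complex.normSq_eq_norm_sq, ← Complex.normSq_eq_norm_sq, kern_sinh, kern_cosh,
      Complex.normSq_mk, Complex.normSq_mk]
    have h4 := Real.cosh_sq (t.re / 2)
    have h5 := Real.sin_sq_add_cos_sq (t.im / 2)
    have h6 : Real.sin (t.im / 2) ^ 2 < Real.cos (t.im / 2) ^ 2 := by
      apply sq_lt_sq.2
      rwa [abs_of_pos h1]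
    nlinarith
  exact lt_of_pow_lt_pow_left₀ 2 (norm_nonneg _) h3

theorem th_im {t : ℂ} (h0 : 0 < |t.im|) (ht : |t.im| < Real.pi / 2) : (th t).im ≠ 0 := by
  obtain ⟨h1, h2⟩ := kern_trig ht
  have hpi := Real.pi_pos
  have hn : Complex.normSq (Complex.cosh (t / 2)) ≠ 0 := by
    rw [Ne, Complex.normSq_eq_zero]
    exact kern_cosh_ne ht
  have hs : Real.sin (t.im / 2) ≠ 0 := by
    intro h3
    rw [Real.sin_eq_zero_iff_of_lt_of_lt] at h3
    · have : t.im = 0 := by linarith
      rw [this] at h0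
      simp at h0
    · have := (abs_lt.1 ht).1
      linarith
    · have := (abs_lt.1 ht).2
      linarith
  rw [th, Complex.div_im, ← sub_div]
  apply div_ne_zero _ hn
  rw [kern_sinh, kern_cosh]
  have h4 := Real.cosh_sq (t.re / 2)
  have h5 : Real.cosh (t.re / 2) * Real.sin (t.im / 2) * (Real.cosh (t.re / 2) * Real.cos (t.im / 2)) -
      Real.sinh (t.re / 2) * Real.cos (t.im / 2) * (Real.sinh (t.re / 2) * Real.sin (t.im / 2)) =
      Real.sin (t.im / 2) * Real.cos (t.im / 2) := by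
    linear_combination (Real.sin (t.im / 2) * Real.cos (t.im / 2)) * h4
  change Real.cosh (t.re / 2) * Real.sin (t.im / 2) * (Real.cosh (t.re / 2) * Real.cos (t.im / 2)) -
      Real.sinh (t.re / 2) * Real.cos (t.im / 2) * (Real.sinh (t.re / 2) * Real.sin (t.im / 2)) ≠ 0
  rw [h5]
  exact mul_ne_zero hs h1.ne'

theorem th_real (x : ℝ) : (th (x : ℂ)).im = 0 := by
  have h1 : th (x : ℂ) = ((Real.sinh (x / 2) / Real.cosh (x / 2) : ℝ) : ℂ) := by
    rw [th]
    push_cast
    rfl
  rw [h1, Complex.ofReal_im]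

theorem th_zero : th 0 = 0 := by
  simp [th]

theorem kern_th {α : ℝ} {s t : ℂ} (hs : |s.im| < Real.pi / 2) (ht : |t.im| < Real.pi / 2) :
    kern α (th s) (th t) = Complex.exp (-((α : ℂ) + 2) * Real.log 2) *
      ksech (α + 2) (t - (starRingEnd ℂ) s) * CC (α + 2) t * (starRingEnd ℂ) (CC (α + 2) s) := by
  have hpi := Real.pi_pos
  set s' : ℂ := (starRingEnd ℂ) s with hs'
  have hs2 : |s'.im| < Real.pi / 2 := by
    rw [hs', Complex.conj_im, abs_neg]
    exact hs
  have hconj2 : (starRingEnd ℂ) (s / 2) = s' / 2 := by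
    rw [map_div₀, hs']
    congr 1
    exact Complex.conj_ofNat 2
  have hcc : (starRingEnd ℂ) (Complex.cosh (s / 2)) = Complex.cosh (s' / 2) := by
    rw [← Complex.cosh_conj, hconj2]
  have hcs : (starRingEnd ℂ) (Complex.sinh (s / 2)) = Complex.sinh (s' / 2) := by
    rw [← Complex.sinh_conj, hconj2]
  have n2 := kern_cosh_ne ht
  have n3 := kern_cosh_ne hs2
  -- the first factor
  have hK1 : 0 < (2 * Complex.cosh ((t - s') / 2)).re := by
    rw [kern_cosh]
    have h1 : 0 < Real.cos ((t - s').im / 2) := by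
      apply Real.cos_pos_of_mem_Ioo
      rw [Complex.sub_im]
      rw [abs_lt] at ht hs2
      exact ⟨by linarith, by linarith⟩
    have h2 := Real.cosh_pos ((t - s').re / 2)
    have e2 : ((2 : ℂ) * ⟨Real.cosh ((t - s').re / 2) * Real.cos ((t - s').im / 2),
      Real.sinh ((t - s').re / 2) * Real.sin ((t - s').im / 2)⟩).re =
      2 * (Real.cosh ((t - s').re / 2) * Real.cos ((t - s').im / 2)) := by simp
    rw [e2]
    positivity
  have n1 : (2 * Complex.cosh ((t - s') / 2)) ≠ 0 := by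
    intro h0
    rw [h0] at hK1
    simp at hK1
  have a1 : |(2 * Complex.cosh ((t - s') / 2)).arg| < Real.pi / 2 :=
    Complex.abs_arg_lt_pi_div_two_iff.2 (Or.inl hK1)
  have a2 := kern_arg (kern_K ht)
  have a3 := kern_arg (kern_K hs2)
  have m2 : (2 * Complex.cosh (t / 2)) ≠ 0 := mul_ne_zero two_ne_zero n2
  have m3 : (2 * Complex.cosh (s' / 2)) ≠ 0 := mul_ne_zero two_ne_zero n3
  set L : ℂ := (Real.log 2 : ℂ) + Complex.log (2 * Complex.cosh ((t - s') / 2)) -
    Complex.log (2 * Complex.cosh (t / 2)) - Complex.log (2 * Complex.cosh (s' / 2)) with hL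
  have hLim : L.im = (2 * Complex.cosh ((t - s') / 2)).arg - (2 * Complex.cosh (t / 2)).arg -
      (2 * Complex.cosh (s' / 2)).arg := by
    rw [hL, Complex.sub_im, Complex.sub_im, Complex.add_im, Complex.ofReal_im, Complex.log_im,
      Complex.log_im, Complex.log_im, zero_add]
  have hexp2 : Complex.exp (Real.log 2 : ℂ) = 2 := by
    rw [← Complex.ofReal_exp, Real.exp_log (by norm_num)]
    norm_num
  have hexpL : Complex.exp L = 1 - (starRingEnd ℂ) (th s) * th t := by
    rw [hL, Complex.exp_sub, Complex.exp_sub, Complex.exp_add, hexp2, Complex.exp_log n1,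
      Complex.exp_log m2, Complex.exp_log m3, th, th, map_div₀, hcc, hcs]
    have h1 : (t - s') / 2 = t / 2 - s' / 2 := by ring
    rw [h1, Complex.cosh_sub]
    field_simp
  have hlog : Complex.log (1 - (starRingEnd ℂ) (th s) * th t) = L := by
    rw [← hexpL]
    rw [abs_lt] at a1 a2 a3
    apply Complex.log_exp
    · rw [hLim]
      linarith
    · rw [hLim]
      linarith
  have hCs : (starRingEnd ℂ) (CC (α + 2) s) =
      Complex.exp (((α + 2 : ℝ) : ℂ) * Complex.log (2 * Complex.cosh (s' / 2))) := by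
    rw [CC, ← Complex.exp_conj, map_mul, Complex.conj_ofReal, ← Complex.log_conj, map_mul, hcc]
    · congr 3
      exact congrArg (fun u => u * Complex.cosh (s' / 2)) (Complex.conj_ofNat 2)
    · have h1 := kern_arg (kern_K hs)
      rw [abs_lt] at h1
      intro h0
      rw [h0] at h1
      linarith
  rw [kern, hlog, hCs, ksech, CC, ← Complex.exp_add, ← Complex.exp_add, ← Complex.exp_add, hL]
  congr 1
  push_cast
  ring

end Pool.Agent.Lib.MP_70ee11_an.EZ
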