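import Mathlib
import Pool.Agent.Lib.MP_70ee11_an.Mobius
import Pool.Agent.Lib.MP_70ee11_an.EZ.Defs
import Pool.Agent.Lib.MP_70ee11_an.EZ.Gam2
import Pool.Agent.Lib.MP_70ee11_an.EZ.FourB
import Pool.Agent.Lib.MP_70ee11_an.EZ.Kern

/-!
Module Link. NO EXTRANEOUS ZERO IMPLIES THE SIGN PROPERTY.

`EZat α Z b`: some combination h(z) = kern b z + Σ_{a∈S} c_a kern (p a) z (with points p a ∈ Z) vanishes at 0 and on Z.

PROOF of `link`. g = α+2 > 2. Let S, c be as in SP, and (for |Im t| < π/2) Ψ(t) = ∫ W e^{iτt} hh S c dτ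
   = 2π [ksech(t) - Σ_{a∈S} c_a ksech(t - ā)]  by `four` (|Im t|, |Im(t-ā)| < π; ee a τ = e^{-iτā}).
Suppose Re Ψ(x₁) < 0 for a real x₁.
(1) Symmetrise: c̃_a := (c_a + conj c_{ā})/2. Since S is conjugation symmetric, with
    Ψ'(t) := 2π[ksech(t) - Σ_a conj(c_{ā}) ksech(t-ā)] one has Ψ'(t) = conj Ψ(t̄) (reindex a ↦ ā; `ksech_conj`).
    So Ψ̃ := (Ψ+Ψ')/2 (this is the Ψ of c̃) vanishes on S (Ψ(t) = 0 and Ψ(t̄) = 0 for t ∈ S) and for real x
    Ψ̃(x) = Re Ψ(x) is real.
(2) Ψ̃(0) ≥ 0: let h̃ = hh S c̃. ∫ W conj(h̃) h̃ = ∫ W h̃ - Σ_a conj(c̃_a) ∫ W e^{iτa} h̃ = Ψ̃(0) - 0, because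
    conj(ee a τ) = e^{iτa}. (All integrals converge: `W_integrable`; |Im| < π/2 for each exponential.)
(3) x ↦ Ψ̃(x) is continuous on ℝ (formula with ksech), real valued, Ψ̃(0) ≥ 0 > Ψ̃(x₁): by the intermediate value
    theorem there is a real x₀ with Ψ̃(x₀) = 0.
(4) Translate: put S' = S, p(a) = th(a - x₀), b = th(-x₀), Z = image of p. For |Im t| < π/2:
      Ψ̃(t + x₀)/(2π) = ksech(t - conj(-x₀)) - Σ_a c̃_a ksech(t - conj(a - x₀)),
    vanishing at t = 0 and at t = a' - x₀ (a' ∈ S). By `kern_th` (with CC ≠ 0 : an exponential)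
      ksech(t - s̄) = kern(th s)(th t) / (e^{-g log 2} CC(t) conj CC(s)),
    so with c''_a := - c̃_a conj CC(-x₀)/conj CC(a-x₀) the function kern b z + Σ c''_a kern (p a) z vanishes at z = th 0 = 0
    and at z = th(a'-x₀). Moreover th(a-x₀) has nonzero imaginary part (`th_im`), b is real (`th_real`): so 0 ∉ Z, b ∉ Z.
This contradicts hno.
-/

set_option linter.style.longLine false

open MeasureTheory Set Filter Topology

namespace Pool.Agent.Lib.MP_70ee11_an.EZ

/-- a combination of kernels with `b`-coefficient one that vanishes at 0 and on Z -/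
def EZat (α : ℝ) (Z : Finset ℂ) (b : ℂ) : Prop :=
  ∃ (S : Finset ℂ) (p c : ℂ → ℂ), (∀ a ∈ S, p a ∈ Z) ∧ kern α b 0 + ∑ a ∈ S, c a * kern α (p a) 0 = 0 ∧
    ∀ z ∈ Z, kern α b z + ∑ a ∈ S, c a * kern α (p a) z = 0

/-- `Ψ/(2π)` -/
noncomputable def FF (g : ℝ) (S : Finset ℂ) (c : ℂ → ℂ) (t : ℂ) : ℂ :=
  ksech g t - ∑ a ∈ S, c a * ksech g (t - (starRingEnd ℂ) a)

private lemma exp_int {g : ℝ} (hg : 0 < g) {u : ℂ} (hu : |u.im| < Real.pi) :
    Integrable (fun τ : ℝ => (W g τ : ℂ) * Complex.exp ((τ : ℂ) * Complex.I * u)) := by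
  refine (W_integrable hg hu).mono' ?_ ?_
  · apply Continuous.aestronglyMeasurable
    have h1 : Continuous fun τ : ℝ => (W g τ : ℂ) := Complex.continuous_ofReal.comp (W_cont hg)
    exact h1.mul (by fun_prop)
  · refine Filter.Eventually.of_forall fun τ => ?_
    rw [norm_mul, Complex.norm_real, Real.norm_eq_abs, abs_of_pos (W_pos hg τ), Complex.norm_exp]
    apply mul_le_mul_of_nonneg_left _ (W_pos hg τ).le
    apply Real.exp_le_exp.mpr
    have h2 : ((τ : ℂ) * Complex.I * u).re = -(τ * u.im) := by simp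
    rw [h2]
    calc -(τ * u.im) ≤ |τ * u.im| := neg_le_abs _
      _ = |u.im| * |τ| := by rw [abs_mul, mul_comm]

private lemma im_sub_conj {t a : ℂ} (ht : |t.im| < Real.pi / 2) (ha : |a.im| < Real.pi / 2) :
    |(t - (starRingEnd ℂ) a).im| < Real.pi := by
  rw [Complex.sub_im, Complex.conj_im, sub_neg_eq_add]
  calc |t.im + a.im| ≤ |t.im| + |a.im| := abs_add_le _ _
    _ < Real.pi := by linarith

private lemma integrand_eq {g : ℝ} (S : Finset ℂ) (c : ℂ → ℂ) (t : ℂ) (τ : ℝ) :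
    (W g τ : ℂ) * (Complex.exp ((τ : ℂ) * Complex.I * t) * hh S c τ) =
      (W g τ : ℂ) * Complex.exp ((τ : ℂ) * Complex.I * t) -
        ∑ a ∈ S, c a * ((W g τ : ℂ) * Complex.exp ((τ : ℂ) * Complex.I * (t - (starRingEnd ℂ) a))) := by
  have h1 : ∀ a : ℂ, Complex.exp ((τ : ℂ) * Complex.I * (t - (starRingEnd ℂ) a)) =
      Complex.exp ((τ : ℂ) * Complex.I * t) * ee a τ := by
    intro a
    rw [ee, ← Complex.exp_add]
    congr 1
    ring
  have h2 : ∑ a ∈ S, c a * ((W g τ : ℂ) * Complex.exp ((τ : ℂ) * Complex.I * (t - (starRingEnd ℂ) a))) =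
      (W g τ : ℂ) * Complex.exp ((τ : ℂ) * Complex.I * t) * ∑ a ∈ S, c a * ee a τ := by
    rw [Finset.mul_sum]
    apply Finset.sum_congr rfl
    intro a _
    rw [h1 a]
    ring
  rw [h2, hh]
  ring

private lemma psi_int {g : ℝ} (hg : 0 < g) {S : Finset ℂ} (c : ℂ → ℂ) {t : ℂ} (ht : |t.im| < Real.pi / 2)
    (hS : ∀ a ∈ S, |a.im| < Real.pi / 2) :
    Integrable (fun τ : ℝ => (W g τ : ℂ) * (Complex.exp ((τ : ℂ) * Complex.I * t) * hh S c τ)) := by
  have hp := Real.pi_pos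
  simp_rw [integrand_eq]
  refine (exp_int hg (by linarith)).sub (integrable_finset_sum _ fun a ha => ?_)
  exact (exp_int hg (im_sub_conj ht (hS a ha))).const_mul _

private lemma psi_eq {g : ℝ} (hg : 0 < g) {S : Finset ℂ} (c : ℂ → ℂ) {t : ℂ} (ht : |t.im| < Real.pi / 2)
    (hS : ∀ a ∈ S, |a.im| < Real.pi / 2) :
    ∫ τ : ℝ, (W g τ : ℂ) * (Complex.exp ((τ : ℂ) * Complex.I * t) * hh S c τ) =
      2 * Real.pi * FF g S c t := by
  have hp := Real.pi_pos
  have ht' : |t.im| < Real.pi := by linarith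
  simp_rw [integrand_eq]
  rw [integral_sub (exp_int hg ht') (integrable_finset_sum _ fun a ha =>
    (exp_int hg (im_sub_conj ht (hS a ha))).const_mul _), integral_finset_sum _ fun a ha =>
    (exp_int hg (im_sub_conj ht (hS a ha))).const_mul _, four hg ht', FF, mul_sub, Finset.mul_sum]
  congr 1
  apply Finset.sum_congr rfl
  intro a ha
  rw [integral_const_mul, four hg (im_sub_conj ht (hS a ha))]
  ring

private lemma FF_nonneg {g : ℝ} (hg : 0 < g) {S : Finset ℂ} (c : ℂ → ℂ)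
    (hS : ∀ a ∈ S, |a.im| < Real.pi / 2) (h0 : ∀ a ∈ S, FF g S c a = 0) : 0 ≤ (FF g S c 0).re := by
  have hp := Real.pi_pos
  have hz : |(0 : ℂ).im| < Real.pi / 2 := by simp; linarith
  have e1 : ∀ τ : ℝ, ((W g τ * ‖hh S c τ‖ ^ 2 : ℝ) : ℂ) =
      (W g τ : ℂ) * (Complex.exp ((τ : ℂ) * Complex.I * 0) * hh S c τ) -
        ∑ a ∈ S, (starRingEnd ℂ) (c a) * ((W g τ : ℂ) * (Complex.exp ((τ : ℂ) * Complex.I * a) * hh S c τ)) := by
    intro τ
    have h1 : (starRingEnd ℂ) (hh S c τ) =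
        1 - ∑ a ∈ S, (starRingEnd ℂ) (c a) * Complex.exp ((τ : ℂ) * Complex.I * a) := by
      rw [hh, map_sub, map_one, map_sum]
      congr 1
      apply Finset.sum_congr rfl
      intro a _
      rw [map_mul, ee, ← Complex.exp_conj]
      congr 2
      simp
    have h2 : ((‖hh S c τ‖ ^ 2 : ℝ) : ℂ) = (starRingEnd ℂ) (hh S c τ) * hh S c τ := by
      rw [← Complex.normSq_eq_norm_sq, Complex.normSq_eq_conj_mul_self]
    have h3 : ∑ a ∈ S, (starRingEnd ℂ) (c a) * ((W g τ : ℂ) * (Complex.exp ((τ : ℂ) * Complex.I * a) * hh S c τ)) =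
        (W g τ : ℂ) * hh S c τ * ∑ a ∈ S, (starRingEnd ℂ) (c a) * Complex.exp ((τ : ℂ) * Complex.I * a) := by
      rw [Finset.mul_sum]
      apply Finset.sum_congr rfl
      intro a _
      ring
    rw [h3, Complex.ofReal_mul, h2, h1, mul_zero, Complex.exp_zero]
    ring
  have e2 : ((∫ τ : ℝ, W g τ * ‖hh S c τ‖ ^ 2 : ℝ) : ℂ) = 2 * Real.pi * FF g S c 0 := by
    rw [← integral_complex_ofReal]
    simp_rw [e1]
    rw [integral_sub (psi_int hg c hz hS) (integrable_finset_sum _ fun a ha =>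
      (psi_int hg c (hS a ha) hS).const_mul _), integral_finset_sum _ fun a ha =>
      (psi_int hg c (hS a ha) hS).const_mul _, psi_eq hg c hz hS]
    have : ∑ a ∈ S, ∫ τ : ℝ, (starRingEnd ℂ) (c a) *
        ((W g τ : ℂ) * (Complex.exp ((τ : ℂ) * Complex.I * a) * hh S c τ)) = 0 := by
      apply Finset.sum_eq_zero
      intro a ha
      rw [integral_const_mul, psi_eq hg c (hS a ha) hS, h0 a ha]
      simp
    rw [this, sub_zero]
  have e3 : 0 ≤ ∫ τ : ℝ, W g τ * ‖hh S c τ‖ ^ 2 :=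
    integral_nonneg fun τ => mul_nonneg (W_pos hg τ).le (by positivity)
  have e4 := congrArg Complex.re e2
  rw [Complex.ofReal_re, show (2 * (Real.pi : ℂ) * FF g S c 0) = ((2 * Real.pi : ℝ) : ℂ) * FF g S c 0 by
    push_cast; ring, Complex.re_ofReal_mul] at e4
  by_contra hneg
  push Not at hneg
  nlinarith

theorem link {α : ℝ} (hα : 0 < α)
    (hno : ¬ ∃ (Z : Finset ℂ) (b : ℂ), (∀ a ∈ Z, a ∈ Metric.ball (0 : ℂ) 1) ∧ b ∈ Metric.ball (0 : ℂ) 1 ∧
      (0 : ℂ) ∉ Z ∧ b ∉ Z ∧ EZat α Z b) : SP (α + 2) := by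
  classical
  intro S c hS hsym horth x₁
  have hp := Real.pi_pos
  have hg : 0 < α + 2 := by linarith
  have hS' : ∀ a ∈ S, |a.im| < Real.pi / 2 := fun a ha => (hS a ha).2
  have hreal : ∀ x : ℝ, |((x : ℂ)).im| < Real.pi / 2 := fun x => by
    rw [Complex.ofReal_im, abs_zero]; linarith
  by_contra hneg
  push Not at hneg
  have h2pi : (2 * (Real.pi : ℂ)) ≠ 0 := by
    have : (Real.pi : ℂ) ≠ 0 := by exact_mod_cast hp.ne'
    simpa using this
  have hF : ∀ b ∈ S, FF (α + 2) S c b = 0 := by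
    intro b hb
    have h1 := horth b hb
    rw [psi_eq hg c (hS' b hb) hS'] at h1
    exact (mul_eq_zero.mp h1).resolve_left h2pi
  have hx1 : (FF (α + 2) S c x₁).re < 0 := by
    rw [psi_eq hg c (hreal x₁) hS', show (2 * (Real.pi : ℂ) * FF (α + 2) S c x₁) =
      ((2 * Real.pi : ℝ) : ℂ) * FF (α + 2) S c x₁ by push_cast; ring, Complex.re_ofReal_mul] at hneg
    by_contra hcon
    push Not at hcon
    have := mul_nonneg (by positivity : (0 : ℝ) ≤ 2 * Real.pi) hcon
    linarith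
  -- symmetrisation
  set c' : ℂ → ℂ := fun a => (c a + (starRingEnd ℂ) (c ((starRingEnd ℂ) a))) / 2 with hc'
  have hsymF : ∀ t : ℂ, |t.im| < Real.pi / 2 → FF (α + 2) S c' t =
      (FF (α + 2) S c t + (starRingEnd ℂ) (FF (α + 2) S c ((starRingEnd ℂ) t))) / 2 := by
    intro t ht
    have ht' : |((starRingEnd ℂ) t).im| < Real.pi := by
      rw [Complex.conj_im, abs_neg]; linarith
    have k1 : (starRingEnd ℂ) (ksech (α + 2) ((starRingEnd ℂ) t)) = ksech (α + 2) t := by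
      rw [← ksech_conj _ ht', Complex.conj_conj]
    have k2 : (starRingEnd ℂ) (∑ a ∈ S, c a * ksech (α + 2) ((starRingEnd ℂ) t - (starRingEnd ℂ) a)) =
        ∑ a ∈ S, (starRingEnd ℂ) (c ((starRingEnd ℂ) a)) * ksech (α + 2) (t - (starRingEnd ℂ) a) := by
      rw [map_sum]
      refine Finset.sum_nbij' (fun a => (starRingEnd ℂ) a) (fun a => (starRingEnd ℂ) a)
        (fun a ha => hsym a ha) (fun a ha => hsym a ha) (fun a _ => Complex.conj_conj a)
        (fun a _ => Complex.conj_conj a) ?_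
      intro a ha
      have ha' : |((starRingEnd ℂ) t - (starRingEnd ℂ) a).im| < Real.pi := by
        apply im_sub_conj _ (hS' a ha)
        rw [Complex.conj_im, abs_neg]; exact ht
      rw [map_mul, ← ksech_conj _ ha', map_sub, Complex.conj_conj, Complex.conj_conj]
    rw [FF, FF, FF, map_sub, k1, k2]
    have k3 : ∑ a ∈ S, c' a * ksech (α + 2) (t - (starRingEnd ℂ) a) =
        (∑ a ∈ S, c a * ksech (α + 2) (t - (starRingEnd ℂ) a) +
          ∑ a ∈ S, (starRingEnd ℂ) (c ((starRingEnd ℂ) a)) * ksech (α + 2) (t - (starRingEnd ℂ) a)) / 2 := by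
      rw [← Finset.sum_add_distrib, Finset.sum_div]
      apply Finset.sum_congr rfl
      intro a _
      rw [hc']
      ring
    rw [k3]
    ring
  have hF' : ∀ b ∈ S, FF (α + 2) S c' b = 0 := by
    intro b hb
    rw [hsymF b (hS' b hb), hF b hb, hF _ (hsym b hb)]
    simp
  have hre : ∀ x : ℝ, FF (α + 2) S c' x = (((FF (α + 2) S c x).re : ℝ) : ℂ) := by
    intro x
    rw [hsymF x (hreal x), Complex.conj_ofReal, Complex.add_conj]
    push_cast
    ring
  have hcont : Continuous fun x : ℝ => (FF (α + 2) S c' x).re := by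
    apply Complex.continuous_re.comp
    unfold FF
    refine Continuous.sub ?_ (continuous_finset_sum _ fun a ha => continuous_const.mul ?_)
    · rw [continuous_iff_continuousAt]
      intro x
      have h1 : ContinuousAt (ksech (α + 2)) (x : ℂ) :=
        (ksech_diff (α + 2) (by have := hreal x; linarith)).continuousAt
      exact ContinuousAt.comp (f := fun x : ℝ => (x : ℂ)) h1 Complex.continuous_ofReal.continuousAt
    · rw [continuous_iff_continuousAt]
      intro x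
      have h1 : ContinuousAt (ksech (α + 2)) ((x : ℂ) - (starRingEnd ℂ) a) :=
        (ksech_diff (α + 2) (im_sub_conj (hreal x) (hS' a ha))).continuousAt
      exact ContinuousAt.comp (f := fun x : ℝ => (x : ℂ) - (starRingEnd ℂ) a) h1
        (Complex.continuous_ofReal.sub continuous_const).continuousAt
  have hpos0 : 0 ≤ (FF (α + 2) S c' ((0 : ℝ) : ℂ)).re := by
    rw [Complex.ofReal_zero]
    exact FF_nonneg hg c' hS' hF'
  have hneg1 : (FF (α + 2) S c' (x₁ : ℂ)).re ≤ 0 := by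
    rw [hre x₁, Complex.ofReal_re]; exact hx1.le
  obtain ⟨x₀, hx₀⟩ := mem_range_of_exists_le_of_exists_ge hcont ⟨x₁, hneg1⟩ ⟨0, hpos0⟩
  have hx₀' : FF (α + 2) S c' (x₀ : ℂ) = 0 := by
    have h1 := hre x₀
    simp only at hx₀
    rw [h1, Complex.ofReal_re] at hx₀
    rw [h1, hx₀, Complex.ofReal_zero]
  -- translation
  have hCC : ∀ s : ℂ, CC (α + 2) s ≠ 0 := fun s => Complex.exp_ne_zero _
  set p : ℂ → ℂ := fun a => th (a - x₀) with hpdef
  set b : ℂ := th (-(x₀ : ℂ)) with hbdef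
  set c'' : ℂ → ℂ := fun a => -(c' a) * ((starRingEnd ℂ) (CC (α + 2) (-(x₀ : ℂ))) /
    (starRingEnd ℂ) (CC (α + 2) (a - x₀))) with hc''
  have himx : ∀ t : ℂ, (t - x₀).im = t.im := fun t => by
    rw [Complex.sub_im, Complex.ofReal_im, sub_zero]
  have hkey : ∀ t : ℂ, |t.im| < Real.pi / 2 →
      kern α b (th t) + ∑ a ∈ S, c'' a * kern α (p a) (th t) =
        Complex.exp (-((α : ℂ) + 2) * Real.log 2) * CC (α + 2) t *
          (starRingEnd ℂ) (CC (α + 2) (-(x₀ : ℂ))) * FF (α + 2) S c' (t + x₀) := by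
    intro t ht
    have h1 : |(-(x₀ : ℂ)).im| < Real.pi / 2 := by
      rw [Complex.neg_im, Complex.ofReal_im, neg_zero, abs_zero]; linarith
    rw [hbdef, kern_th h1 ht, map_neg, Complex.conj_ofReal, sub_neg_eq_add, FF]
    have h2 : ∑ a ∈ S, c'' a * kern α (p a) (th t) =
        -(Complex.exp (-((α : ℂ) + 2) * Real.log 2) * CC (α + 2) t *
          (starRingEnd ℂ) (CC (α + 2) (-(x₀ : ℂ))) *
            ∑ a ∈ S, c' a * ksech (α + 2) (t + x₀ - (starRingEnd ℂ) a)) := by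
      rw [Finset.mul_sum, ← Finset.sum_neg_distrib]
      apply Finset.sum_congr rfl
      intro a ha
      have h3 : |(a - (x₀ : ℂ)).im| < Real.pi / 2 := by rw [himx]; exact hS' a ha
      have h4 : (starRingEnd ℂ) (CC (α + 2) (a - x₀)) ≠ 0 := by
        rw [Ne, map_eq_zero]; exact hCC _
      rw [hpdef, hc'']
      simp only
      rw [kern_th h3 ht, map_sub, Complex.conj_ofReal,
        show t - ((starRingEnd ℂ) a - x₀) = t + x₀ - (starRingEnd ℂ) a by ring]
      field_simp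
    rw [h2]
    ring
  apply hno
  refine ⟨S.image p, b, ?_, ?_, ?_, ?_, S, p, c'', ?_, ?_, ?_⟩
  · intro z hz
    obtain ⟨a, ha, rfl⟩ := Finset.mem_image.mp hz
    exact th_mem (by rw [himx]; exact hS' a ha)
  · apply th_mem
    rw [Complex.neg_im, Complex.ofReal_im, neg_zero, abs_zero]; linarith
  · intro hz
    obtain ⟨a, ha, h1⟩ := Finset.mem_image.mp hz
    have h2 := th_im (t := a - x₀) (by rw [himx]; exact (hS a ha).1) (by rw [himx]; exact (hS a ha).2)
    apply h2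
    have h3 : th (a - x₀) = 0 := h1
    rw [h3, Complex.zero_im]
  · intro hz
    obtain ⟨a, ha, h1⟩ := Finset.mem_image.mp hz
    have h2 := th_im (t := a - x₀) (by rw [himx]; exact (hS a ha).1) (by rw [himx]; exact (hS a ha).2)
    apply h2
    have h3 : th (a - x₀) = b := h1
    have h4 := th_real (-x₀)
    rw [h3, hbdef]
    rw [Complex.ofReal_neg] at h4
    exact h4
  · intro a ha
    exact Finset.mem_image_of_mem p ha
  · have h1 := hkey 0 (by rw [Complex.zero_im, abs_zero]; linarith)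
    rw [th_zero, zero_add, hx₀', mul_zero] at h1
    exact h1
  · intro z hz
    obtain ⟨a, ha, rfl⟩ := Finset.mem_image.mp hz
    have h1 := hkey (a - x₀) (by rw [himx]; exact hS' a ha)
    rw [sub_add_cancel, hF' a ha, mul_zero] at h1
    exact h1

end Pool.Agent.Lib.MP_70ee11_an.EZ
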