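import Mathlib
import Pool.Agent.Lib.MP_70ee11_an.Final
import Pool.Agent.Lib.MP_70ee11_an.EZ.Link

/-!
Module Disc. FINITE ZERO SETS: an extraneous zero kills the wandering subspace property.
(adaptation of Final.lean; helper54 does this one)
-/

set_option linter.style.longLine false

open MeasureTheory Set Filter Topology Metric

namespace Pool.Agent.Lib.MP_70ee11_an.EZ

variable {α : ℝ} (hα : 0 < α)

/-- functions vanishing on `Z` -/
noncomputable def VZ (α : ℝ) (Z : Finset ℂ) : Submodule ℂ (Lp ℂ 2 (mu α)) where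
  carrier := {f | ∃ g : ℂ → ℂ, DifferentiableOn ℂ g (ball (0:ℂ) 1) ∧ (f : ℂ → ℂ) =ᵐ[mu α] g ∧ ∀ a ∈ Z, g a = 0}
  add_mem' := by
    rintro f f' ⟨g, h1, h2, h3⟩ ⟨g', h1', h2', h3'⟩
    refine ⟨fun z => g z + g' z, h1.add h1', ?_, fun a ha => by simp [h3 a ha, h3' a ha]⟩
    filter_upwards [Lp.coeFn_add f f', h2, h2'] with z e1 e2 e3
    rw [e1, Pi.add_apply, e2, e3]
  zero_mem' := by
    refine ⟨fun _ => 0, differentiableOn_const _, ?_, fun _ _ => rfl⟩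
    filter_upwards [Lp.coeFn_zero ℂ 2 (mu α)] with z e1
    rw [e1]; rfl
  smul_mem' := by
    rintro c f ⟨g, h1, h2, h3⟩
    refine ⟨fun z => c * g z, h1.const_mul c, ?_, fun a ha => by simp [h3 a ha]⟩
    filter_upwards [Lp.coeFn_smul c f, h2] with z e1 e2
    rw [e1, Pi.smul_apply, e2, smul_eq_mul]

theorem VZ_closed (hα : 0 < α) {Z : Finset ℂ} (hZ : ∀ a ∈ Z, a ∈ ball (0:ℂ) 1) :
    IsClosed (VZ α Z : Set (Lp ℂ 2 (mu α))) := by
  apply IsSeqClosed.isClosed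
  intro F f hF hlim
  have h1 : ∀ n, ∃ g : ℂ → ℂ, DifferentiableOn ℂ g (ball (0:ℂ) 1) ∧ (F n : ℂ → ℂ) =ᵐ[mu α] g ∧ ∀ a ∈ Z, g a = 0 :=
    fun n => hF n
  choose g hg hFg hga using h1
  obtain ⟨G, hG, hfG, hpt⟩ := limit_holo hα hlim hg hFg
  refine ⟨G, hG, hfG, fun a ha => ?_⟩
  have h2 := hpt a (hZ a ha)
  have h3 : (fun n => g n a) = fun _ => 0 := funext fun n => hga n a ha
  rw [h3] at h2
  exact (tendsto_nhds_unique h2 tendsto_const_nhds)

theorem VZ_mul_z {Z : Finset ℂ} {f : Lp ℂ 2 (mu α)} (hf : f ∈ VZ α Z) :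
    ∃ g ∈ VZ α Z, (g : ℂ → ℂ) =ᵐ[mu α] fun z => z * f z := by
  have h1 : MemLp (fun z => z * (f : ℂ → ℂ) z) 2 (mu α) := by
    apply (Lp.memLp f).of_le
    · exact measurable_id.aestronglyMeasurable.mul (Lp.memLp f).aestronglyMeasurable
    · filter_upwards [ae_mem_ball] with z hz
      rw [norm_mul]
      have := (mem_ball_zero_iff.mp hz).le
      nlinarith [norm_nonneg ((f : ℂ → ℂ) z)]
  obtain ⟨g, hg1, hg2, hg3⟩ := hf
  refine ⟨h1.toLp _, ⟨fun z => z * g z, differentiableOn_id.mul hg1, ?_, fun a ha => by simp [hg3 a ha]⟩,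
    h1.coeFn_toLp⟩
  filter_upwards [h1.coeFn_toLp, hg2] with z e1 e2
  rw [e1, e2]

/-- holomorphic representatives are unique on the ball -/
theorem repr_eq (hα : 0 < α) {w : Lp ℂ 2 (mu α)} {G G' : ℂ → ℂ} (hG : DifferentiableOn ℂ G (ball (0:ℂ) 1))
    (hwG : (w : ℂ → ℂ) =ᵐ[mu α] G) (hG' : DifferentiableOn ℂ G' (ball (0:ℂ) 1))
    (hwG' : (w : ℂ → ℂ) =ᵐ[mu α] G') {b : ℂ} (hb : b ∈ ball (0:ℂ) 1) : G b = G' b := by
  have hm := mu_pos hα
  have hmc : ((mu α).real univ : ℂ) ≠ 0 := by exact_mod_cast hm.ne'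
  have h1 := inner_kLp hα hb w hG hwG
  have h2 := inner_kLp hα hb w hG' hwG'
  rw [h1] at h2
  exact mul_left_cancel₀ hmc h2

theorem VZ_wander (hα : 0 < α) {Z : Finset ℂ} {b : ℂ} (hZ : ∀ a ∈ Z, a ∈ ball (0:ℂ) 1) (hb : b ∈ ball (0:ℂ) 1)
    (h0 : (0 : ℂ) ∉ Z) (hEZ : EZat α Z b) {w : Lp ℂ 2 (mu α)} (hw : w ∈ VZ α Z)
    (horth : ∀ f ∈ VZ α Z, ∀ g ∈ VZ α Z, (g : ℂ → ℂ) =ᵐ[mu α] (fun z => z * f z) → inner ℂ g w = 0)
    {G : ℂ → ℂ} (hG : DifferentiableOn ℂ G (ball (0:ℂ) 1)) (hwG : (w : ℂ → ℂ) =ᵐ[mu α] G) : G b = 0 := by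
  classical
  obtain ⟨S, p, c, hp, hz0, hzZ⟩ := hEZ
  have hfin := mu_finite hα
  have hm := mu_pos hα
  have hmc : ((mu α).real univ : ℂ) ≠ 0 := by exact_mod_cast hm.ne'
  have hpb : ∀ a ∈ S, p a ∈ ball (0:ℂ) 1 := fun a ha => hZ _ (hp a ha)
  set h : ℂ → ℂ := fun z => kern α b z + ∑ a ∈ S, c a * kern α (p a) z with hh
  have hhd : ∀ z, ‖z‖ ≤ 1 → DifferentiableAt ℂ h z := by
    intro z hz
    apply (differentiableAt_kern α hb hz).add
    exact DifferentiableAt.fun_sum fun a ha => (differentiableAt_kern α (hpb a ha) hz).const_mul _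
  have hhball : DifferentiableOn ℂ h (ball (0:ℂ) 1) := fun z hz => (hhd z (mem_ball_zero_iff.mp hz).le).differentiableWithinAt
  have hh0 : h 0 = 0 := hz0
  set f0 : ℂ → ℂ := dslope h 0 with hf0
  have hmem0 : ball (0:ℂ) 1 ∈ 𝓝 (0:ℂ) := isOpen_ball.mem_nhds (mem_ball_self one_pos)
  have hmem0' : closedBall (0:ℂ) 1 ∈ 𝓝 (0:ℂ) := closedBall_mem_nhds _ one_pos
  have hf0d : DifferentiableOn ℂ f0 (ball (0:ℂ) 1) := (Complex.differentiableOn_dslope hmem0).mpr hhball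
  have hf0c : ContinuousOn f0 (closedBall (0:ℂ) 1) := by
    rw [hf0, continuousOn_dslope hmem0']
    refine ⟨fun z hz => (hhd z (by simpa using hz)).continuousAt.continuousWithinAt, hhd 0 (by simp)⟩
  obtain ⟨C, hC⟩ := (isCompact_closedBall (0:ℂ) 1).exists_bound_of_continuousOn hf0c
  have hf0m : MemLp f0 2 (mu α) := bounded_memLp hfin hf0d (fun z hz => hC z (ball_subset_closedBall hz))
  have hf0a : ∀ a ∈ Z, f0 a = 0 := by
    intro a ha
    have ha0 : a ≠ 0 := fun h => h0 (h ▸ ha)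
    have h1 := sub_smul_dslope h 0 a
    have hha : h a = 0 := hzZ a ha
    rw [hh0, hha, sub_zero, sub_zero, smul_eq_mul] at h1
    exact (mul_eq_zero.mp h1).resolve_left ha0
  have hF0 : hf0m.toLp f0 ∈ VZ α Z := ⟨f0, hf0d, hf0m.coeFn_toLp, hf0a⟩
  let K : ℂ → Lp ℂ 2 (mu α) := fun d => if hd : d ∈ ball (0:ℂ) 1 then kLp hα hd else 0
  have hK : ∀ d (hd : d ∈ ball (0:ℂ) 1), K d = kLp hα hd := fun d hd => by simp only [K, dif_pos hd]
  have hKc : ∀ d (hd : d ∈ ball (0:ℂ) 1), (K d : ℂ → ℂ) =ᵐ[mu α] kern α d := fun d hd => by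
    rw [hK d hd]; exact (memLp_kern hα hd).coeFn_toLp
  set H : Lp ℂ 2 (mu α) := K b + ∑ a ∈ S, c a • K (p a) with hHdef
  have hHh : (H : ℂ → ℂ) =ᵐ[mu α] h := by
    have hsum : ∀ S' : Finset ℂ, (∀ a ∈ S', p a ∈ ball (0:ℂ) 1) →
        ((∑ a ∈ S', c a • K (p a) : Lp ℂ 2 (mu α)) : ℂ → ℂ) =ᵐ[mu α] fun z => ∑ a ∈ S', c a * kern α (p a) z := by
      intro S'
      induction S' using Finset.induction_on with
      | empty =>
        intro _
        simp only [Finset.sum_empty]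
        exact Lp.coeFn_zero ℂ 2 (mu α)
      | insert a S' ha ih =>
        intro hS'
        rw [Finset.sum_insert ha]
        filter_upwards [Lp.coeFn_add (c a • K (p a)) (∑ a ∈ S', c a • K (p a)), Lp.coeFn_smul (c a) (K (p a)),
          hKc (p a) (hS' a (Finset.mem_insert_self a S')), ih (fun x hx => hS' x (Finset.mem_insert_of_mem hx))] with z e1 e2 e3 e4
        rw [e1, Pi.add_apply, e2, Pi.smul_apply, e3, e4, Finset.sum_insert ha, smul_eq_mul]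
    rw [hHdef]
    filter_upwards [Lp.coeFn_add (K b) (∑ a ∈ S, c a • K (p a)), hKc b hb, hsum S hpb] with z e1 e2 e3
    rw [e1, Pi.add_apply, e2, e3]
  have hHV : H ∈ VZ α Z := ⟨h, hhball, hHh, hzZ⟩
  have hHz : (H : ℂ → ℂ) =ᵐ[mu α] fun z => z * (hf0m.toLp f0 : ℂ → ℂ) z := by
    filter_upwards [hHh, hf0m.coeFn_toLp] with z e1 e2
    rw [e1, e2]
    have h1 := sub_smul_dslope h 0 z
    rw [hh0, sub_zero, sub_zero, smul_eq_mul] at h1
    exact h1.symm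
  obtain ⟨gw, hgw1, hgw2, hgw3⟩ := hw
  have h1 : inner ℂ H w = 0 := horth _ hF0 H ⟨h, hhball, hHh, hzZ⟩ hHz
  rw [hHdef, inner_add_left, sum_inner, hK b hb, inner_kLp hα hb w hgw1 hgw2] at h1
  have h2 : ∑ a ∈ S, inner ℂ (c a • K (p a)) w = 0 := by
    apply Finset.sum_eq_zero
    intro a ha
    rw [inner_smul_left, hK _ (hpb a ha), inner_kLp hα (hpb a ha) w hgw1 hgw2, hgw3 _ (hp a ha), mul_zero, mul_zero]
  rw [h2, add_zero] at h1
  rw [repr_eq hα hG hwG hgw1 hgw2 hb]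
  exact (mul_eq_zero.mp h1).resolve_left hmc

theorem VZ_not_generated (hα : 0 < α) {Z : Finset ℂ} {b : ℂ} (hZ : ∀ a ∈ Z, a ∈ ball (0:ℂ) 1) (hb : b ∈ ball (0:ℂ) 1)
    (h0 : (0 : ℂ) ∉ Z) (hbZ : b ∉ Z) (hEZ : EZat α Z b) :
    ¬ (VZ α Z ≤ (Submodule.span ℂ {h : Lp ℂ 2 (mu α) | ∃ p : Polynomial ℂ, ∃ w ∈ VZ α Z,
                (∀ f ∈ VZ α Z, ∀ g ∈ VZ α Z,
                    (g : ℂ → ℂ) =ᵐ[mu α] (fun z => z * f z) → inner ℂ g w = 0) ∧
                (h : ℂ → ℂ) =ᵐ[mu α] fun z => p.eval z * w z}).topologicalClosure) := by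
  intro hle
  have hfin := mu_finite hα
  have hm := mu_pos hα
  have hmc : ((mu α).real univ : ℂ) ≠ 0 := by exact_mod_cast hm.ne'
  have hspan : Submodule.span ℂ {h : Lp ℂ 2 (mu α) | ∃ p : Polynomial ℂ, ∃ w ∈ VZ α Z,
                (∀ f ∈ VZ α Z, ∀ g ∈ VZ α Z,
                    (g : ℂ → ℂ) =ᵐ[mu α] (fun z => z * f z) → inner ℂ g w = 0) ∧
                (h : ℂ → ℂ) =ᵐ[mu α] fun z => p.eval z * w z} ≤ (ℂ ∙ (kLp hα hb))ᗮ := by
    rw [Submodule.span_le]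
    rintro u ⟨p, w, hw, horth, hu⟩
    obtain ⟨gw, hgw1, hgw2, hgw3⟩ := hw
    have h2 : gw b = 0 := VZ_wander hα hZ hb h0 hEZ ⟨gw, hgw1, hgw2, hgw3⟩ horth hgw1 hgw2
    rw [SetLike.mem_coe, Submodule.mem_orthogonal_singleton_iff_inner_right]
    have h3 : DifferentiableOn ℂ (fun z => p.eval z * gw z) (ball (0:ℂ) 1) :=
      p.differentiable.differentiableOn.mul hgw1
    have h4 : (u : ℂ → ℂ) =ᵐ[mu α] fun z => p.eval z * gw z := by
      filter_upwards [hu, hgw2] with z e1 e2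
      rw [e1, e2]
    rw [inner_kLp hα hb u h3 h4]
    simp only [h2, mul_zero]
  have hclos : (Submodule.span ℂ {h : Lp ℂ 2 (mu α) | ∃ p : Polynomial ℂ, ∃ w ∈ VZ α Z,
                (∀ f ∈ VZ α Z, ∀ g ∈ VZ α Z,
                    (g : ℂ → ℂ) =ᵐ[mu α] (fun z => z * f z) → inner ℂ g w = 0) ∧
                (h : ℂ → ℂ) =ᵐ[mu α] fun z => p.eval z * w z}).topologicalClosure ≤ (ℂ ∙ (kLp hα hb))ᗮ :=
    Submodule.topologicalClosure_minimal _ hspan (Submodule.isClosed_orthogonal _)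
  -- the test function ∏ (z - a)
  have hPd : Differentiable ℂ (fun z : ℂ => ∏ a ∈ Z, (z - a)) := by
    apply Differentiable.fun_finsetProd
    intro a _
    fun_prop
  have htest : MemLp (fun z : ℂ => ∏ a ∈ Z, (z - a)) 2 (mu α) := by
    apply bounded_memLp hfin (C := 2 ^ Z.card) hPd.differentiableOn
    intro z hz
    rw [norm_prod]
    calc ∏ a ∈ Z, ‖z - a‖ ≤ ∏ a ∈ Z, (2:ℝ) := by
          apply Finset.prod_le_prod (fun _ _ => norm_nonneg _)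
          intro a ha
          have h1 := (mem_ball_zero_iff.mp hz).le
          have h2 := (mem_ball_zero_iff.mp (hZ a ha)).le
          calc ‖z - a‖ ≤ ‖z‖ + ‖a‖ := norm_sub_le _ _
            _ ≤ 2 := by linarith
      _ = 2 ^ Z.card := by rw [Finset.prod_const]
  have htV : htest.toLp _ ∈ VZ α Z := ⟨fun z => ∏ a ∈ Z, (z - a), hPd.differentiableOn, htest.coeFn_toLp,
    fun a ha => Finset.prod_eq_zero ha (sub_self a)⟩
  have h5 := hclos (hle htV)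
  rw [Submodule.mem_orthogonal_singleton_iff_inner_right,
    inner_kLp hα hb _ (g := fun z => ∏ a ∈ Z, (z - a)) hPd.differentiableOn htest.coeFn_toLp] at h5
  have h6 := (mul_eq_zero.mp h5).resolve_left hmc
  rw [Finset.prod_eq_zero_iff] at h6
  obtain ⟨a, ha, hab⟩ := h6
  rw [sub_eq_zero] at hab
  exact hbZ (hab ▸ ha)

end Pool.Agent.Lib.MP_70ee11_an.EZ
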