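import Mathlib
import Pool.Agent.Lib.MP_70ee11_an.EZ.Defs
import Pool.Agent.Lib.MP_70ee11_an.EZ.Gam2

/-!
Module FinA. THE FUNCTION m AND THE CHOICE OF c.

m(s) = Γ(g) (Γ(g/2+s))⁻¹ (Γ(g/2-s))⁻¹ + c cos(πs).

PROOF.
* mm_diff: `Complex.differentiable_one_div_Gamma` ((Gamma s)⁻¹ is entire), composition with affine maps, cos entire.
* mm_neg: even.
* mm_I: for real τ: Γ(g/2+iτ)Γ(g/2-iτ) = |Γ(g/2+iτ)|² (`Complex.Gamma_conj`), cos(πiτ) = cosh(πτ) (`Complex.cos_mul_I`).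
* mm_real: for real s everything is real (`Complex.Gamma_ofReal`).
* exists_c (g > 3): for real s ∈ [0,3/2], ψ(s) := Γ(g)/(Γ(g/2+s)Γ(g/2-s)) (Real.Gamma) is positive and continuous
  (g/2 - s > 0). Let M = max over s ∈ [1/2,3/2] of the continuous function -cos(πs)/ψ(s), attained at κ; M ≥ 1/ψ(1) > 0.
  Let ε = min(1/2, ψ(3/2)/(2ψ(κ))) ∈ (0,1) and c = (1-ε)/M > 0. Then for s ∈ [1/2,3/2]:
  m(s) = ψ(s)(1 - c(-cos(πs)/ψ(s))) ≥ ψ(s)(1 - cM) = εψ(s) > 0; for s ∈ [0,1/2]: cos(πs) ≥ 0, m(s) ≥ ψ(s) > 0.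
  m(κ) = ψ(κ)(1 - cM) = εψ(κ) ≤ ψ(3/2)/2 < ψ(3/2) = m(3/2), since cos(3π/2) = 0.
* phi_*: φ = 1/(1/W + c cosh) is continuous, 0 < φ ≤ W, even, integrable (`W_integrable` with q = 0).
-/

set_option linter.style.longLine false

open MeasureTheory Set Filter Topology

namespace Pool.Agent.Lib.MP_70ee11_an.EZ

theorem mm_diff (g c : ℝ) : Differentiable ℂ (mm g c) := by
  have h0 := Complex.differentiable_one_div_Gamma
  have h1 : Differentiable ℂ (fun s : ℂ => (Complex.Gamma (((g / 2 : ℝ) : ℂ) + s))⁻¹) :=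
    h0.comp (f := fun s : ℂ => ((g / 2 : ℝ) : ℂ) + s) (by fun_prop)
  have h2 : Differentiable ℂ (fun s : ℂ => (Complex.Gamma (((g / 2 : ℝ) : ℂ) - s))⁻¹) :=
    h0.comp (f := fun s : ℂ => ((g / 2 : ℝ) : ℂ) - s) (by fun_prop)
  have h3 : Differentiable ℂ (fun s : ℂ => (c : ℂ) * Complex.cos (Real.pi * s)) := by
    fun_prop
  exact (((differentiable_const _).mul h1).mul h2).add h3

theorem mm_neg (g c : ℝ) (s : ℂ) : mm g c (-s) = mm g c s := by
  unfold mm
  rw [mul_neg, Complex.cos_neg, sub_neg_eq_add, ← sub_eq_add_neg]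
  ring

theorem mm_I {g : ℝ} (hg : 0 < g) (c τ : ℝ) :
    mm g c ((τ : ℂ) * Complex.I) = ((1 / W g τ + c * Real.cosh (Real.pi * τ) : ℝ) : ℂ) := by
  unfold mm W
  have e1 : (((g / 2 : ℝ) : ℂ) - (τ : ℂ) * Complex.I) =
      (starRingEnd ℂ) (((g / 2 : ℝ) : ℂ) + (τ : ℂ) * Complex.I) := by
    rw [map_add, map_mul, Complex.conj_ofReal, Complex.conj_ofReal, Complex.conj_I, mul_neg,
      sub_eq_add_neg]
  have e2 : Complex.Gamma (((g / 2 : ℝ) : ℂ) - (τ : ℂ) * Complex.I) =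
      (starRingEnd ℂ) (Complex.Gamma (((g / 2 : ℝ) : ℂ) + (τ : ℂ) * Complex.I)) := by
    rw [e1, Complex.Gamma_conj]
  have e3 : Complex.cos ((Real.pi : ℂ) * ((τ : ℂ) * Complex.I)) =
      ((Real.cosh (Real.pi * τ) : ℝ) : ℂ) := by
    rw [← mul_assoc, Complex.cos_mul_I]
    push_cast
    rfl
  rw [e2, e3]
  obtain ⟨z, hz⟩ : ∃ z : ℂ, z = Complex.Gamma (((g / 2 : ℝ) : ℂ) + (τ : ℂ) * Complex.I) :=
    ⟨_, rfl⟩
  rw [← hz]
  have e4 : Complex.Gamma (g : ℂ) = ((Real.Gamma g : ℝ) : ℂ) := Complex.Gamma_ofReal g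
  rw [e4, mul_assoc, ← mul_inv, Complex.mul_conj, Complex.normSq_eq_norm_sq]
  push_cast
  rw [one_div_div]
  simp only [div_eq_mul_inv]

/-- the real function `ψ` -/
private noncomputable def psi (g s : ℝ) : ℝ :=
  Real.Gamma g * (Real.Gamma (g / 2 + s))⁻¹ * (Real.Gamma (g / 2 - s))⁻¹

private theorem mm_ofReal (g c s : ℝ) :
    mm g c (s : ℂ) = ((psi g s + c * Real.cos (Real.pi * s) : ℝ) : ℂ) := by
  unfold mm psi
  have e1 : Complex.Gamma (g : ℂ) = ((Real.Gamma g : ℝ) : ℂ) := Complex.Gamma_ofReal g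
  have e2 : Complex.Gamma (((g / 2 : ℝ) : ℂ) + (s : ℂ)) = ((Real.Gamma (g / 2 + s) : ℝ) : ℂ) := by
    rw [← Complex.Gamma_ofReal]
    push_cast
    rfl
  have e3 : Complex.Gamma (((g / 2 : ℝ) : ℂ) - (s : ℂ)) = ((Real.Gamma (g / 2 - s) : ℝ) : ℂ) := by
    rw [← Complex.Gamma_ofReal]
    push_cast
    rfl
  rw [e1, e2, e3]
  push_cast
  rfl

private theorem psi_pos {g s : ℝ} (hg : 3 < g) (h0 : 0 ≤ s) (h1 : s ≤ 3 / 2) : 0 < psi g s := by
  unfold psi
  have a1 : 0 < Real.Gamma g := Real.Gamma_pos_of_pos (by linarith)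
  have a2 : 0 < Real.Gamma (g / 2 + s) := Real.Gamma_pos_of_pos (by linarith)
  have a3 : 0 < Real.Gamma (g / 2 - s) := Real.Gamma_pos_of_pos (by linarith)
  positivity

private theorem gamma_contAt {x : ℝ} (hx : 0 < x) : ContinuousAt Real.Gamma x := by
  refine (Real.differentiableAt_Gamma fun m => ?_).continuousAt
  intro h
  have : (0 : ℝ) ≤ m := Nat.cast_nonneg m
  linarith

private theorem psi_contOn {g : ℝ} (hg : 3 < g) : ContinuousOn (psi g) (Icc 0 (3 / 2)) := by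
  intro s hs
  apply ContinuousAt.continuousWithinAt
  have a2 : 0 < Real.Gamma (g / 2 + s) := Real.Gamma_pos_of_pos (by linarith [hs.1])
  have a3 : 0 < Real.Gamma (g / 2 - s) := Real.Gamma_pos_of_pos (by linarith [hs.2])
  have b2 : ContinuousAt (fun s : ℝ => Real.Gamma (g / 2 + s)) s :=
    ContinuousAt.comp (f := fun s : ℝ => g / 2 + s) (gamma_contAt (by linarith [hs.1]))
      (by fun_prop)
  have b3 : ContinuousAt (fun s : ℝ => Real.Gamma (g / 2 - s)) s :=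
    ContinuousAt.comp (f := fun s : ℝ => g / 2 - s) (gamma_contAt (by linarith [hs.2]))
      (by fun_prop)
  exact (continuousAt_const.mul (b2.inv₀ a2.ne')).mul (b3.inv₀ a3.ne')

theorem exists_c {g : ℝ} (hg : 3 < g) : ∃ c : ℝ, 0 < c ∧ (∀ s : ℝ, 0 ≤ s → s ≤ 3 / 2 → (mm g c s).im = 0 ∧ 0 < (mm g c s).re) ∧
    ∃ κ : ℝ, 0 ≤ κ ∧ κ ≤ 3 / 2 ∧ (mm g c κ).re < (mm g c ((3 / 2 : ℝ) : ℂ)).re := by
  have hpi := Real.pi_pos
  have hψ : ∀ s : ℝ, 0 ≤ s → s ≤ 3 / 2 → 0 < psi g s := fun s h0 h1 => psi_pos hg h0 h1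
  have hcont : ContinuousOn (fun s => -Real.cos (Real.pi * s) / psi g s) (Icc (1 / 2) (3 / 2)) := by
    refine ContinuousOn.div (by fun_prop)
      ((psi_contOn hg).mono (Icc_subset_Icc (by norm_num) le_rfl)) ?_
    intro s hs
    exact (hψ s (by linarith [hs.1]) hs.2).ne'
  obtain ⟨κ, hκ, hmax⟩ := isCompact_Icc.exists_isMaxOn (s := Icc (1 / 2 : ℝ) (3 / 2))
    ⟨1, by norm_num, by norm_num⟩ hcont
  have hκ0 : 0 ≤ κ := by linarith [hκ.1]
  have hψκ := hψ κ hκ0 hκ.2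
  have hψ1 := hψ 1 (by norm_num) (by norm_num)
  have hψ3 := hψ (3 / 2) (by norm_num) le_rfl
  obtain ⟨M, hM⟩ : ∃ M : ℝ, M = -Real.cos (Real.pi * κ) / psi g κ := ⟨_, rfl⟩
  have hMle : ∀ s ∈ Icc (1 / 2 : ℝ) (3 / 2), -Real.cos (Real.pi * s) ≤ M * psi g s := by
    intro s hs
    have h1 : -Real.cos (Real.pi * s) / psi g s ≤ -Real.cos (Real.pi * κ) / psi g κ := hmax hs
    rw [← hM, div_le_iff₀ (hψ s (by linarith [hs.1]) hs.2)] at h1
    exact h1
  have hM0 : 0 < M := by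
    have h1 := hMle 1 ⟨by norm_num, by norm_num⟩
    rw [mul_one, Real.cos_pi, neg_neg] at h1
    by_contra hcon
    rw [not_lt] at hcon
    have : M * psi g 1 ≤ 0 := mul_nonpos_of_nonpos_of_nonneg hcon hψ1.le
    linarith
  obtain ⟨ε, hε⟩ : ∃ ε : ℝ, ε = min (1 / 2) (psi g (3 / 2) / (2 * psi g κ)) := ⟨_, rfl⟩
  have hε0 : 0 < ε := by rw [hε]; exact lt_min (by norm_num) (by positivity)
  have hε1 : ε ≤ 1 / 2 := by rw [hε]; exact min_le_left _ _
  have hε2 : ε * psi g κ ≤ psi g (3 / 2) / 2 := by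
    have h1 : ε ≤ psi g (3 / 2) / (2 * psi g κ) := by rw [hε]; exact min_le_right _ _
    calc ε * psi g κ ≤ psi g (3 / 2) / (2 * psi g κ) * psi g κ :=
          mul_le_mul_of_nonneg_right h1 hψκ.le
      _ = psi g (3 / 2) / 2 := by field_simp
  have hc0 : 0 < (1 - ε) / M := div_pos (by linarith) hM0
  have hcM : (1 - ε) / M * M = 1 - ε := by field_simp
  refine ⟨(1 - ε) / M, hc0, ?_, κ, hκ0, hκ.2, ?_⟩
  · intro s h0 h1
    rw [mm_ofReal]
    refine ⟨Complex.ofReal_im _, ?_⟩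
    rw [Complex.ofReal_re]
    have hp := hψ s h0 h1
    rcases le_total s (1 / 2) with h2 | h2
    · have h3 : 0 ≤ Real.cos (Real.pi * s) := by
        apply Real.cos_nonneg_of_mem_Icc
        constructor
        · nlinarith
        · nlinarith
      have := mul_nonneg hc0.le h3
      linarith
    · have h3 := hMle s ⟨h2, h1⟩
      have h4 := mul_le_mul_of_nonneg_left h3 hc0.le
      rw [← mul_assoc, hcM] at h4
      have h5 := mul_pos hε0 hp
      nlinarith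
  · rw [mm_ofReal, mm_ofReal, Complex.ofReal_re, Complex.ofReal_re]
    have h1 : Real.cos (Real.pi * κ) = -(M * psi g κ) := by
      rw [hM]
      field_simp
    have h2 : Real.cos (Real.pi * (3 / 2)) = 0 := by
      have : Real.pi * (3 / 2) = Real.pi / 2 + Real.pi := by ring
      rw [this, Real.cos_add_pi, Real.cos_pi_div_two, neg_zero]
    rw [h1, h2, mul_zero, add_zero]
    have h3 : psi g κ + (1 - ε) / M * -(M * psi g κ) = ε * psi g κ := by
      have : (1 - ε) / M * -(M * psi g κ) = -(((1 - ε) / M * M) * psi g κ) := by ring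
      rw [this, hcM]
      ring
    rw [h3]
    linarith

private theorem den_pos {g : ℝ} (hg : 0 < g) {c : ℝ} (hc : 0 < c) (τ : ℝ) :
    0 < 1 / W g τ + c * Real.cosh (Real.pi * τ) := by
  have h1 := W_pos hg τ
  have h2 := Real.cosh_pos (Real.pi * τ)
  positivity

theorem phi_pos {g : ℝ} (hg : 0 < g) {c : ℝ} (hc : 0 < c) (τ : ℝ) : 0 < phi g c τ := by
  unfold phi
  exact one_div_pos.2 (den_pos hg hc τ)

theorem phi_le {g : ℝ} (hg : 0 < g) {c : ℝ} (hc : 0 < c) (τ : ℝ) : phi g c τ ≤ W g τ := by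
  unfold phi
  have h1 := W_pos hg τ
  have h2 := Real.cosh_pos (Real.pi * τ)
  have h3 : 0 ≤ c * Real.cosh (Real.pi * τ) := by positivity
  have h4 : 0 < 1 / W g τ := by positivity
  calc 1 / (1 / W g τ + c * Real.cosh (Real.pi * τ)) ≤ 1 / (1 / W g τ) :=
        one_div_le_one_div_of_le h4 (by linarith)
    _ = W g τ := one_div_one_div _

theorem phi_even (g c τ : ℝ) : phi g c (-τ) = phi g c τ := by
  unfold phi
  rw [W_even, mul_neg, Real.cosh_neg]

theorem phi_cont {g : ℝ} (hg : 0 < g) {c : ℝ} (hc : 0 < c) : Continuous (phi g c) := by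
  have h1 : Continuous fun τ : ℝ => 1 / W g τ + c * Real.cosh (Real.pi * τ) := by
    refine Continuous.add (Continuous.div continuous_const (W_cont hg) fun τ => (W_pos hg τ).ne') ?_
    exact continuous_const.mul (Real.continuous_cosh.comp (continuous_const.mul continuous_id))
  exact Continuous.div continuous_const h1 fun τ => (den_pos hg hc τ).ne'

theorem phi_integrable {g : ℝ} (hg : 0 < g) {c : ℝ} (hc : 0 < c) : Integrable (phi g c) := by
  have h1 := W_integrable hg (q := 0) Real.pi_pos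
  have h2 : Integrable (W g) := by
    refine h1.congr (Eventually.of_forall fun τ => ?_)
    simp
  refine h2.mono' (phi_cont hg hc).aestronglyMeasurable (Eventually.of_forall fun τ => ?_)
  rw [Real.norm_eq_abs, abs_of_pos (phi_pos hg hc τ)]
  exact phi_le hg hc τ

end Pool.Agent.Lib.MP_70ee11_an.EZ
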