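import Mathlib

/-!
Module FinB (Mathlib only). POSITIVE DEFINITENESS GIVES SIGNED FINITE DIFFERENCES.

φ continuous, integrable, even, with k(x) = ∫ cos(τx) φ(τ) dτ ≥ 0 for all x. Then for all n and h
   0 ≤ Σ_{j=0}^{2n} (-1)^{n+j} C(2n,j) φ((j-n)h) .

PROOF. (2 - 2cos y)^n = Σ_{j=0}^{2n} (-1)^{n+j} C(2n,j) e^{i(j-n)y}: (2-2cos y) = -(e^{iy/2}-e^{-iy/2})² and the binomial
theorem; or 2-2cos y = (1-e^{iy})(1-e^{-iy}) = -e^{-iy}(1-e^{iy})², so (2-2cos y)^n = (-1)^n e^{-iny} (1-e^{iy})^{2n}.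
Way 1 (Gaussian regularisation). For ε > 0, 0 ≤ ∫ k(x) e^{-εx²} (2-2cos hx)^n dx. Insert k(x) = ∫ e^{iτx}φ(τ)dτ (φ even) and
use Fubini (φ(τ)e^{-εx²} integrable on ℝ²): = Σ_j (-1)^{n+j}C(2n,j) ∫ φ(τ) [∫ e^{i(τ+(j-n)h)x} e^{-εx²}dx] dτ, and the bracket
is √(π/ε) e^{-(τ+(j-n)h)²/(4ε)} : as ε → 0 the j-th integral tends to 2πφ(-(j-n)h) = 2πφ((j-n)h)
(approximate identity; Mathlib: `tendsto_integral_gaussian_smul'` in Mathlib/Analysis/Fourier/Inversion.lean, with ε = 1/c).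
Way 2 (inversion). k ≥ 0 and Way 1 with n = 0: ∫ k e^{-εx²} dx = ∫ φ(τ) √(π/ε) e^{-τ²/4ε}dτ ≤ 2π sup φ (sup over ℝ is finite if φ
is bounded; here one may use boundedness near 0 and integrability away from 0) is bounded as ε → 0, so k is integrable by
Fatou / monotone convergence (`lintegral_iSup` or `integrable_of_tendsto`), the Fourier inversion theorem of Mathlib gives
φ(τ) = (1/2π)∫ k(x) e^{-iτx} dx, and the finite difference is (1/2π)∫ k(x)(2-2cos hx)^n dx ≥ 0.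
-/

set_option linter.style.longLine false

open MeasureTheory Set Filter Topology

namespace Pool.Agent.Lib.MP_70ee11_an.EZ

open scoped FourierTransform RealInnerProductSpace

/-- the Gaussian regularisation of the inversion formula -/
private theorem gauss_lim {f : ℝ → ℂ} (hf : Integrable f) {v : ℝ} (h'f : ContinuousAt f v) :
    Tendsto (fun c : ℝ => ∫ w : ℝ, Complex.exp (-(c : ℂ)⁻¹ * (‖w‖ : ℂ) ^ 2 + 2 * Real.pi * Complex.I * (⟪v, w⟫ : ℝ)) •
      (𝓕 f) w) atTop (𝓝 (f v)) := by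
  have h := Real.tendsto_integral_gaussian_smul' hf h'f
  refine h.congr' ?_
  filter_upwards [Ioi_mem_atTop (0 : ℝ)] with c (hc : 0 < c)
  have J : Integrable (fun w : ℝ => Complex.exp (-(c : ℂ)⁻¹ * (‖w‖ : ℂ) ^ 2 +
      2 * Real.pi * Complex.I * (⟪v, w⟫ : ℝ))) :=
    GaussianFourier.integrable_cexp_neg_mul_sq_norm_add (by simpa) _ _
  have h2 : ∫ w : ℝ, 𝓕 (fun w : ℝ => Complex.exp (-(c : ℂ)⁻¹ * (‖w‖ : ℂ) ^ 2 +
      2 * Real.pi * Complex.I * (⟪v, w⟫ : ℝ))) w • f w =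
      ∫ w : ℝ, Complex.exp (-(c : ℂ)⁻¹ * (‖w‖ : ℂ) ^ 2 + 2 * Real.pi * Complex.I * (⟪v, w⟫ : ℝ)) •
      (𝓕 f) w := by
    simpa using! (VectorFourier.integral_fourierIntegral_smul_eq_flip (L := innerₗ ℝ)
      Real.continuous_fourierChar continuous_inner J hf)
  rw [← h2]
  congr with w
  rw [fourier_gaussian_innerProductSpace' (by simpa)]
  have e1 : (Real.pi : ℂ) / (c : ℂ)⁻¹ = Real.pi * c := by rw [div_inv_eq_mul]
  have e2 : -(Real.pi : ℂ) ^ 2 * (‖v - w‖ : ℂ) ^ 2 / (c : ℂ)⁻¹ =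
      -(Real.pi : ℂ) ^ 2 * c * (‖v - w‖ : ℂ) ^ 2 := by
    rw [div_inv_eq_mul]
    ring
  rw [e1, e2]

/-- the Fourier transform of an even integrable function with nonnegative cosine transform -/
private theorem fourier_pos {φ : ℝ → ℝ} (hi : Integrable φ) (heven : ∀ τ, φ (-τ) = φ τ)
    (hk : ∀ x : ℝ, 0 ≤ ∫ τ : ℝ, Real.cos (τ * x) * φ τ) (w : ℝ) :
    ∃ K : ℝ, 0 ≤ K ∧ (𝓕 (fun τ : ℝ => (φ τ : ℂ))) w = (K : ℂ) := by
  have hA := Real.fourier_real_eq_integral_exp_smul (fun τ : ℝ => (φ τ : ℂ)) w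
  set A : ℂ := (𝓕 (fun τ : ℝ => (φ τ : ℂ))) w with hAdef
  have hint : Integrable (fun v : ℝ => Complex.exp (((-2 * Real.pi * v * w : ℝ) : ℂ) * Complex.I) • ((φ v : ℝ) : ℂ)) := by
    have h1 : Integrable (fun v : ℝ => ((φ v : ℝ) : ℂ)) := hi.ofReal
    refine h1.bdd_mul (c := 1) ?_ ?_
    · exact Continuous.aestronglyMeasurable (by fun_prop)
    · refine Eventually.of_forall fun v => ?_
      rw [Complex.norm_exp_ofReal_mul_I]
  have hconj : (starRingEnd ℂ) A = A := by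
    rw [hA, ← integral_conj]
    rw [← integral_neg_eq_self (fun v : ℝ => Complex.exp (((-2 * Real.pi * v * w : ℝ) : ℂ) * Complex.I) • ((φ v : ℝ) : ℂ))]
    refine integral_congr_ae (Eventually.of_forall fun v => ?_)
    simp only [smul_eq_mul, map_mul, Complex.conj_ofReal, heven]
    congr 1
    rw [← Complex.exp_conj]
    congr 1
    rw [map_mul, Complex.conj_ofReal, Complex.conj_I]
    push_cast
    ring
  have hre : A.re = ∫ τ : ℝ, Real.cos (τ * (2 * Real.pi * w)) * φ τ := by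
    have h1 := integral_re hint
    rw [hA]
    refine h1.symm.trans (integral_congr_ae (Eventually.of_forall fun v => ?_))
    show (Complex.exp (((-2 * Real.pi * v * w : ℝ) : ℂ) * Complex.I) • ((φ v : ℝ) : ℂ)).re = _
    rw [smul_eq_mul, Complex.re_mul_ofReal, Complex.exp_ofReal_mul_I_re]
    have h2 : -2 * Real.pi * v * w = -(v * (2 * Real.pi * w)) := by ring
    rw [h2, Real.cos_neg]
  refine ⟨A.re, ?_, ?_⟩
  · rw [hre]
    exact hk _
  · exact (Complex.conj_eq_iff_re.1 hconj).symm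

/-- the binomial identity -/
private theorem binom_id (n : ℕ) (y : ℝ) :
    ∑ j ∈ Finset.range (2 * n + 1), ((((-1 : ℝ) ^ (n + j) * ((2 * n).choose j : ℝ) : ℝ) : ℂ)) *
      Complex.exp (Complex.I * (((j : ℝ) - n) * y : ℝ)) = (((2 - 2 * Real.cos y) ^ n : ℝ) : ℂ) := by
  set z : ℂ := Complex.exp (Complex.I * y) with hz
  set z' : ℂ := Complex.exp (-(Complex.I * y)) with hz'
  have hzz : z * z' = 1 := by
    rw [hz, hz', ← Complex.exp_add, add_neg_cancel, Complex.exp_zero]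
  have hcos : (((2 - 2 * Real.cos y) : ℝ) : ℂ) = 2 - z - z' := by
    push_cast
    rw [Complex.cos, hz, hz', mul_comm Complex.I]
    have h1 : -(y : ℂ) * Complex.I = -((y : ℂ) * Complex.I) := by ring
    rw [h1]
    ring
  have hterm : ∀ j ∈ Finset.range (2 * n + 1),
      ((((-1 : ℝ) ^ (n + j) * ((2 * n).choose j : ℝ) : ℝ) : ℂ)) *
      Complex.exp (Complex.I * (((j : ℝ) - n) * y : ℝ)) =
      ((-1) ^ n * z' ^ n) * ((-z) ^ j * 1 ^ (2 * n - j) * ((2 * n).choose j : ℂ)) := by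
    intro j _
    have h1 : Complex.exp (Complex.I * (((j : ℝ) - n) * y : ℝ)) = z ^ j * z' ^ n := by
      rw [hz, hz', ← Complex.exp_nat_mul, ← Complex.exp_nat_mul, ← Complex.exp_add]
      congr 1
      push_cast
      ring
    rw [h1, neg_pow z, one_pow]
    push_cast
    rw [pow_add]
    ring
  rw [Finset.sum_congr rfl hterm, ← Finset.mul_sum, ← add_pow]
  push_cast at hcos ⊢
  rw [hcos, pow_mul, ← mul_pow, ← mul_pow]
  congr 1
  linear_combination (-z + 2) * hzz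

theorem fd_nonneg {φ : ℝ → ℝ} (hc : Continuous φ) (hi : Integrable φ) (heven : ∀ τ, φ (-τ) = φ τ)
    (hk : ∀ x : ℝ, 0 ≤ ∫ τ : ℝ, Real.cos (τ * x) * φ τ) (n : ℕ) (h : ℝ) :
    0 ≤ ∑ j ∈ Finset.range (2 * n + 1), (-1 : ℝ) ^ (n + j) * ((2 * n).choose j : ℝ) * φ (((j : ℝ) - n) * h) := by
  set f : ℝ → ℂ := fun τ => (φ τ : ℂ) with hf
  have hfi : Integrable f := hi.ofReal
  have hfc : Continuous f := Complex.continuous_ofReal.comp hc
  choose K hK0 hK using fourier_pos hi heven hk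
  have hFc : Continuous (𝓕 f) :=
    VectorFourier.fourierIntegral_continuous Real.continuous_fourierChar (by fun_prop) hfi
  set a : ℕ → ℝ := fun j => (-1 : ℝ) ^ (n + j) * ((2 * n).choose j : ℝ) with ha
  set v : ℕ → ℝ := fun j => ((j : ℝ) - n) * h with hv
  -- the regularised sum
  have hlim : Tendsto (fun c : ℝ => ∑ j ∈ Finset.range (2 * n + 1), (a j : ℂ) *
      ∫ w : ℝ, Complex.exp (-(c : ℂ)⁻¹ * (‖w‖ : ℂ) ^ 2 + 2 * Real.pi * Complex.I * (⟪v j, w⟫ : ℝ)) •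
      (𝓕 f) w) atTop (𝓝 (∑ j ∈ Finset.range (2 * n + 1), (a j : ℂ) * f (v j))) :=
    tendsto_finsetSum _ fun j _ => (gauss_lim hfi hfc.continuousAt).const_mul _
  have hpos : ∀ᶠ c : ℝ in atTop, 0 ≤ (∑ j ∈ Finset.range (2 * n + 1), (a j : ℂ) *
      ∫ w : ℝ, Complex.exp (-(c : ℂ)⁻¹ * (‖w‖ : ℂ) ^ 2 + 2 * Real.pi * Complex.I * (⟪v j, w⟫ : ℝ)) •
      (𝓕 f) w).re := by
    filter_upwards [Ioi_mem_atTop (0 : ℝ)] with c (hc : 0 < c)
    have hint : ∀ j ∈ Finset.range (2 * n + 1), Integrable (fun w : ℝ => (a j : ℂ) *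
        (Complex.exp (-(c : ℂ)⁻¹ * (‖w‖ : ℂ) ^ 2 + 2 * Real.pi * Complex.I * (⟪v j, w⟫ : ℝ)) •
        (𝓕 f) w)) := by
      intro j _
      have J : Integrable (fun w : ℝ => Complex.exp (-(c : ℂ)⁻¹ * (‖w‖ : ℂ) ^ 2 +
          2 * Real.pi * Complex.I * (⟪v j, w⟫ : ℝ))) :=
        GaussianFourier.integrable_cexp_neg_mul_sq_norm_add (by simpa) _ _
      refine Integrable.const_mul ?_ _
      refine Integrable.mul_bdd (c := ∫ x, ‖f x‖) J hFc.aestronglyMeasurable ?_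
      exact Eventually.of_forall fun w => VectorFourier.norm_fourierIntegral_le_integral_norm _ _ _ _ _
    have e1 : ∑ j ∈ Finset.range (2 * n + 1), (a j : ℂ) *
        ∫ w : ℝ, Complex.exp (-(c : ℂ)⁻¹ * (‖w‖ : ℂ) ^ 2 + 2 * Real.pi * Complex.I * (⟪v j, w⟫ : ℝ)) •
        (𝓕 f) w = ∫ w : ℝ, ((Real.exp (-c⁻¹ * w ^ 2) * (2 - 2 * Real.cos (2 * Real.pi * h * w)) ^ n *
          K w : ℝ) : ℂ) := by
      rw [Finset.sum_congr rfl fun j _ => (integral_const_mul (a j : ℂ) _).symm,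
        ← integral_finsetSum _ hint]
      refine integral_congr_ae (Eventually.of_forall fun w => ?_)
      show ∑ j ∈ Finset.range (2 * n + 1), (a j : ℂ) *
        (Complex.exp (-(c : ℂ)⁻¹ * (‖w‖ : ℂ) ^ 2 + 2 * Real.pi * Complex.I * (⟪v j, w⟫ : ℝ)) •
        (𝓕 f) w) = ((Real.exp (-c⁻¹ * w ^ 2) * (2 - 2 * Real.cos (2 * Real.pi * h * w)) ^ n *
          K w : ℝ) : ℂ)
      have hb := binom_id n (2 * Real.pi * h * w)
      rw [Complex.ofReal_mul, Complex.ofReal_mul, ← hb, hK w, Finset.mul_sum, Finset.sum_mul]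
      refine Finset.sum_congr rfl fun j _ => ?_
      have e2 : Complex.exp (-(c : ℂ)⁻¹ * (‖w‖ : ℂ) ^ 2 + 2 * Real.pi * Complex.I * (⟪v j, w⟫ : ℝ)) =
          ((Real.exp (-c⁻¹ * w ^ 2) : ℝ) : ℂ) *
          Complex.exp (Complex.I * ((((j : ℝ) - n) * (2 * Real.pi * h * w) : ℝ) : ℂ)) := by
        rw [Complex.ofReal_exp, ← Complex.exp_add]
        congr 1
        have e3 : (⟪v j, w⟫ : ℝ) = w * v j := rfl
        have e4 : (‖w‖ : ℂ) ^ 2 = (w : ℂ) ^ 2 := by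
          rw [← Complex.ofReal_pow, Real.norm_eq_abs, sq_abs, Complex.ofReal_pow]
        rw [e3, e4, hv]
        push_cast
        ring
      rw [e2, smul_eq_mul]
      simp only [ha]
      ring
    have e6 : (∫ w : ℝ, ((Real.exp (-c⁻¹ * w ^ 2) * (2 - 2 * Real.cos (2 * Real.pi * h * w)) ^ n *
        K w : ℝ) : ℂ)) = ((∫ w : ℝ, Real.exp (-c⁻¹ * w ^ 2) *
          (2 - 2 * Real.cos (2 * Real.pi * h * w)) ^ n * K w : ℝ) : ℂ) := integral_ofReal
    rw [e1, e6, Complex.ofReal_re]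
    refine integral_nonneg fun w => ?_
    have h1 : 0 ≤ 2 - 2 * Real.cos (2 * Real.pi * h * w) := by
      have := Real.cos_le_one (2 * Real.pi * h * w)
      linarith
    exact mul_nonneg (mul_nonneg (Real.exp_pos _).le (pow_nonneg h1 n)) (hK0 w)
  have hre := (Complex.continuous_re.tendsto _).comp hlim
  have hfin := ge_of_tendsto hre hpos
  have e5 : (∑ j ∈ Finset.range (2 * n + 1), (a j : ℂ) * f (v j)) =
      ((∑ j ∈ Finset.range (2 * n + 1), a j * φ (v j) : ℝ) : ℂ) := by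
    rw [hf]
    push_cast
    rfl
  rw [e5, Complex.ofReal_re] at hfin
  exact hfin

end Pool.Agent.Lib.MP_70ee11_an.EZ
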