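import Mathlib

/-!
Module FinC (Mathlib only). FINITE DIFFERENCES TO DERIVATIVES.

f analytic at 0; suppose for all small real h > 0 the symmetric difference
   E(h) = Σ_{j=0}^{2n} (-1)^{n+j} C(2n,j) f((j-n)h i)   is ≥ 0 (in the order of ℂ: real and ≥ 0).
Then f^{(2n)}(0) ≥ 0 (real and ≥ 0).

PROOF. Taylor: f(z) = Σ_{l ≤ 2n} a_l z^l + O(z^{2n+1}), a_l = f^{(l)}(0)/l! (`AnalyticAt`/`HasFPowerSeriesAt.isBigO_sub_partialSum_pow`,
`HasFPowerSeriesAt` coefficient = iteratedDeriv/l!). So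
   E(h) = Σ_{l≤2n} a_l i^l h^l (-1)^n Σ_j (-1)^j C(2n,j)(j-n)^l + O(h^{2n+1}) .
For l < 2n the inner sum is 0 and for l = 2n it is (2n)! (2n-th finite difference of the polynomial (X-n)^l:
`fwdDiff_iter_eq_sum_shift`, `fwdDiff_iter_pow_lt`/`fwdDiff_iter_eq_factorial` or `Finset.sum_...choose` lemmas in Mathlib, e.g.
`Polynomial` versions in Mathlib.Algebra.Group.ForwardDiff; note (j-n)^l expands in powers of j of degree ≤ l, leading term j^l;
the sign (-1)^j = (-1)^{2n-j}). Hence E(h) = a_{2n} i^{2n} (-1)^n (2n)! h^{2n} + O(h^{2n+1}) = f^{(2n)}(0) h^{2n} + O(h^{2n+1}), as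
i^{2n}(-1)^n = 1. So E(h)/h^{2n} → f^{(2n)}(0) as h → 0+, and {z : 0 ≤ z} is closed in ℂ.
-/

set_option linter.style.longLine false

open Filter Topology
open scoped ComplexOrder

namespace Pool.Agent.Lib.MP_70ee11_an.EZ

/-- the symmetric difference of the monomials -/
theorem fd_pow (n l : ℕ) (hl : l ≤ 2 * n) :
    ∑ j ∈ Finset.range (2 * n + 1), (-1 : ℂ) ^ (n + j) * ((2 * n).choose j : ℂ) * ((j : ℂ) - n) ^ l =
      if l = 2 * n then (-1 : ℂ) ^ n * ((2 * n).factorial : ℂ) else 0 := by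
  have h1 : ∀ j ∈ Finset.range (2 * n + 1),
      (-1 : ℂ) ^ (n + j) * ((2 * n).choose j : ℂ) * ((j : ℂ) - n) ^ l =
      (-1 : ℂ) ^ n * (((-1 : ℤ) ^ (2 * n - j) * ((2 * n).choose j : ℤ)) •
        ((fun r : ℂ => r ^ l) (-(n : ℂ) + j • (1 : ℂ)))) := by
    intro j hj
    have hj' : j ≤ 2 * n := by
      have := Finset.mem_range.1 hj
      omega
    have hs : (-1 : ℂ) ^ (2 * n - j) = (-1 : ℂ) ^ j := by
      have h2 : (-1 : ℂ) ^ (2 * n - j) * (-1 : ℂ) ^ j = 1 := by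
        rw [← pow_add, Nat.sub_add_cancel hj', pow_mul]
        simp
      have h3 : (-1 : ℂ) ^ j * (-1 : ℂ) ^ j = 1 := by
        rw [← mul_pow]
        simp
      have h4 : (-1 : ℂ) ^ j ≠ 0 := pow_ne_zero _ (by norm_num)
      exact mul_right_cancel₀ h4 (h2.trans h3.symm)
    rw [zsmul_eq_mul]
    push_cast
    rw [hs, pow_add]
    simp only [nsmul_eq_mul, mul_one]
    rw [show (-(n : ℂ) + (j : ℂ)) = (j : ℂ) - n by ring]
    ring
  rw [Finset.sum_congr rfl h1, ← Finset.mul_sum,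
    ← fwdDiff_iter_eq_sum_shift (1 : ℂ) (fun r : ℂ => r ^ l) (2 * n) (-(n : ℂ))]
  split_ifs with h
  · subst h
    rw [fwdDiff_iter_eq_factorial]
    simp
  · rw [fwdDiff_iter_pow_eq_zero_of_lt (lt_of_le_of_ne hl h)]
    simp

theorem fd_limit {f : ℂ → ℂ} (hf : AnalyticAt ℂ f 0) (n : ℕ)
    (hfd : ∀ᶠ h : ℝ in 𝓝[>] 0, 0 ≤ ∑ j ∈ Finset.range (2 * n + 1),
      (-1 : ℂ) ^ (n + j) * ((2 * n).choose j : ℂ) * f (((((j : ℝ) - n) * h : ℝ) : ℂ) * Complex.I)) :
    0 ≤ iteratedDeriv (2 * n) f 0 := by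
  obtain ⟨F, hF, hfF⟩ := hf.exists_eq_sum_add_pow_mul (2 * n + 1)
  -- the remainder
  set R : ℝ → ℂ := fun h => ∑ j ∈ Finset.range (2 * n + 1),
      (-1 : ℂ) ^ (n + j) * ((2 * n).choose j : ℂ) * ((((j : ℂ) - n) * Complex.I) ^ (2 * n + 1) *
        F (((((j : ℝ) - n) * h : ℝ) : ℂ) * Complex.I)) with hR
  have hE : ∀ h : ℝ, ∑ j ∈ Finset.range (2 * n + 1),
      (-1 : ℂ) ^ (n + j) * ((2 * n).choose j : ℂ) * f (((((j : ℝ) - n) * h : ℝ) : ℂ) * Complex.I) =
      (h : ℂ) ^ (2 * n) * (iteratedDeriv (2 * n) f 0 + h * R h) := by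
    intro h
    have h1 : ∀ j ∈ Finset.range (2 * n + 1),
        (-1 : ℂ) ^ (n + j) * ((2 * n).choose j : ℂ) * f (((((j : ℝ) - n) * h : ℝ) : ℂ) * Complex.I) =
        (∑ i ∈ Finset.range (2 * n + 1), (((h : ℂ) * Complex.I) ^ i / (i.factorial : ℂ)) *
          iteratedDeriv i f 0 * ((-1 : ℂ) ^ (n + j) * ((2 * n).choose j : ℂ) * ((j : ℂ) - n) ^ i)) +
        (h : ℂ) ^ (2 * n + 1) * ((-1 : ℂ) ^ (n + j) * ((2 * n).choose j : ℂ) *
          ((((j : ℂ) - n) * Complex.I) ^ (2 * n + 1) *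
            F (((((j : ℝ) - n) * h : ℝ) : ℂ) * Complex.I))) := by
      intro j _
      rw [hfF (((((j : ℝ) - n) * h : ℝ) : ℂ) * Complex.I), mul_add, Finset.mul_sum]
      have hz : ((((j : ℝ) - n) * h : ℝ) : ℂ) * Complex.I = ((j : ℂ) - n) * ((h : ℂ) * Complex.I) := by
        push_cast
        ring
      congr 1
      · refine Finset.sum_congr rfl fun i _ => ?_
        rw [hz, smul_eq_mul, mul_pow]
        ring
      · rw [smul_eq_mul]
        have hz2 : (((((j : ℝ) - n) * h : ℝ) : ℂ) * Complex.I) ^ (2 * n + 1) =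
            (h : ℂ) ^ (2 * n + 1) * (((j : ℂ) - n) * Complex.I) ^ (2 * n + 1) := by
          rw [← mul_pow]
          congr 1
          push_cast
          ring
        rw [hz2]
        ring
    rw [Finset.sum_congr rfl h1, Finset.sum_add_distrib, Finset.sum_comm, ← Finset.mul_sum]
    have h2 : ∀ i ∈ Finset.range (2 * n + 1), ∑ j ∈ Finset.range (2 * n + 1),
        (((h : ℂ) * Complex.I) ^ i / (i.factorial : ℂ)) *
          iteratedDeriv i f 0 * ((-1 : ℂ) ^ (n + j) * ((2 * n).choose j : ℂ) * ((j : ℂ) - n) ^ i) =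
        if i = 2 * n then (h : ℂ) ^ (2 * n) * iteratedDeriv (2 * n) f 0 else 0 := by
      intro i hi
      rw [← Finset.mul_sum, fd_pow n i (by have := Finset.mem_range.1 hi; omega)]
      split_ifs with h3
      · subst h3
        have h4 : ((2 * n).factorial : ℂ) ≠ 0 := Nat.cast_ne_zero.2 (Nat.factorial_ne_zero _)
        have h5 : Complex.I ^ (2 * n) * (-1 : ℂ) ^ n = 1 := by
          rw [pow_mul, Complex.I_sq, ← mul_pow]
          simp
        rw [mul_pow]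
        field_simp
        calc _ = (h : ℂ) ^ (2 * n) * iteratedDeriv (2 * n) f 0 * (Complex.I ^ (2 * n) * (-1 : ℂ) ^ n) := by
              ring
          _ = _ := by rw [h5]; ring
      · simp
    rw [Finset.sum_congr rfl h2, Finset.sum_ite_eq' (Finset.range (2 * n + 1)) (2 * n)]
    rw [if_pos (Finset.mem_range.2 (Nat.lt_succ_self _))]
    rw [hR]
    ring
  -- limit
  have hlimR : Tendsto R (𝓝[>] 0) (𝓝 (R 0)) := by
    have hc : ContinuousAt R 0 := by
      rw [hR]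
      refine tendsto_finsetSum _ fun j _ => ?_
      refine Tendsto.const_mul _ (Tendsto.const_mul _ ?_)
      have h0 : ContinuousAt (fun h : ℝ => ((((j : ℝ) - n) * h : ℝ) : ℂ) * Complex.I) 0 := by
        fun_prop
      have hF0 : ContinuousAt F (((((j : ℝ) - n) * (0:ℝ) : ℝ) : ℂ) * Complex.I) := by
        simpa using hF.continuousAt
      exact ContinuousAt.comp (f := fun h : ℝ => ((((j : ℝ) - n) * h : ℝ) : ℂ) * Complex.I) hF0 h0
    exact hc.tendsto.mono_left nhdsWithin_le_nhds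
  have hlim : Tendsto (fun h : ℝ => iteratedDeriv (2 * n) f 0 + (h : ℂ) * R h) (𝓝[>] 0)
      (𝓝 (iteratedDeriv (2 * n) f 0)) := by
    have hh : Tendsto (fun h : ℝ => (h : ℂ)) (𝓝[>] 0) (𝓝 ((0 : ℝ) : ℂ)) :=
      (Complex.continuous_ofReal.tendsto 0).mono_left nhdsWithin_le_nhds
    have := (hh.mul hlimR).const_add (iteratedDeriv (2 * n) f 0)
    simpa using this
  refine ge_of_tendsto hlim ?_
  filter_upwards [hfd, self_mem_nhdsWithin] with h h1 h2
  have h2' : (0 : ℝ) < h := h2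
  rw [hE h] at h1
  have h3 : (0 : ℂ) < (h : ℂ) ^ (2 * n) := by
    have : (0 : ℝ) < h ^ (2 * n) := by positivity
    exact_mod_cast this
  have h4 : (0 : ℂ) ≤ ((h ^ (2 * n) : ℝ)⁻¹ : ℝ) := by
    have : (0 : ℝ) ≤ (h ^ (2 * n))⁻¹ := by positivity
    exact_mod_cast this
  have h5 := mul_nonneg h4 h1
  have h6 : (((h ^ (2 * n) : ℝ)⁻¹ : ℝ) : ℂ) * ((h : ℂ) ^ (2 * n) *
      (iteratedDeriv (2 * n) f 0 + h * R h)) = iteratedDeriv (2 * n) f 0 + h * R h := by
    push_cast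
    rw [← mul_assoc, inv_mul_cancel₀ h3.ne', one_mul]
  rwa [h6] at h5

end Pool.Agent.Lib.MP_70ee11_an.EZ
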