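import Mathlib

/-!
Module FinD (Mathlib only). PROPAGATION OF ABSOLUTE MONOTONICITY ALONG A SEGMENT.

f holomorphic on an open set U ⊇ [0,b]; all derivatives of f at 0 are ≥ 0 (order of ℂ). Then f is nondecreasing on [0,b].

PROOF. [0,b] ⊂ ℂ compact in the open U, so there is r > 0 with ball (s:ℂ) r ⊆ U for all s ∈ [0,b]
(`IsCompact.exists_thickening_subset_open`). Step: if 0 ≤ iteratedDeriv n f s for all n, for some s ∈ [0,b], then the same
holds at every real t ∈ [s, min(b, s + r/2)] : apply `DifferentiableOn.nonneg_of_iteratedDeriv_nonneg`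
(Mathlib.Analysis.Complex.Positivity) to the function iteratedDeriv n f on ball s r (it is holomorphic there; its m-th
iterated derivative at s is iteratedDeriv (m+n) f s). By induction on k it holds at every t ∈ [0,b] with t ≤ k r/2, so on [0,b].
Finally, the real function t ↦ (f t).re has derivative (deriv f t).re = (iteratedDeriv 1 f t).re ≥ 0 on [0,b], so it is
monotone; and f t = its real part (iteratedDeriv 0). So f s ≤ f t in the order of ℂ.
-/

set_option linter.style.longLine false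

open Set Filter Topology
open scoped ComplexOrder

namespace Pool.Agent.Lib.MP_70ee11_an.EZ

private theorem find_diff {f : ℂ → ℂ} {B : Set ℂ} (hB : IsOpen B) (hf : DifferentiableOn ℂ f B)
    (n : ℕ) : DifferentiableOn ℂ (iteratedDeriv n f) B := by
  induction n with
  | zero =>
    rw [iteratedDeriv_zero]
    exact hf
  | succ n ih =>
    rw [iteratedDeriv_succ]
    exact ih.deriv hB

private theorem find_step {f : ℂ → ℂ} {s t r : ℝ} (hf : DifferentiableOn ℂ f (Metric.ball (s : ℂ) r))
    (hs : ∀ n, 0 ≤ iteratedDeriv n f (s : ℂ)) (hst : s ≤ t) (ht : t < s + r) (n : ℕ) :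
    0 ≤ iteratedDeriv n f (t : ℂ) := by
  refine (find_diff Metric.isOpen_ball hf n).nonneg_of_iteratedDeriv_nonneg (c := (s : ℂ))
    (r := r) ?_ ?_ ?_
  · intro m
    have h1 : iteratedDeriv m (iteratedDeriv n f) = iteratedDeriv (m + n) f := by
      rw [iteratedDeriv_eq_iterate, iteratedDeriv_eq_iterate, iteratedDeriv_eq_iterate,
        Function.iterate_add_apply]
    rw [h1]
    exact hs (m + n)
  · exact_mod_cast hst
  · rw [Metric.mem_ball, Complex.dist_eq, ← Complex.ofReal_sub, Complex.norm_real,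
      Real.norm_eq_abs, abs_of_nonneg (by linarith)]
    linarith

theorem propagate {f : ℂ → ℂ} {b : ℝ} {U : Set ℂ} (hU : IsOpen U) (hseg : ∀ s : ℝ, 0 ≤ s → s ≤ b → (s : ℂ) ∈ U)
    (hf : DifferentiableOn ℂ f U) (h0 : ∀ n, 0 ≤ iteratedDeriv n f 0) {s t : ℝ} (hs : 0 ≤ s) (hst : s ≤ t) (ht : t ≤ b) :
    (f (s : ℂ)).re ≤ (f (t : ℂ)).re := by
  have hb : 0 ≤ b := hs.trans (hst.trans ht)
  have hK : IsCompact ((fun x : ℝ => (x : ℂ)) '' Icc 0 b) :=
    isCompact_Icc.image Complex.continuous_ofReal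
  obtain ⟨r, hr, hrU⟩ := hK.exists_thickening_subset_open hU (by
    rintro _ ⟨x, hx, rfl⟩
    exact hseg x hx.1 hx.2)
  have hball : ∀ x : ℝ, 0 ≤ x → x ≤ b → Metric.ball (x : ℂ) r ⊆ U := fun x h1 h2 =>
    (Metric.ball_subset_thickening (Set.mem_image_of_mem (fun x : ℝ => (x : ℂ))
      (show x ∈ Icc 0 b from ⟨h1, h2⟩)) r).trans hrU
  have key : ∀ k : ℕ, ∀ x : ℝ, 0 ≤ x → x ≤ b → x ≤ k * (r / 2) →
      ∀ n, 0 ≤ iteratedDeriv n f (x : ℂ) := by
    intro k
    induction k with
    | zero =>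
      intro x hx _ hx' n
      have h1 : x = 0 := by
        push_cast at hx'
        linarith
      rw [h1, Complex.ofReal_zero]
      exact h0 n
    | succ k ih =>
      intro x hx hxb hx' n
      rcases le_or_gt x (k * (r / 2)) with h1 | h1
      · exact ih x hx hxb h1 n
      · have h2 : (0 : ℝ) ≤ k * (r / 2) := by positivity
        refine find_step (s := k * (r / 2)) (r := r) (hf.mono (hball _ h2 (by linarith)))
          (ih _ h2 (by linarith) le_rfl) h1.le ?_ n
        push_cast at hx'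
        linarith
  have hA : ∀ x : ℝ, 0 ≤ x → x ≤ b → ∀ n, 0 ≤ iteratedDeriv n f (x : ℂ) := by
    intro x hx hxb
    obtain ⟨k, hk⟩ := exists_nat_ge (x / (r / 2))
    refine key k x hx hxb ?_
    rwa [div_le_iff₀ (by positivity)] at hk
  have hd : ∀ x : ℝ, 0 ≤ x → x ≤ b →
      HasDerivAt (fun y : ℝ => (f (y : ℂ)).re) (deriv f (x : ℂ)).re x := by
    intro x hx hxb
    exact ((hf.differentiableAt (hU.mem_nhds (hseg x hx hxb))).hasDerivAt).real_of_complex
  have hmono : MonotoneOn (fun y : ℝ => (f (y : ℂ)).re) (Icc 0 b) := by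
    refine monotoneOn_of_deriv_nonneg (convex_Icc 0 b)
      (fun x hx => (hd x hx.1 hx.2).continuousAt.continuousWithinAt)
      (fun x hx => ?_) (fun x hx => ?_)
    · rw [interior_Icc] at hx
      exact (hd x hx.1.le hx.2.le).differentiableAt.differentiableWithinAt
    · rw [interior_Icc] at hx
      rw [(hd x hx.1.le hx.2.le).deriv]
      have h1 := hA x hx.1.le hx.2.le 1
      rw [iteratedDeriv_one] at h1
      exact (Complex.le_def.1 h1).1
  exact hmono ⟨hs, hst.trans ht⟩ ⟨hs.trans hst, ht⟩ hst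

theorem iteratedDeriv_odd_zero {f : ℂ → ℂ} (hf : ∀ z, f (-z) = f z) (n : ℕ) : iteratedDeriv (2 * n + 1) f 0 = 0 := by
  have h1 := iteratedDeriv_comp_neg (2 * n + 1) f (0 : ℂ)
  have h2 : (fun x => f (-x)) = f := funext hf
  rw [h2, neg_zero, pow_succ, pow_mul] at h1
  simp only [even_two, Even.neg_pow, one_pow, one_mul, neg_smul, one_smul] at h1
  have h3 : iteratedDeriv (2 * n + 1) f 0 + iteratedDeriv (2 * n + 1) f 0 = 0 := by
    nth_rw 1 [h1]
    ring
  have h4 : 2 * iteratedDeriv (2 * n + 1) f 0 = 0 := by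
    rw [two_mul]
    exact h3
  rcases mul_eq_zero.1 h4 with h5 | h5
  · norm_num at h5
  · exact h5

end Pool.Agent.Lib.MP_70ee11_an.EZ
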