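import Mathlib
import Pool.Agent.Lib.MP_70ee11_an.EZ.Defs
import Pool.Agent.Lib.MP_70ee11_an.EZ.Gam2
import Pool.Agent.Lib.MP_70ee11_an.EZ.FinA
import Pool.Agent.Lib.MP_70ee11_an.EZ.FinB
import Pool.Agent.Lib.MP_70ee11_an.EZ.FinC
import Pool.Agent.Lib.MP_70ee11_an.EZ.FinD

/-!
Module Fin. THE CONTRADICTION for g > 3 (helper54 does this one).

PROOF. c, κ from `exists_c`. F = 1/m: F(iτ) = φ(τ). Even. By `fd_nonneg` and `fd_limit` all even derivatives of F at 0
are ≥ 0, odd ones vanish. U = {m ≠ 0} open ⊇ [0,3/2]. `propagate`: (F κ).re ≤ (F (3/2)).re, i.e. 1/m(κ) ≤ 1/m(3/2), so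
m(3/2) ≤ m(κ), contradiction.
-/

set_option linter.style.longLine false

open MeasureTheory Set Filter Topology
open scoped ComplexOrder

namespace Pool.Agent.Lib.MP_70ee11_an.EZ

theorem fin {g : ℝ} (hg : 3 < g) (hk : ∀ c : ℝ, 0 < c → ∀ x : ℝ, 0 ≤ ∫ τ : ℝ, Real.cos (τ * x) * phi g c τ) : False := by
  have hg0 : 0 < g := by linarith
  obtain ⟨c, hc, hm, κ, hκ0, hκ1, hlt⟩ := exists_c hg
  -- the function F = 1/m
  set F : ℂ → ℂ := fun s => (mm g c s)⁻¹ with hF
  set U : Set ℂ := {s | mm g c s ≠ 0} with hU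
  have hUo : IsOpen U := isOpen_ne_fun (mm_diff g c).continuous continuous_const
  have hFd : DifferentiableOn ℂ F U := fun s hs => ((mm_diff g c s).inv hs).differentiableWithinAt
  have hne : ∀ s : ℝ, 0 ≤ s → s ≤ 3 / 2 → (s : ℂ) ∈ U := by
    intro s h0 h1 h
    have := (hm s h0 h1).2
    rw [h] at this
    simp at this
  have hFI : ∀ τ : ℝ, F ((τ : ℂ) * Complex.I) = ((phi g c τ : ℝ) : ℂ) := by
    intro τ
    rw [hF]
    simp only
    rw [mm_I hg0, phi, one_div (1 / W g τ + c * Real.cosh (Real.pi * τ)), Complex.ofReal_inv]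
  have hFan : AnalyticAt ℂ F 0 := by
    have h0 : (0 : ℂ) ∈ U := by simpa using hne 0 le_rfl (by norm_num)
    exact hFd.analyticAt (hUo.mem_nhds h0)
  have hFeven : ∀ z, F (-z) = F z := fun z => by rw [hF]; simp only [mm_neg]
  have hk' := hk c hc
  have hder : ∀ n, (0 : ℂ) ≤ iteratedDeriv n F 0 := by
    intro n
    rcases Nat.even_or_odd' n with ⟨k, rfl | rfl⟩
    · apply fd_limit hFan
      filter_upwards with h
      have h1 := fd_nonneg (phi_cont hg0 hc) (phi_integrable hg0 hc) (phi_even g c) hk' k h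
      have h2 : ∑ j ∈ Finset.range (2 * k + 1), (-1 : ℂ) ^ (k + j) * ((2 * k).choose j : ℂ) *
          F (((((j : ℝ) - k) * h : ℝ) : ℂ) * Complex.I) =
          ((∑ j ∈ Finset.range (2 * k + 1), (-1 : ℝ) ^ (k + j) * ((2 * k).choose j : ℝ) * phi g c (((j : ℝ) - k) * h) : ℝ) : ℂ) := by
        rw [Complex.ofReal_sum]
        apply Finset.sum_congr rfl
        intro j _
        rw [hFI]
        push_cast
        ring
      rw [h2]
      exact_mod_cast h1
    · rw [iteratedDeriv_odd_zero hFeven]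
  have hfin := propagate hUo hne hFd hder hκ0 hκ1 le_rfl
  -- contradiction
  have hreal : ∀ s : ℝ, 0 ≤ s → s ≤ 3 / 2 → (F (s : ℂ)).re = ((mm g c s).re)⁻¹ := by
    intro s h0 h1
    have him := (hm s h0 h1).1
    have : mm g c s = (((mm g c s).re : ℝ) : ℂ) := by
      apply Complex.ext <;> simp [him]
    rw [hF]
    simp only
    rw [this, ← Complex.ofReal_inv, Complex.ofReal_re, Complex.ofReal_re]
  rw [hreal κ hκ0 hκ1, hreal (3 / 2) (by norm_num) le_rfl] at hfin
  have h1 := (hm κ hκ0 hκ1).2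
  have h2 := (hm (3 / 2) (by norm_num) le_rfl).2
  have h3 := (inv_le_inv₀ h1 h2).mp hfin
  exact absurd h3 (not_le.mpr hlt)

end Pool.Agent.Lib.MP_70ee11_an.EZ
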