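import Mathlib
import Pool.Agent.Lib.MP_70ee11_an.EZ.Defs
import Pool.Agent.Lib.MP_70ee11_an.EZ.Gam2

/-!
Module Sums. THE PERIODIC SUMS S_q(τ) = Σ_{k∈ℤ} W(τ+kT) e^{q(τ+kT)}.

PROOF. Take |q| < ρ < π, W(τ) ≤ C e^{-ρ|τ|} (`W_upper`), so the k-th term is ≤ C e^{-(ρ-|q|)|τ+kT|}; with a = ρ-|q| > 0 and
|τ+kT| ≥ |k|T - |τ| it is ≤ C e^{a|τ|} e^{-aT|k|}, summable over k ∈ ℤ (geometric series on both sides:
`summable_geometric_of_lt_one`, `Summable.of_nat_of_neg_add_one` or `summable_int_iff_summable_nat_and_neg`).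
* continuity: `continuous_tsum`-type argument needs a uniform bound on a neighbourhood: for |τ| < M the bound
  C e^{aM} e^{-aT|k|} is uniform; use `continuousOn_tsum` on the ball and `continuous_iff_continuousAt`.
* periodicity: τ+T+kT = τ+(k+1)T, shift of the index (`Equiv.addRight 1`, `Equiv.tsum_eq`).
* Sj_neg: W even, k ↦ -k (`Equiv.neg ℤ`).
* positivity: `Summable.tsum_pos`.
* Sj_quad: for real numbers a, b: Σ_k W(τ_k) (a e^{θτ_k} + b e^{-θτ_k})² = a² S_{2θ} + 2ab S_0 + b² S_{-2θ}, and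
  Σ_k W(τ_k)(1 - a e^{θτ_k} - b e^{-θτ_k})² = S_0 + a² S_{2θ} + b² S_{-2θ} - 2a S_θ - 2b S_{-θ} + 2ab S_0  (tsum algebra).
-/

set_option linter.style.longLine false

open MeasureTheory Set Filter Topology

namespace Pool.Agent.Lib.MP_70ee11_an.EZ

/-- geometric decay over the integers -/
theorem exp_int_summable {b : ℝ} (hb : 0 < b) : Summable (fun k : ℤ => Real.exp (-(b * |(k : ℝ)|))) := by
  have h1 : Summable (fun n : ℕ => Real.exp (-(b * (n : ℝ)))) := by
    have h2 : Summable (fun n : ℕ => (Real.exp (-b)) ^ n) :=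
      summable_geometric_of_lt_one (Real.exp_pos _).le (by rw [Real.exp_lt_one_iff]; linarith)
    refine h2.congr fun n => ?_
    rw [← Real.exp_nat_mul]
    congr 1
    ring
  rw [summable_int_iff_summable_nat_and_neg]
  constructor
  · refine h1.congr fun n => ?_
    simp
  · refine h1.congr fun n => ?_
    simp

/-- the basic bound for the terms -/
theorem term_bound {g q : ℝ} (hg : 0 < g) (hq : |q| < Real.pi) :
    ∃ C a : ℝ, 0 < C ∧ 0 < a ∧ ∀ T : ℝ, 0 < T → ∀ (τ : ℝ) (k : ℤ),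
      W g (τ + k * T) * Real.exp (q * (τ + k * T)) ≤ C * Real.exp (a * |τ|) * Real.exp (-(a * T * |(k : ℝ)|)) := by
  obtain ⟨C, hC, hW⟩ := W_upper hg (ρ := (|q| + Real.pi) / 2) (by linarith)
  refine ⟨C, (Real.pi - |q|) / 2, hC, by linarith, fun T hT τ k => ?_⟩
  set u : ℝ := τ + k * T with hu
  have h1 : W g u * Real.exp (q * u) ≤ C * Real.exp (-((Real.pi - |q|) / 2 * |u|)) := by
    have h2 : Real.exp (q * u) ≤ Real.exp (|q| * |u|) := by
      apply Real.exp_le_exp.mpr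
      rw [← abs_mul]
      exact le_abs_self _
    calc W g u * Real.exp (q * u) ≤ (C * Real.exp (-((|q| + Real.pi) / 2 * |u|))) * Real.exp (|q| * |u|) :=
          mul_le_mul (hW u) h2 (Real.exp_pos _).le (by positivity)
      _ = C * Real.exp (-((Real.pi - |q|) / 2 * |u|)) := by
          rw [mul_assoc, ← Real.exp_add]
          congr 2
          ring
  have h3 : T * |(k : ℝ)| - |τ| ≤ |u| := by
    have h4 : |(k : ℝ) * T| ≤ |u| + |τ| := by
      have h5 : (k : ℝ) * T = u - τ := by rw [hu]; ring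
      rw [h5]
      exact abs_sub u τ
    rw [abs_mul, abs_of_pos hT] at h4
    linarith [mul_comm T |(k : ℝ)|]
  have ha : 0 < (Real.pi - |q|) / 2 := by linarith
  refine h1.trans ?_
  rw [mul_assoc, ← Real.exp_add]
  refine mul_le_mul_of_nonneg_left (Real.exp_le_exp.mpr ?_) hC.le
  have h6 := mul_le_mul_of_nonneg_left h3 ha.le
  nlinarith [h6]

theorem term_nonneg {g : ℝ} (hg : 0 < g) (q u : ℝ) : 0 ≤ W g u * Real.exp (q * u) :=
  mul_nonneg (W_pos hg u).le (Real.exp_pos _).le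

theorem Sj_summable {g T q : ℝ} (hg : 0 < g) (hT : 0 < T) (hq : |q| < Real.pi) (τ : ℝ) :
    Summable (fun k : ℤ => W g (τ + k * T) * Real.exp (q * (τ + k * T))) := by
  obtain ⟨C, a, hC, ha, hb⟩ := term_bound hg hq
  refine Summable.of_nonneg_of_le (fun k => term_nonneg hg q _) (fun k => hb T hT τ k) ?_
  exact (exp_int_summable (mul_pos ha hT)).mul_left _

theorem Sj_cont {g T q : ℝ} (hg : 0 < g) (hT : 0 < T) (hq : |q| < Real.pi) : Continuous (Sj g T q) := by
  obtain ⟨C, a, hC, ha, hb⟩ := term_bound hg hq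
  rw [continuous_iff_continuousAt]
  intro τ₀
  set M : ℝ := |τ₀| + 1 with hM
  have hon : ContinuousOn (Sj g T q) (Metric.ball τ₀ 1) := by
    have h1 : ContinuousOn (fun τ => ∑' k : ℤ, W g (τ + k * T) * Real.exp (q * (τ + k * T))) (Metric.ball τ₀ 1) := by
      refine continuousOn_tsum (u := fun k : ℤ => C * Real.exp (a * M) * Real.exp (-(a * T * |(k : ℝ)|))) ?_
        ((exp_int_summable (mul_pos ha hT)).mul_left _) ?_
      · intro k
        have hWc := W_cont hg
        refine Continuous.continuousOn ?_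
        exact (hWc.comp (by fun_prop)).mul (by fun_prop)
      · intro k τ hτ
        rw [Real.norm_of_nonneg (term_nonneg hg q _)]
        refine (hb T hT τ k).trans ?_
        have h2 : |τ| ≤ M := by
          have h3 : |τ - τ₀| < 1 := by
            have := Metric.mem_ball.mp hτ
            rwa [Real.dist_eq] at this
          have h4 : |τ| ≤ |τ - τ₀| + |τ₀| := by
            have := abs_add_le (τ - τ₀) τ₀
            simpa using this
          rw [hM]
          linarith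
        refine mul_le_mul_of_nonneg_right ?_ (Real.exp_pos _).le
        refine mul_le_mul_of_nonneg_left (Real.exp_le_exp.mpr ?_) hC.le
        exact mul_le_mul_of_nonneg_left h2 ha.le
    exact h1
  exact hon.continuousAt (Metric.ball_mem_nhds τ₀ one_pos)

theorem Sj_periodic (g T q : ℝ) : Function.Periodic (Sj g T q) T := by
  intro τ
  unfold Sj
  rw [← Equiv.tsum_eq (Equiv.addRight (1 : ℤ))
    (fun k : ℤ => W g (τ + k * T) * Real.exp (q * (τ + k * T)))]
  refine tsum_congr fun k => ?_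
  have h : τ + T + (k : ℝ) * T = τ + (((Equiv.addRight (1 : ℤ)) k : ℤ) : ℝ) * T := by
    simp only [Equiv.coe_addRight]
    push_cast
    ring
  rw [h]

theorem Sj_neg (g T q τ : ℝ) : Sj g T q (-τ) = Sj g T (-q) τ := by
  unfold Sj
  rw [← Equiv.tsum_eq (Equiv.neg ℤ)
    (fun k : ℤ => W g (-τ + k * T) * Real.exp (q * (-τ + k * T)))]
  refine tsum_congr fun k => ?_
  have h : -τ + (((Equiv.neg ℤ) k : ℤ) : ℝ) * T = -(τ + k * T) := by
    simp only [Equiv.neg_apply]
    push_cast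
    ring
  rw [h, W_even]
  congr 2
  ring

theorem Sj_pos {g T q : ℝ} (hg : 0 < g) (hT : 0 < T) (hq : |q| < Real.pi) (τ : ℝ) : 0 < Sj g T q τ := by
  unfold Sj
  exact (Sj_summable hg hT hq τ).tsum_pos (fun k => term_nonneg hg q _) 0
    (mul_pos (W_pos hg _) (Real.exp_pos _))

theorem quad_hasSum {g T θ : ℝ} (hg : 0 < g) (hT : 0 < T) (hθ : 0 < θ) (hθ' : θ < Real.pi / 2) (a b τ : ℝ) :
    HasSum (fun k : ℤ => W g (τ + k * T) * (a * Real.exp (θ * (τ + k * T)) + b * Real.exp (-(θ * (τ + k * T)))) ^ 2)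
      (a ^ 2 * Sj g T (2 * θ) τ + 2 * a * b * Sj g T 0 τ + b ^ 2 * Sj g T (-(2 * θ)) τ) := by
  have h1 : |2 * θ| < Real.pi := by rw [abs_of_pos (by linarith)]; linarith
  have h2 : |-(2 * θ)| < Real.pi := by rw [abs_neg]; exact h1
  have h0 : |(0 : ℝ)| < Real.pi := by rw [abs_zero]; exact Real.pi_pos
  have e1 := (Sj_summable hg hT h1 τ).hasSum.mul_left (a ^ 2)
  have e2 := (Sj_summable hg hT h2 τ).hasSum.mul_left (b ^ 2)
  have e0 := (Sj_summable hg hT h0 τ).hasSum.mul_left (2 * a * b)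
  refine ((e1.add e0).add e2).congr_fun ?_
  intro k
  set u : ℝ := τ + k * T with hu
  have x1 : Real.exp (2 * θ * u) = Real.exp (θ * u) ^ 2 := by
    rw [← Real.exp_nat_mul]; congr 1; push_cast; ring
  have x2 : Real.exp (-(2 * θ) * u) = Real.exp (-(θ * u)) ^ 2 := by
    rw [← Real.exp_nat_mul]; congr 1; push_cast; ring
  have x3 : Real.exp (θ * u) * Real.exp (-(θ * u)) = 1 := by
    rw [← Real.exp_add]; simp
  rw [x1, x2, zero_mul, Real.exp_zero]
  linear_combination (2 * a * b * W g u) * x3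

theorem Sj_quad {g T θ : ℝ} (hg : 0 < g) (hT : 0 < T) (hθ : 0 < θ) (hθ' : θ < Real.pi / 2) (a b τ : ℝ) :
    ∑' k : ℤ, W g (τ + k * T) * (a * Real.exp (θ * (τ + k * T)) + b * Real.exp (-(θ * (τ + k * T)))) ^ 2 =
      a ^ 2 * Sj g T (2 * θ) τ + 2 * a * b * Sj g T 0 τ + b ^ 2 * Sj g T (-(2 * θ)) τ :=
  (quad_hasSum hg hT hθ hθ' a b τ).tsum_eq

theorem Sj_quad_summable {g T θ : ℝ} (hg : 0 < g) (hT : 0 < T) (hθ : 0 < θ) (hθ' : θ < Real.pi / 2) (a b τ : ℝ) :
    Summable (fun k : ℤ => W g (τ + k * T) * (a * Real.exp (θ * (τ + k * T)) + b * Real.exp (-(θ * (τ + k * T)))) ^ 2) :=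
  (quad_hasSum hg hT hθ hθ' a b τ).summable

theorem Sj_quad' {g T θ : ℝ} (hg : 0 < g) (hT : 0 < T) (hθ : 0 < θ) (hθ' : θ < Real.pi / 2) (a b τ : ℝ) :
    ∑' k : ℤ, W g (τ + k * T) * (1 - a * Real.exp (θ * (τ + k * T)) - b * Real.exp (-(θ * (τ + k * T)))) ^ 2 =
      Sj g T 0 τ + a ^ 2 * Sj g T (2 * θ) τ + b ^ 2 * Sj g T (-(2 * θ)) τ - 2 * a * Sj g T θ τ -
        2 * b * Sj g T (-θ) τ + 2 * a * b * Sj g T 0 τ := by
  have h1 : |2 * θ| < Real.pi := by rw [abs_of_pos (by linarith)]; linarith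
  have h2 : |-(2 * θ)| < Real.pi := by rw [abs_neg]; exact h1
  have h0 : |(0 : ℝ)| < Real.pi := by rw [abs_zero]; exact Real.pi_pos
  have h3 : |θ| < Real.pi := by rw [abs_of_pos hθ]; linarith
  have h4 : |-θ| < Real.pi := by rw [abs_neg]; exact h3
  have e1 := (Sj_summable hg hT h1 τ).hasSum.mul_left (a ^ 2)
  have e2 := (Sj_summable hg hT h2 τ).hasSum.mul_left (b ^ 2)
  have e3 := (Sj_summable hg hT h3 τ).hasSum.mul_left (2 * a)
  have e4 := (Sj_summable hg hT h4 τ).hasSum.mul_left (2 * b)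
  have e0 := (Sj_summable hg hT h0 τ).hasSum
  have e5 := (Sj_summable hg hT h0 τ).hasSum.mul_left (2 * a * b)
  refine HasSum.tsum_eq ?_
  refine ((((((e0.add e1).add e2).sub e3).sub e4).add e5)).congr_fun ?_
  intro k
  set u : ℝ := τ + k * T with hu
  have x1 : Real.exp (2 * θ * u) = Real.exp (θ * u) ^ 2 := by
    rw [← Real.exp_nat_mul]; congr 1; push_cast; ring
  have x2 : Real.exp (-(2 * θ) * u) = Real.exp (-(θ * u)) ^ 2 := by
    rw [← Real.exp_nat_mul]; congr 1; push_cast; ring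
  have x3 : Real.exp (θ * u) * Real.exp (-(θ * u)) = 1 := by
    rw [← Real.exp_add]; simp
  have x4 : Real.exp (-θ * u) = Real.exp (-(θ * u)) := by
    congr 1; ring
  rw [x1, x2, x4, zero_mul, Real.exp_zero]
  linear_combination (2 * a * b * W g u) * x3

end Pool.Agent.Lib.MP_70ee11_an.EZ
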