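import Mathlib
import Pool.Agent.Lib.MP_70ee11_an.EZ.Defs
import Pool.Agent.Lib.MP_70ee11_an.EZ.Gam2
import Pool.Agent.Lib.MP_70ee11_an.EZ.Sums

/-!
Module Det. THE 2×2 SYSTEM. P = S_{2θ}, Q = S_{-2θ}, S = S_0, A = S_θ, B = S_{-θ} (at a fixed τ).

PROOF.
* dd_pos: for every real λ, λ²P + 2λS + Q = Σ_k W(τ_k)(λe^{θτ_k} + e^{-θτ_k})² (`Sj_quad` with a = λ, b = 1) is > 0: all
  terms are ≥ 0 and the terms k = 0 and k = 1 cannot both vanish (λ = -e^{-2θτ} and λ = -e^{-2θ(τ+T)} are different).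
  So the discriminant 4S² - 4PQ is negative (`discrim_lt_zero`, P ≠ 0), i.e. dd = PQ - S² > 0.
* eq1/eq2: Cramer: αP + βS = A and αS + βQ = B (field_simp, ring; dd ≠ 0).
* DD ≥ 0: DD = S - αA - βB equals S + α²P + β²Q - 2αA - 2βB + 2αβS by eq1, eq2, which is a sum of squares by `Sj_quad'`.
* DD ≤ S: αA + βB = α²P + 2αβS + β²Q ≥ 0 by eq1, eq2, `Sj_quad`.
* continuity and periodicity of al, be, DD from those of Sj and dd ≠ 0.
* DD_even: Sj_neg gives al(-τ) = be(τ), be(-τ) = al(τ), DD(-τ) = DD(τ).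
* DD_formula: algebra.
-/

set_option linter.style.longLine false

open MeasureTheory Set Filter Topology

namespace Pool.Agent.Lib.MP_70ee11_an.EZ

section
variable {g T θ : ℝ}

theorem dd_pos (hg : 0 < g) (hT : 0 < T) (hθ : 0 < θ) (hθ' : θ < Real.pi / 2) (τ : ℝ) : 0 < dd g T θ τ := by
  have hpi := Real.pi_pos
  have hq2 : |2 * θ| < Real.pi := by rw [abs_of_pos (by positivity)]; linarith
  have hP : 0 < Sj g T (2 * θ) τ := Sj_pos hg hT hq2 τ
  have key : ∀ x : ℝ, 0 < Sj g T (2 * θ) τ * (x * x) + (2 * Sj g T 0 τ) * x + Sj g T (-(2 * θ)) τ := by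
    intro x
    have hq := Sj_quad hg hT hθ hθ' x 1 τ
    have hs := Sj_quad_summable hg hT hθ hθ' x 1 τ
    have hnn : ∀ k : ℤ, 0 ≤ W g (τ + k * T) * (x * Real.exp (θ * (τ + k * T)) +
        1 * Real.exp (-(θ * (τ + k * T)))) ^ 2 := by
      intro k
      exact mul_nonneg (W_pos hg _).le (sq_nonneg _)
    have hex : ∃ k : ℤ, 0 < W g (τ + k * T) * (x * Real.exp (θ * (τ + k * T)) +
        1 * Real.exp (-(θ * (τ + k * T)))) ^ 2 := by
      by_contra hcon
      push Not at hcon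
      have hz : ∀ k : ℤ, x * Real.exp (θ * (τ + k * T)) + Real.exp (-(θ * (τ + k * T))) = 0 := by
        intro k
        have h1 : W g (τ + k * T) * (x * Real.exp (θ * (τ + k * T)) +
          1 * Real.exp (-(θ * (τ + k * T)))) ^ 2 = 0 := le_antisymm (hcon k) (hnn k)
        rcases mul_eq_zero.mp h1 with h2 | h2
        · exact absurd h2 (W_pos hg _).ne'
        · have h3 := pow_eq_zero_iff (two_ne_zero) |>.mp h2
          simpa using h3
      have hlam : ∀ k : ℤ, x = -Real.exp (-(2 * θ * (τ + k * T))) := by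
        intro k
        have h1 := hz k
        have h2 : Real.exp (-(2 * θ * (τ + k * T))) * Real.exp (θ * (τ + k * T)) =
            Real.exp (-(θ * (τ + k * T))) := by
          rw [← Real.exp_add]; congr 1; ring
        have h3 : (x + Real.exp (-(2 * θ * (τ + k * T)))) * Real.exp (θ * (τ + k * T)) = 0 := by
          rw [add_mul, h2]; exact h1
        rcases mul_eq_zero.mp h3 with h4 | h4
        · linarith
        · exact absurd h4 (Real.exp_pos _).ne'
      have h0 := hlam 0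
      have h1 := hlam 1
      have h2 : Real.exp (-(2 * θ * (τ + ((0 : ℤ) : ℝ) * T))) = Real.exp (-(2 * θ * (τ + ((1 : ℤ) : ℝ) * T))) := by
        linarith
      have h3 := Real.exp_injective h2
      push_cast at h3
      have h4 : 2 * θ * T = 0 := by linarith
      have h5 : 0 < 2 * θ * T := by positivity
      linarith
    obtain ⟨k, hk⟩ := hex
    have hpos := hs.tsum_pos hnn k hk
    rw [hq] at hpos
    nlinarith [hpos]
  have hd := discrim_lt_zero hP.ne' key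
  unfold discrim at hd
  unfold dd
  nlinarith [hd]

theorem al_cont (hg : 0 < g) (hT : 0 < T) (hθ : 0 < θ) (hθ' : θ < Real.pi / 2) : Continuous (al g T θ) := by
  have hpi := Real.pi_pos
  have hq2 : |2 * θ| < Real.pi := by rw [abs_of_pos (by positivity)]; linarith
  have hq2' : |(-(2 * θ))| < Real.pi := by rw [abs_neg]; exact hq2
  have hq0 : |(0 : ℝ)| < Real.pi := by simpa using hpi
  have hq1 : |θ| < Real.pi := by rw [abs_of_pos hθ]; linarith
  have hq1' : |(-θ)| < Real.pi := by rw [abs_neg]; exact hq1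
  have c2 := Sj_cont hg hT hq2
  have c2' := Sj_cont hg hT hq2'
  have c0 := Sj_cont hg hT hq0
  have c1 := Sj_cont hg hT hq1
  have c1' := Sj_cont hg hT hq1'
  have hdd : Continuous (dd g T θ) := by
    unfold dd
    exact (c2.mul c2').sub (c0.pow 2)
  unfold al
  exact ((c2'.mul c1).sub (c0.mul c1')).div hdd (fun τ => (dd_pos hg hT hθ hθ' τ).ne')

theorem be_cont (hg : 0 < g) (hT : 0 < T) (hθ : 0 < θ) (hθ' : θ < Real.pi / 2) : Continuous (be g T θ) := by
  have hpi := Real.pi_pos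
  have hq2 : |2 * θ| < Real.pi := by rw [abs_of_pos (by positivity)]; linarith
  have hq2' : |(-(2 * θ))| < Real.pi := by rw [abs_neg]; exact hq2
  have hq0 : |(0 : ℝ)| < Real.pi := by simpa using hpi
  have hq1 : |θ| < Real.pi := by rw [abs_of_pos hθ]; linarith
  have hq1' : |(-θ)| < Real.pi := by rw [abs_neg]; exact hq1
  have c2 := Sj_cont hg hT hq2
  have c2' := Sj_cont hg hT hq2'
  have c0 := Sj_cont hg hT hq0
  have c1 := Sj_cont hg hT hq1
  have c1' := Sj_cont hg hT hq1'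
  have hdd : Continuous (dd g T θ) := by
    unfold dd
    exact (c2.mul c2').sub (c0.pow 2)
  unfold be
  exact ((c2.mul c1').sub (c0.mul c1)).div hdd (fun τ => (dd_pos hg hT hθ hθ' τ).ne')

theorem DD_cont (hg : 0 < g) (hT : 0 < T) (hθ : 0 < θ) (hθ' : θ < Real.pi / 2) : Continuous (DD g T θ) := by
  have hpi := Real.pi_pos
  have hq2 : |2 * θ| < Real.pi := by rw [abs_of_pos (by positivity)]; linarith
  have hq2' : |(-(2 * θ))| < Real.pi := by rw [abs_neg]; exact hq2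
  have hq0 : |(0 : ℝ)| < Real.pi := by simpa using hpi
  have hq1 : |θ| < Real.pi := by rw [abs_of_pos hθ]; linarith
  have hq1' : |(-θ)| < Real.pi := by rw [abs_neg]; exact hq1
  have c2 := Sj_cont hg hT hq2
  have c2' := Sj_cont hg hT hq2'
  have c0 := Sj_cont hg hT hq0
  have c1 := Sj_cont hg hT hq1
  have c1' := Sj_cont hg hT hq1'
  have ha := al_cont hg hT hθ hθ'
  have hb := be_cont hg hT hθ hθ'
  unfold DD
  exact (c0.sub (ha.mul c1)).sub (hb.mul c1')

theorem al_periodic (g T θ : ℝ) : Function.Periodic (al g T θ) T := by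
  intro τ
  unfold al dd
  simp only [(Sj_periodic g T _) τ]

theorem be_periodic (g T θ : ℝ) : Function.Periodic (be g T θ) T := by
  intro τ
  unfold be dd
  simp only [(Sj_periodic g T _) τ]

theorem eq1 (hg : 0 < g) (hT : 0 < T) (hθ : 0 < θ) (hθ' : θ < Real.pi / 2) (τ : ℝ) :
    Sj g T θ τ - al g T θ τ * Sj g T (2 * θ) τ - be g T θ τ * Sj g T 0 τ = 0 := by
  have h := (dd_pos hg hT hθ hθ' τ).ne'
  unfold al be
  field_simp
  unfold dd
  ring

theorem eq2 (hg : 0 < g) (hT : 0 < T) (hθ : 0 < θ) (hθ' : θ < Real.pi / 2) (τ : ℝ) :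
    Sj g T (-θ) τ - al g T θ τ * Sj g T 0 τ - be g T θ τ * Sj g T (-(2 * θ)) τ = 0 := by
  have h := (dd_pos hg hT hθ hθ' τ).ne'
  unfold al be
  field_simp
  unfold dd
  ring_nf

theorem DD_nonneg (hg : 0 < g) (hT : 0 < T) (hθ : 0 < θ) (hθ' : θ < Real.pi / 2) (τ : ℝ) : 0 ≤ DD g T θ τ := by
  have e1 := eq1 hg hT hθ hθ' τ
  have e2 := eq2 hg hT hθ hθ' τ
  have hq := Sj_quad' hg hT hθ hθ' (al g T θ τ) (be g T θ τ) τ
  have hnn : 0 ≤ ∑' k : ℤ, W g (τ + k * T) * (1 - al g T θ τ * Real.exp (θ * (τ + k * T)) -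
      be g T θ τ * Real.exp (-(θ * (τ + k * T)))) ^ 2 :=
    tsum_nonneg (fun k => mul_nonneg (W_pos hg _).le (sq_nonneg _))
  rw [hq] at hnn
  unfold DD
  have h1 : al g T θ τ * (Sj g T θ τ - al g T θ τ * Sj g T (2 * θ) τ - be g T θ τ * Sj g T 0 τ) = 0 := by
    rw [e1, mul_zero]
  have h2 : be g T θ τ * (Sj g T (-θ) τ - al g T θ τ * Sj g T 0 τ - be g T θ τ * Sj g T (-(2 * θ)) τ) = 0 := by
    rw [e2, mul_zero]
  linarith

theorem DD_le (hg : 0 < g) (hT : 0 < T) (hθ : 0 < θ) (hθ' : θ < Real.pi / 2) (τ : ℝ) : DD g T θ τ ≤ Sj g T 0 τ := by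
  have e1 := eq1 hg hT hθ hθ' τ
  have e2 := eq2 hg hT hθ hθ' τ
  have hq := Sj_quad hg hT hθ hθ' (al g T θ τ) (be g T θ τ) τ
  have hnn : 0 ≤ ∑' k : ℤ, W g (τ + k * T) * (al g T θ τ * Real.exp (θ * (τ + k * T)) +
      be g T θ τ * Real.exp (-(θ * (τ + k * T)))) ^ 2 :=
    tsum_nonneg (fun k => mul_nonneg (W_pos hg _).le (sq_nonneg _))
  rw [hq] at hnn
  unfold DD
  have h1 : al g T θ τ * (Sj g T θ τ - al g T θ τ * Sj g T (2 * θ) τ - be g T θ τ * Sj g T 0 τ) = 0 := by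
    rw [e1, mul_zero]
  have h2 : be g T θ τ * (Sj g T (-θ) τ - al g T θ τ * Sj g T 0 τ - be g T θ τ * Sj g T (-(2 * θ)) τ) = 0 := by
    rw [e2, mul_zero]
  nlinarith

theorem DD_formula (hg : 0 < g) (hT : 0 < T) (hθ : 0 < θ) (hθ' : θ < Real.pi / 2) (τ : ℝ) :
    DD g T θ τ = Sj g T 0 τ - (Sj g T (-(2 * θ)) τ * Sj g T θ τ ^ 2 - 2 * Sj g T 0 τ * Sj g T θ τ * Sj g T (-θ) τ +
      Sj g T (2 * θ) τ * Sj g T (-θ) τ ^ 2) / dd g T θ τ := by
  have h := (dd_pos hg hT hθ hθ' τ).ne'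
  unfold DD al be
  field_simp
  ring

end

end Pool.Agent.Lib.MP_70ee11_an.EZ
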