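import Mathlib
import Pool.Agent.Lib.MP_70ee11_an.EZ.Defs
import Pool.Agent.Lib.MP_70ee11_an.EZ.Gam2

/-!
Module LimA. THE CHOICE OF θ FOR A GIVEN T:  R = Σ_{k≥1} W(kT) e^{2θkT}.

PROOF.
* Rs_summable: for 0 ≤ θ < π/2, T > 0: W(kT)e^{2θkT} ≤ C e^{-(ρ-2θ)kT}, 2θ < ρ < π (`W_upper`): geometric.
* exists_theta: on [0,π/2) the function θ ↦ Rs g T θ is continuous (on each [0,θ₁], θ₁ < π/2: `continuousOn_tsum` with the
  bound at θ₁). At θ = 0: Rs g T 0 = Σ_{k≥1} W(kT) ≤ C Σ_{k≥1} e^{-2kT} → 0 as T → ∞ (`W_upper` with ρ = 2), so it is < R for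
  T large. For θ close to π/2: with `W_lower`, W(kT)e^{2θkT} ≥ c e^{-(π-2θ)kT}; take K with cK > 2R and θ₁ < π/2 with
  e^{-(π-2θ₁)KT} ≥ 1/2, so that Rs g T θ₁ ≥ Σ_{k=1}^K c/2 > R. Intermediate value theorem on [0,θ₁]; the solution is > 0
  since Rs g T 0 < R.
* theta_tendsto: given δ > 0 (δ < π/2). If θ_n ≤ π/2 - δ then Rs g T_n θ_n ≤ Σ_{k≥1} C e^{-(ρ-2θ_n)kT_n} with ρ = π - δ:
  ρ - 2θ_n ≥ δ, so R ≤ C Σ_{k≥1} e^{-δkT_n} → 0, impossible for n large. Hence θ_n > π/2 - δ eventually.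
-/

set_option linter.style.longLine false

open MeasureTheory Set Filter Topology

namespace Pool.Agent.Lib.MP_70ee11_an.EZ

/-- Σ_{k≥1} W(kT) e^{2θkT} -/
noncomputable def Rs (g T θ : ℝ) : ℝ := ∑' k : ℕ, W g (((k : ℝ) + 1) * T) * Real.exp (2 * θ * (((k : ℝ) + 1) * T))

/-- the terms are bounded by a geometric sequence -/
theorem Rs_term_le {g C ρ δ T θ : ℝ} (hC : 0 < C) (hT : 0 < T) (hδ : δ ≤ ρ - 2 * θ)
    (h : ∀ τ : ℝ, W g τ ≤ C * Real.exp (-(ρ * |τ|))) (k : ℕ) :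
    W g (((k : ℝ) + 1) * T) * Real.exp (2 * θ * (((k : ℝ) + 1) * T)) ≤
      C * (Real.exp (-(δ * T)) ^ k * Real.exp (-(δ * T))) := by
  have h0 : (0 : ℝ) ≤ ((k : ℝ) + 1) * T := by positivity
  have h1 := h (((k : ℝ) + 1) * T)
  rw [abs_of_nonneg h0] at h1
  calc W g (((k : ℝ) + 1) * T) * Real.exp (2 * θ * (((k : ℝ) + 1) * T))
      ≤ C * Real.exp (-(ρ * (((k : ℝ) + 1) * T))) * Real.exp (2 * θ * (((k : ℝ) + 1) * T)) := by
        gcongr
    _ = C * Real.exp (-((ρ - 2 * θ) * (((k : ℝ) + 1) * T))) := by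
        rw [mul_assoc, ← Real.exp_add]
        congr 2
        ring
    _ ≤ C * Real.exp (-(δ * (((k : ℝ) + 1) * T))) := by
        have : δ * (((k : ℝ) + 1) * T) ≤ (ρ - 2 * θ) * (((k : ℝ) + 1) * T) :=
          mul_le_mul_of_nonneg_right hδ h0
        gcongr
    _ = C * (Real.exp (-(δ * T)) ^ k * Real.exp (-(δ * T))) := by
        rw [← Real.exp_nat_mul, ← Real.exp_add]
        congr 2
        ring

theorem Rs_term_nonneg {g : ℝ} (hg : 0 < g) (T θ : ℝ) (k : ℕ) :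
    0 ≤ W g (((k : ℝ) + 1) * T) * Real.exp (2 * θ * (((k : ℝ) + 1) * T)) :=
  mul_nonneg (W_pos hg _).le (Real.exp_pos _).le

theorem geom_summable {C δ T : ℝ} (hδ : 0 < δ) (hT : 0 < T) :
    Summable (fun k : ℕ => C * (Real.exp (-(δ * T)) ^ k * Real.exp (-(δ * T)))) := by
  refine Summable.mul_left _ (Summable.mul_right _ (summable_geometric_of_lt_one (Real.exp_pos _).le ?_))
  rw [Real.exp_lt_one_iff]
  have : 0 < δ * T := by positivity
  linarith

theorem Rs_summable {g T θ : ℝ} (hg : 0 < g) (hT : 0 < T) (hθ : θ < Real.pi / 2) :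
    Summable (fun k : ℕ => W g (((k : ℝ) + 1) * T) * Real.exp (2 * θ * (((k : ℝ) + 1) * T))) := by
  obtain ⟨C, hC, h⟩ := W_upper hg (show θ + Real.pi / 2 < Real.pi by linarith)
  have hδ : 0 < Real.pi / 2 - θ := by linarith
  exact Summable.of_nonneg_of_le (fun k => Rs_term_nonneg hg T θ k)
    (fun k => Rs_term_le hC hT (show Real.pi / 2 - θ ≤ θ + Real.pi / 2 - 2 * θ by linarith) h k)
    (geom_summable hδ hT)

/-- uniform smallness away from `π/2` -/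
theorem Rs_small {g δ ε : ℝ} (hg : 0 < g) (hδ : 0 < δ) (hε : 0 < ε) :
    ∀ᶠ T : ℝ in atTop, ∀ θ : ℝ, θ ≤ Real.pi / 2 - δ → Rs g T θ < ε := by
  obtain ⟨C, hC, h⟩ := W_upper hg (show Real.pi - δ < Real.pi by linarith)
  have hlim : Tendsto (fun T : ℝ => C * ((1 - Real.exp (-(δ * T)))⁻¹ * Real.exp (-(δ * T)))) atTop
      (𝓝 (C * ((1 - 0)⁻¹ * 0))) := by
    have h1 : Tendsto (fun T : ℝ => Real.exp (-(δ * T))) atTop (𝓝 0) :=
      Real.tendsto_exp_neg_atTop_nhds_zero.comp (tendsto_id.const_mul_atTop hδ)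
    exact ((((tendsto_const_nhds.sub h1).inv₀ (by norm_num)).mul h1)).const_mul C
  rw [mul_zero, mul_zero] at hlim
  filter_upwards [hlim.eventually (gt_mem_nhds hε), eventually_gt_atTop 0] with T h1 hT θ hθ
  refine lt_of_le_of_lt ?_ h1
  have hlt : Real.exp (-(δ * T)) < 1 := by
    rw [Real.exp_lt_one_iff]
    have : 0 < δ * T := by positivity
    linarith
  rw [← tsum_geometric_of_lt_one (Real.exp_pos _).le hlt, ← tsum_mul_right, ← tsum_mul_left]
  exact Summable.tsum_le_tsum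
    (fun k => Rs_term_le hC hT (show δ ≤ Real.pi - δ - 2 * θ by linarith) h k)
    (Rs_summable hg hT (by linarith)) (geom_summable hδ hT)

theorem Rs_continuousOn {g T θ₁ : ℝ} (hg : 0 < g) (hT : 0 < T) (hθ : θ₁ < Real.pi / 2) :
    ContinuousOn (fun θ => Rs g T θ) (Icc 0 θ₁) := by
  unfold Rs
  refine continuousOn_tsum (u := fun k : ℕ => W g (((k : ℝ) + 1) * T) *
    Real.exp (2 * θ₁ * (((k : ℝ) + 1) * T))) (fun k => by fun_prop) (Rs_summable hg hT hθ) ?_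
  intro k θ hθ'
  have hW := W_pos hg (((k : ℝ) + 1) * T)
  have h0 : (0 : ℝ) ≤ ((k : ℝ) + 1) * T := by positivity
  rw [Real.norm_of_nonneg (Rs_term_nonneg hg T θ k)]
  have : 2 * θ * (((k : ℝ) + 1) * T) ≤ 2 * θ₁ * (((k : ℝ) + 1) * T) :=
    mul_le_mul_of_nonneg_right (by linarith [hθ'.2]) h0
  gcongr

theorem exists_theta {g R : ℝ} (hg : 1 ≤ g) (hR : 0 < R) :
    ∀ᶠ T : ℝ in atTop, ∃ θ : ℝ, 0 < θ ∧ θ < Real.pi / 2 ∧ Rs g T θ = R := by
  have hpi := Real.pi_pos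
  have hg0 : 0 < g := by linarith
  obtain ⟨c, hc, hlow⟩ := W_lower hg
  filter_upwards [Rs_small hg0 (show 0 < Real.pi / 2 by linarith) hR, eventually_gt_atTop 0]
    with T h1 hT
  have h10 : Rs g T 0 < R := h1 0 (by linarith)
  obtain ⟨K, hK⟩ := exists_nat_gt (2 * R / c)
  have hK0 : (0 : ℝ) < K := lt_trans (by positivity) hK
  have hKR : R < (K : ℝ) * (c * (1 / 2)) := by
    rw [div_lt_iff₀ hc] at hK
    linarith
  set ε : ℝ := min (Real.pi / 4) (1 / (4 * (K * T))) with hεdef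
  have hε0 : 0 < ε := lt_min (by linarith) (by positivity)
  have hε1 : ε ≤ Real.pi / 4 := min_le_left _ _
  have hε2 : ε * (K * T) ≤ 1 / 4 := by
    have h2 : ε ≤ 1 / (4 * (K * T)) := min_le_right _ _
    rw [le_div_iff₀ (by positivity)] at h2
    linarith
  set θ₁ : ℝ := Real.pi / 2 - ε with hθ₁
  have hθ₁lt : θ₁ < Real.pi / 2 := by linarith
  have hθ₁0 : 0 ≤ θ₁ := by linarith
  have hbig : R ≤ Rs g T θ₁ := by
    refine le_trans hKR.le ?_
    have h3 : ∑ k ∈ Finset.range K, W g (((k : ℝ) + 1) * T) *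
        Real.exp (2 * θ₁ * (((k : ℝ) + 1) * T)) ≤ Rs g T θ₁ :=
      (Rs_summable hg0 hT hθ₁lt).sum_le_tsum _ (fun k _ => Rs_term_nonneg hg0 T θ₁ k)
    refine le_trans ?_ h3
    have h4 : ∀ k ∈ Finset.range K, c * (1 / 2) ≤ W g (((k : ℝ) + 1) * T) *
        Real.exp (2 * θ₁ * (((k : ℝ) + 1) * T)) := by
      intro k hk
      have hkK : (k : ℝ) + 1 ≤ K := by
        have := Finset.mem_range.1 hk
        exact_mod_cast this
      have h0 : (0 : ℝ) ≤ ((k : ℝ) + 1) * T := by positivity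
      have h5 := hlow (((k : ℝ) + 1) * T)
      rw [abs_of_nonneg h0] at h5
      calc c * (1 / 2) ≤ c * Real.exp (-(2 * ε * (((k : ℝ) + 1) * T))) := by
            have h6 : 2 * ε * (((k : ℝ) + 1) * T) ≤ 1 / 2 := by
              have : ε * (((k : ℝ) + 1) * T) ≤ ε * (K * T) := by gcongr
              linarith
            have h7 := Real.add_one_le_exp (-(2 * ε * (((k : ℝ) + 1) * T)))
            have h8 : 1 / 2 ≤ Real.exp (-(2 * ε * (((k : ℝ) + 1) * T))) := by linarith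
            gcongr
        _ = c * Real.exp (-(Real.pi * (((k : ℝ) + 1) * T))) *
            Real.exp (2 * θ₁ * (((k : ℝ) + 1) * T)) := by
            rw [mul_assoc c, ← Real.exp_add]
            congr 2
            rw [hθ₁]
            ring
        _ ≤ _ := by gcongr
    have h9 := Finset.card_nsmul_le_sum (Finset.range K) _ _ h4
    rw [Finset.card_range, nsmul_eq_mul] at h9
    exact h9
  obtain ⟨θ, hθmem, hθeq⟩ := intermediate_value_Icc hθ₁0 (Rs_continuousOn hg0 hT hθ₁lt)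
    (show R ∈ Icc (Rs g T 0) (Rs g T θ₁) from ⟨h10.le, hbig⟩)
  refine ⟨θ, ?_, lt_of_le_of_lt hθmem.2 hθ₁lt, hθeq⟩
  rcases hθmem.1.eq_or_lt with h | h
  · exfalso
    rw [← h] at hθeq
    simp only at hθeq
    linarith
  · exact h

theorem theta_tendsto {g R : ℝ} (hg : 1 ≤ g) (hR : 0 < R) {T θ : ℕ → ℝ} (hT : Tendsto T atTop atTop)
    (hθ : ∀ n, 0 < θ n ∧ θ n < Real.pi / 2) (hRs : ∀ n, Rs g (T n) (θ n) = R) :
    Tendsto θ atTop (𝓝 (Real.pi / 2)) := by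
  rw [Metric.tendsto_atTop']
  intro δ hδ
  have h1 := hT.eventually (Rs_small (show 0 < g by linarith) hδ hR)
  obtain ⟨N, hN⟩ := eventually_atTop.1 h1
  refine ⟨N, fun n hn => ?_⟩
  have h2 := hN n hn.le
  rw [Real.dist_eq, abs_lt]
  have h3 := (hθ n).2
  constructor
  · by_contra hcon
    have h4 := h2 (θ n) (by linarith)
    rw [hRs n] at h4
    exact lt_irrefl _ h4
  · linarith

end Pool.Agent.Lib.MP_70ee11_an.EZ
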