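import Mathlib
import Pool.Agent.Lib.MP_70ee11_an.EZ.Defs
import Pool.Agent.Lib.MP_70ee11_an.EZ.Gam2
import Pool.Agent.Lib.MP_70ee11_an.EZ.Sums

/-!
Module LimB. POINTWISE LIMITS OF S_q FOR |q| ≤ π/2, AND THE DOMINATION OF S_0.

PROOF. `W_upper` with ρ = 3 (< π): W(τ) ≤ C e^{-3|τ|}; for |q| ≤ π/2 (< 2) each term is ≤ C e^{-|τ+kT|}.
* Sj_lim: the term k = 0 is W(τ)e^{q_nτ} → W(τ)e^{q₀τ}. The others: for T ≥ 1, T ≥ 2|τ| and k ≠ 0, |τ+kT| ≥ |k|T/2, so the sum over k ≠ 0 is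
  ≤ 2C Σ_{k≥1} e^{-kT/2} = 2C e^{-T/2}/(1-e^{-T/2}) → 0. (Or: `tendsto_tsum_of_dominated_convergence` with the bound
  C e^{|τ|} e^{-|k|} for T ≥ 1, each term k ≠ 0 tends to 0.)
* S0_bound: for T ≥ 1, |τ| ≤ T/2 and every k: |τ+kT| ≥ |τ| and |τ+kT| ≥ |k|T/2 ≥ |k|/2, so
  W(τ+kT) ≤ C e^{-3|τ+kT|} ≤ C e^{-|τ|} e^{-|k|/2}; sum over k.
-/

set_option linter.style.longLine false

open MeasureTheory Set Filter Topology

namespace Pool.Agent.Lib.MP_70ee11_an.EZ

theorem shift_lower {T : ℝ} (hT : 0 ≤ T) (τ : ℝ) (k : ℤ) : |(k : ℝ)| * T - |τ| ≤ |τ + k * T| := by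
  have h1 : |(k : ℝ) * T| = |(k : ℝ)| * T := by rw [abs_mul, abs_of_nonneg hT]
  have h2 : |(k : ℝ) * T| ≤ |τ + k * T| + |τ| := by
    have h3 : (k : ℝ) * T = (τ + k * T) - τ := by ring
    conv_lhs => rw [h3]
    exact abs_sub _ _
  rw [h1] at h2
  linarith

theorem term_half {g C : ℝ} (hC : 0 < C) (hW : ∀ τ : ℝ, W g τ ≤ C * Real.exp (-(3 * |τ|)))
    {q : ℝ} (hq : |q| ≤ Real.pi / 2) (u : ℝ) : W g u * Real.exp (q * u) ≤ C * Real.exp (-|u|) := by
  have hpi : Real.pi < 3.15 := Real.pi_lt_d2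
  have h2 : Real.exp (q * u) ≤ Real.exp (2 * |u|) := by
    apply Real.exp_le_exp.mpr
    calc q * u ≤ |q * u| := le_abs_self _
      _ = |q| * |u| := abs_mul _ _
      _ ≤ 2 * |u| := by
        apply mul_le_mul_of_nonneg_right _ (abs_nonneg u)
        linarith
  calc W g u * Real.exp (q * u) ≤ (C * Real.exp (-(3 * |u|))) * Real.exp (2 * |u|) :=
        mul_le_mul (hW u) h2 (Real.exp_pos _).le (by positivity)
    _ = C * Real.exp (-|u|) := by
        rw [mul_assoc, ← Real.exp_add]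
        congr 2
        ring

theorem one_le_abs_int {k : ℤ} (hk : k ≠ 0) : (1 : ℝ) ≤ |(k : ℝ)| := by
  have h : (1 : ℤ) ≤ |k| := Int.one_le_abs hk
  exact_mod_cast h

theorem Sj_lim {g : ℝ} (hg : 0 < g) {T q : ℕ → ℝ} {q0 : ℝ} (hT : Tendsto T atTop atTop)
    (hq : ∀ n, |q n| ≤ Real.pi / 2) (hq0 : Tendsto q atTop (𝓝 q0)) (τ : ℝ) :
    Tendsto (fun n => Sj g (T n) (q n) τ) atTop (𝓝 (W g τ * Real.exp (q0 * τ))) := by
  obtain ⟨C, hC, hW⟩ := W_upper hg (ρ := 3) Real.pi_gt_three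
  have hterm := fun (n : ℕ) (u : ℝ) => term_half hC hW (hq n) u
  have hlim : W g τ * Real.exp (q0 * τ) =
      ∑' k : ℤ, if k = 0 then W g τ * Real.exp (q0 * τ) else 0 := by
    rw [tsum_ite_eq]
  rw [hlim]
  have hsum : Summable (fun k : ℤ => C * Real.exp |τ| * Real.exp (-(1 * |(k : ℝ)|))) :=
    (exp_int_summable one_pos).mul_left _
  refine tendsto_tsum_of_dominated_convergence hsum ?_ ?_
  · intro k
    by_cases hk : k = 0
    · subst hk
      simp only [Int.cast_zero, zero_mul, add_zero, if_true]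
      refine Tendsto.const_mul _ ?_
      exact (Real.continuous_exp.tendsto _).comp (hq0.mul_const τ)
    · rw [if_neg hk]
      have h1 : Tendsto (fun n => C * Real.exp |τ| * Real.exp (-(T n))) atTop (𝓝 0) := by
        have h2 : Tendsto (fun n => Real.exp (-(T n))) atTop (𝓝 0) :=
          Real.tendsto_exp_neg_atTop_nhds_zero.comp hT
        have h3 := h2.const_mul (C * Real.exp |τ|)
        rwa [mul_zero] at h3
      refine tendsto_of_tendsto_of_tendsto_of_le_of_le' tendsto_const_nhds h1 ?_ ?_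
      · exact Filter.Eventually.of_forall fun n => term_nonneg hg _ _
      · filter_upwards [hT.eventually_ge_atTop 0] with n hn
        refine (hterm n _).trans ?_
        rw [mul_assoc, ← Real.exp_add]
        apply mul_le_mul_of_nonneg_left _ hC.le
        apply Real.exp_le_exp.mpr
        have h4 := shift_lower hn τ k
        have h5 := one_le_abs_int hk
        have h6 : T n ≤ |(k : ℝ)| * T n := le_mul_of_one_le_left hn h5
        linarith
  · filter_upwards [hT.eventually_ge_atTop 1] with n hn k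
    rw [Real.norm_of_nonneg (term_nonneg hg _ _)]
    refine (hterm n _).trans ?_
    rw [mul_assoc, ← Real.exp_add]
    apply mul_le_mul_of_nonneg_left _ hC.le
    apply Real.exp_le_exp.mpr
    have h4 := shift_lower (by linarith : (0 : ℝ) ≤ T n) τ k
    have h6 : |(k : ℝ)| ≤ |(k : ℝ)| * T n := le_mul_of_one_le_right (abs_nonneg _) hn
    linarith

theorem S0_bound {g : ℝ} (hg : 0 < g) :
    ∃ C : ℝ, 0 < C ∧ ∀ T : ℝ, 1 ≤ T → ∀ τ : ℝ, |τ| ≤ T / 2 → Sj g T 0 τ ≤ C * Real.exp (-|τ|) := by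
  obtain ⟨C, hC, hW⟩ := W_upper hg (ρ := 3) Real.pi_gt_three
  have hs : Summable (fun k : ℤ => Real.exp (-(1 / 2 * |(k : ℝ)|))) :=
    exp_int_summable (by norm_num)
  have hpos : 0 < ∑' k : ℤ, Real.exp (-(1 / 2 * |(k : ℝ)|)) :=
    hs.tsum_pos (fun k => (Real.exp_pos _).le) 0 (Real.exp_pos _)
  refine ⟨C * ∑' k : ℤ, Real.exp (-(1 / 2 * |(k : ℝ)|)), mul_pos hC hpos, fun T hT τ hτ => ?_⟩
  have hT0 : (0 : ℝ) < T := by linarith
  have h0 : |(0 : ℝ)| < Real.pi := by rw [abs_zero]; exact Real.pi_pos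
  have e : C * (∑' k : ℤ, Real.exp (-(1 / 2 * |(k : ℝ)|))) * Real.exp (-|τ|) =
      ∑' k : ℤ, C * Real.exp (-|τ|) * Real.exp (-(1 / 2 * |(k : ℝ)|)) := by
    rw [tsum_mul_left]
    ring
  rw [e]
  unfold Sj
  refine (Sj_summable hg hT0 h0 τ).tsum_le_tsum (fun k => ?_) (hs.mul_left _)
  rw [zero_mul, Real.exp_zero, mul_one]
  refine (hW _).trans ?_
  rw [mul_assoc, ← Real.exp_add]
  apply mul_le_mul_of_nonneg_left _ hC.le
  apply Real.exp_le_exp.mpr
  have h4 := shift_lower hT0.le τ k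
  have hu := abs_nonneg (τ + k * T)
  by_cases hk : k = 0
  · subst hk
    simp only [Int.cast_zero, zero_mul, add_zero, abs_zero, mul_zero] at *
    linarith
  · have h5 := one_le_abs_int hk
    have h6 : T ≤ |(k : ℝ)| * T := le_mul_of_one_le_left hT0.le h5
    have h7 : |(k : ℝ)| * 1 ≤ |(k : ℝ)| * T := mul_le_mul_of_nonneg_left hT (abs_nonneg _)
    nlinarith

end Pool.Agent.Lib.MP_70ee11_an.EZ
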