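import Mathlib
import Pool.Agent.Lib.MP_70ee11_an.EZ.Defs
import Pool.Agent.Lib.MP_70ee11_an.EZ.Gam1
import Pool.Agent.Lib.MP_70ee11_an.EZ.Gam2

/-!
Module Gam3. THE RATIO LIMIT  W(s+τ)/W(s) → e^{-πτ}  as s → +∞  (g ≥ 1).

PROOF. Case τ ≥ 0, s > 0. Choose m with g/2 ≤ m + 1/2. `gamma_ratio` with (σ,σ') = (1/2, g/2), (s, s+τ) gives
   ‖Γ(1/2+i(s+τ))‖/‖Γ(1/2+is)‖ ≤ ‖Γ(g/2+i(s+τ))‖/‖Γ(g/2+is)‖ ,
and with (σ,σ') = (g/2, m+1/2):
   ‖Γ(g/2+i(s+τ))‖/‖Γ(g/2+is)‖ ≤ ‖Γ(m+1/2+i(s+τ))‖/‖Γ(m+1/2+is)‖ .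
Squaring and using `norm_half`, `norm_half_nat`:
   cosh(πs)/cosh(π(s+τ)) ≤ W(s+τ)/W(s) ≤ ∏_{j<m} ((j+1/2)²+(s+τ)²)/((j+1/2)²+s²) · cosh(πs)/cosh(π(s+τ)).
As s → ∞: cosh(πs)/cosh(π(s+τ)) = (e^{πs}+e^{-πs})/(e^{πs+πτ}+e^{-πs-πτ}) → e^{-πτ}, and each of the m quotients → 1.
Squeeze (`tendsto_of_tendsto_of_tendsto_of_le_of_le'`).
Case τ < 0: put s' = s + τ → ∞, then W(s+τ)/W(s) = (W(s' + (-τ))/W(s'))⁻¹ → (e^{πτ})⁻¹ = e^{-πτ}.
-/

set_option linter.style.longLine false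

open MeasureTheory Set Filter Topology

namespace Pool.Agent.Lib.MP_70ee11_an.EZ

theorem cosh_ratio (τ : ℝ) :
    Tendsto (fun s : ℝ => Real.cosh (Real.pi * s) / Real.cosh (Real.pi * (s + τ))) atTop (𝓝 (Real.exp (-(Real.pi * τ)))) := by
  have hpi := Real.pi_pos
  have h0 : Tendsto (fun s : ℝ => Real.exp (-(2 * Real.pi * s))) atTop (𝓝 0) := by
    apply Real.tendsto_exp_neg_atTop_nhds_zero.comp
    exact tendsto_id.const_mul_atTop (by positivity)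
  have h1 : (fun s : ℝ => Real.cosh (Real.pi * s) / Real.cosh (Real.pi * (s + τ))) =
      fun s : ℝ => (1 + Real.exp (-(2 * Real.pi * s))) / (Real.exp (Real.pi * τ) + Real.exp (-(Real.pi * τ)) * Real.exp (-(2 * Real.pi * s))) := by
    funext s
    rw [Real.cosh_eq, Real.cosh_eq]
    have e1 : Real.exp (-(2 * Real.pi * s)) = Real.exp (-(Real.pi * s)) / Real.exp (Real.pi * s) := by
      rw [← Real.exp_sub]; congr 1; ring
    have e2 : Real.exp (Real.pi * (s + τ)) = Real.exp (Real.pi * s) * Real.exp (Real.pi * τ) := by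
      rw [← Real.exp_add]; congr 1; ring
    have e3 : Real.exp (-(Real.pi * (s + τ))) = Real.exp (-(Real.pi * s)) * Real.exp (-(Real.pi * τ)) := by
      rw [← Real.exp_add]; congr 1; ring
    rw [e1, e2, e3]
    have p1 := Real.exp_pos (Real.pi * s)
    have p2 := Real.exp_pos (-(Real.pi * s))
    have p3 := Real.exp_pos (Real.pi * τ)
    have p4 := Real.exp_pos (-(Real.pi * τ))
    rw [div_div_div_cancel_right₀ (by norm_num), div_eq_div_iff (by positivity) (by positivity)]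
    field_simp
  rw [h1]
  have h2 : Tendsto (fun s : ℝ => (1 + Real.exp (-(2 * Real.pi * s))) / (Real.exp (Real.pi * τ) + Real.exp (-(Real.pi * τ)) * Real.exp (-(2 * Real.pi * s)))) atTop
      (𝓝 ((1 + 0) / (Real.exp (Real.pi * τ) + Real.exp (-(Real.pi * τ)) * 0))) := by
    apply Tendsto.div
    · exact tendsto_const_nhds.add h0
    · exact tendsto_const_nhds.add (tendsto_const_nhds.mul h0)
    · have := Real.exp_pos (Real.pi * τ); simp
  have h3 : (1 + 0) / (Real.exp (Real.pi * τ) + Real.exp (-(Real.pi * τ)) * 0) = Real.exp (-(Real.pi * τ)) := by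
    rw [Real.exp_neg]; simp
  rw [h3] at h2
  exact h2

theorem quad_ratio (a τ : ℝ) (ha : 0 < a) :
    Tendsto (fun s : ℝ => (a ^ 2 + (s + τ) ^ 2) / (a ^ 2 + s ^ 2)) atTop (𝓝 1) := by
  have h1 : (fun s : ℝ => (a ^ 2 + (s + τ) ^ 2) / (a ^ 2 + s ^ 2)) = fun s : ℝ => 1 + (2 * τ * s + τ ^ 2) / (a ^ 2 + s ^ 2) := by
    funext s
    have : a ^ 2 + s ^ 2 ≠ 0 := by positivity
    field_simp
    ring
  rw [h1]
  have h2 : Tendsto (fun s : ℝ => (2 * τ * s + τ ^ 2) / (a ^ 2 + s ^ 2)) atTop (𝓝 0) := by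
    have h3 : Tendsto (fun s : ℝ => (2 * |τ| + τ ^ 2) * s⁻¹) atTop (𝓝 0) := by
      have h := (tendsto_inv_atTop_zero (𝕜 := ℝ)).const_mul (2 * |τ| + τ ^ 2)
      rw [mul_zero] at h
      exact h
    apply squeeze_zero_norm' _ h3
    filter_upwards [eventually_ge_atTop 1] with s hs
    rw [Real.norm_eq_abs, abs_div, abs_of_pos (by positivity : 0 < a ^ 2 + s ^ 2), ← div_eq_mul_inv, div_le_div_iff₀ (by positivity) (by positivity)]
    have h4 : |2 * τ * s + τ ^ 2| ≤ 2 * |τ| * s + τ ^ 2 := by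
      calc |2 * τ * s + τ ^ 2| ≤ |2 * τ * s| + |τ ^ 2| := abs_add_le _ _
        _ = 2 * |τ| * s + τ ^ 2 := by rw [abs_mul, abs_mul, abs_of_pos (by linarith : 0 < s), abs_of_nonneg (sq_nonneg τ)]; norm_num
    have h5 : 0 ≤ |τ| := abs_nonneg τ
    calc |2 * τ * s + τ ^ 2| * s ≤ (2 * |τ| * s + τ ^ 2) * s := by gcongr
      _ ≤ (2 * |τ| + τ ^ 2) * (a ^ 2 + s ^ 2) := by
        have : (2 * |τ| + τ ^ 2) * (a ^ 2 + s ^ 2) - (2 * |τ| * s + τ ^ 2) * s = (2 * |τ| + τ ^ 2) * a ^ 2 + τ ^ 2 * (s ^ 2 - s) := by ring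
        have h6 : 0 ≤ (2 * |τ| + τ ^ 2) * a ^ 2 := by positivity
        have h7 : 0 ≤ τ ^ 2 * (s ^ 2 - s) := by
          apply mul_nonneg (sq_nonneg _); nlinarith
        linarith
  simpa using h2.const_add 1

theorem ratio_nonneg {g : ℝ} (hg : 1 ≤ g) {τ : ℝ} (hτ : 0 ≤ τ) :
    Tendsto (fun s : ℝ => W g (s + τ) / W g s) atTop (𝓝 (Real.exp (-(Real.pi * τ)))) := by
  obtain ⟨m, hm⟩ := exists_nat_ge (g / 2)
  have hg0 : 0 < g := by linarith
  have hGne : ∀ σ t : ℝ, 0 < σ → 0 < ‖Complex.Gamma ((σ : ℂ) + (t : ℂ) * Complex.I)‖ := by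
    intro σ t hσ
    apply norm_pos_iff.mpr
    apply Complex.Gamma_ne_zero_of_re_pos
    simpa using hσ
  have hW : ∀ s : ℝ, W g (s + τ) / W g s = ‖Complex.Gamma (((g / 2 : ℝ) : ℂ) + ((s + τ : ℝ) : ℂ) * Complex.I)‖ ^ 2 /
      ‖Complex.Gamma (((g / 2 : ℝ) : ℂ) + (s : ℂ) * Complex.I)‖ ^ 2 := by
    intro s
    unfold W
    have : Real.Gamma g ≠ 0 := (Real.Gamma_pos_of_pos hg0).ne'
    rw [div_div_div_cancel_right₀ this]
  have hupper : Tendsto (fun s : ℝ => (∏ j ∈ Finset.range m, ((((j : ℝ) + 1 / 2) ^ 2 + (s + τ) ^ 2) / (((j : ℝ) + 1 / 2) ^ 2 + s ^ 2))) *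
      (Real.cosh (Real.pi * s) / Real.cosh (Real.pi * (s + τ)))) atTop (𝓝 (1 * Real.exp (-(Real.pi * τ)))) := by
    apply Tendsto.mul _ (cosh_ratio τ)
    have := tendsto_finsetProd (Finset.range m) (fun j _ => quad_ratio ((j : ℝ) + 1 / 2) τ (by positivity))
    simpa using this
  rw [one_mul] at hupper
  refine tendsto_of_tendsto_of_tendsto_of_le_of_le' (cosh_ratio τ) hupper ?_ ?_
  · filter_upwards [eventually_ge_atTop 0] with s hs
    rw [hW s]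
    have h1 := gamma_ratio (σ := 1 / 2) (σ' := g / 2) (s := s) (t := s + τ) (by norm_num) (by linarith) hs (by linarith)
    have n1 := norm_half s
    have n2 := norm_half (s + τ)
    have p1 := hGne (g / 2) s (by linarith)
    have p2 := hGne (g / 2) (s + τ) (by linarith)
    have p3 := hGne (1 / 2) s (by norm_num)
    have p4 := hGne (1 / 2) (s + τ) (by norm_num)
    have hc1 := Real.cosh_pos (Real.pi * s)
    have hc2 := Real.cosh_pos (Real.pi * (s + τ))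
    have e : Real.cosh (Real.pi * s) / Real.cosh (Real.pi * (s + τ)) =
        ‖Complex.Gamma (((1 / 2 : ℝ) : ℂ) + ((s + τ : ℝ) : ℂ) * Complex.I)‖ ^ 2 / ‖Complex.Gamma (((1 / 2 : ℝ) : ℂ) + (s : ℂ) * Complex.I)‖ ^ 2 := by
      rw [n1, n2]
      have := Real.pi_pos
      field_simp
    rw [e, ← div_pow, ← div_pow]
    apply pow_le_pow_left₀ (by positivity)
    rw [div_le_div_iff₀ p3 p1]
    linarith
  · filter_upwards [eventually_ge_atTop 0] with s hs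
    rw [hW s]
    have h1 := gamma_ratio (σ := g / 2) (σ' := (m : ℝ) + 1 / 2) (s := s) (t := s + τ) (by linarith) (by linarith) hs (by linarith)
    have n1 := norm_half_nat m s
    have n2 := norm_half_nat m (s + τ)
    have p1 := hGne (g / 2) s (by linarith)
    have p2 := hGne (g / 2) (s + τ) (by linarith)
    have p3 := hGne ((m : ℝ) + 1 / 2) s (by positivity)
    have p4 := hGne ((m : ℝ) + 1 / 2) (s + τ) (by positivity)
    have hc1 := Real.cosh_pos (Real.pi * s)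
    have hc2 := Real.cosh_pos (Real.pi * (s + τ))
    have e : (∏ j ∈ Finset.range m, ((((j : ℝ) + 1 / 2) ^ 2 + (s + τ) ^ 2) / (((j : ℝ) + 1 / 2) ^ 2 + s ^ 2))) *
      (Real.cosh (Real.pi * s) / Real.cosh (Real.pi * (s + τ))) =
        ‖Complex.Gamma ((((m : ℝ) + 1 / 2 : ℝ) : ℂ) + ((s + τ : ℝ) : ℂ) * Complex.I)‖ ^ 2 / ‖Complex.Gamma ((((m : ℝ) + 1 / 2 : ℝ) : ℂ) + (s : ℂ) * Complex.I)‖ ^ 2 := by
      rw [n1, n2, Finset.prod_div_distrib]
      have := Real.pi_pos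
      have hp : 0 < ∏ j ∈ Finset.range m, (((j : ℝ) + 1 / 2) ^ 2 + s ^ 2) := Finset.prod_pos (fun j _ => by positivity)
      generalize (∏ j ∈ Finset.range m, (((j : ℝ) + 1 / 2) ^ 2 + s ^ 2)) = A at hp ⊢
      generalize (∏ j ∈ Finset.range m, (((j : ℝ) + 1 / 2) ^ 2 + (s + τ) ^ 2)) = B
      field_simp
    rw [e, ← div_pow, ← div_pow]
    apply pow_le_pow_left₀ (by positivity)
    rw [div_le_div_iff₀ p1 p3]
    linarith

theorem W_ratio {g : ℝ} (hg : 1 ≤ g) (τ : ℝ) :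
    Tendsto (fun s : ℝ => W g (s + τ) / W g s) atTop (𝓝 (Real.exp (-(Real.pi * τ)))) := by
  rcases le_or_gt 0 τ with hτ | hτ
  · exact ratio_nonneg hg hτ
  · have h1 := ratio_nonneg hg (τ := -τ) (by linarith)
    have h2 : Tendsto (fun s : ℝ => s + τ) atTop atTop := tendsto_atTop_add_const_right _ _ tendsto_id
    have h3 := (h1.comp h2).inv₀ (Real.exp_pos _).ne'
    have h4 : (Real.exp (-(Real.pi * -τ)))⁻¹ = Real.exp (-(Real.pi * τ)) := by
      rw [← Real.exp_neg]; congr 1; ring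
    rw [h4] at h3
    refine h3.congr (fun s => ?_)
    simp only [Function.comp]
    rw [inv_div]
    congr 2
    ring

end Pool.Agent.Lib.MP_70ee11_an.EZ
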