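import Mathlib
import Pool.Agent.Lib.MP_70ee11_an.EZ.Defs
import Pool.Agent.Lib.MP_70ee11_an.EZ.Gam2
import Pool.Agent.Lib.MP_70ee11_an.EZ.Gam3
import Pool.Agent.Lib.MP_70ee11_an.EZ.Sums
import Pool.Agent.Lib.MP_70ee11_an.EZ.LimA

/-!
Module LimC. POINTWISE LIMIT OF S_{2θ}:  S_{2θ_n}(τ) → W(τ)e^{πτ} + R.

PROOF. Split the sum over ℤ into k = 0, k ≥ 1, k ≤ -1 (`tsum_of_add_one_of_neg_add_one`-type lemma; summability `Sj_summable`).
* k = 0: W(τ)e^{2θ_nτ} → W(τ)e^{πτ} since 2θ_n → π.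
* k ≤ -1 (k = -(j+1)): for T_n ≥ 2|τ| we have τ+kT ≤ 0, so the term is ≤ W(τ-(j+1)T) ≤ C e^{-2|τ-(j+1)T|} ≤ C e^{-(j+1)T}
  (|τ-(j+1)T| ≥ (j+1)T/2), sum ≤ C e^{-T}/(1-e^{-T}) → 0.
* k ≥ 1: the term is W(τ+kT)e^{2θ(τ+kT)} = e^{2θτ} · ρ_k · W(kT)e^{2θkT}, ρ_k = W(kT+τ)/W(kT). By `W_ratio`, given ε there is
  s₀ with |W(s+τ)/W(s) - e^{-πτ}| ≤ ε for s ≥ s₀; for T_n ≥ s₀, T_n > 0 all ρ_k (k ≥ 1) satisfy |ρ_k - e^{-πτ}| ≤ ε, so
  |Σ_{k≥1} ρ_k W(kT)e^{2θkT} - e^{-πτ}R| ≤ εR (Σ_{k≥1}W(kT)e^{2θkT} = R). So this part tends to e^{πτ}e^{-πτ}R = R.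
-/

set_option linter.style.longLine false

open MeasureTheory Set Filter Topology

namespace Pool.Agent.Lib.MP_70ee11_an.EZ

/-- the part `k ≤ -1` -/
private theorem neg_part {g : ℝ} (hg : 0 < g) {T θ : ℕ → ℝ} (hT : Tendsto T atTop atTop)
    (hθ : ∀ n, 0 < θ n ∧ θ n < Real.pi / 2) (τ : ℝ) :
    Tendsto (fun n => ∑' j : ℕ, W g (τ + (-((j : ℤ) + 1) : ℤ) * T n) *
      Real.exp (2 * θ n * (τ + (-((j : ℤ) + 1) : ℤ) * T n))) atTop (𝓝 0) := by
  obtain ⟨C, hC, hW⟩ := W_upper hg (ρ := 2) (by linarith [Real.pi_gt_three])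
  have hlim : Tendsto (fun n => C * (Real.exp (-T n) * (1 - Real.exp (-T n))⁻¹)) atTop (𝓝 0) := by
    have h1 : Tendsto (fun n => Real.exp (-T n)) atTop (𝓝 0) :=
      Real.tendsto_exp_atBot.comp (tendsto_neg_atTop_atBot.comp hT)
    have h2 : Tendsto (fun n => C * (Real.exp (-T n) * (1 - Real.exp (-T n))⁻¹)) atTop
        (𝓝 (C * (0 * (1 - 0)⁻¹))) := by
      refine Tendsto.const_mul C (h1.mul (Tendsto.inv₀ (tendsto_const_nhds.sub h1) (by norm_num)))
    simpa using h2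
  refine squeeze_zero' ?_ ?_ hlim
  · exact Eventually.of_forall fun n => tsum_nonneg fun j =>
      mul_nonneg (W_pos hg _).le (Real.exp_pos _).le
  · filter_upwards [hT.eventually_ge_atTop (2 * |τ| + 1)] with n hn
    have hTn : 0 < T n := by
      have := abs_nonneg τ
      linarith
    have hlt : Real.exp (-T n) < 1 := by
      rw [Real.exp_lt_one_iff]
      linarith
    have hgeo : HasSum (fun j : ℕ => C * (Real.exp (-T n) * Real.exp (-T n) ^ j))
        (C * (Real.exp (-T n) * (1 - Real.exp (-T n))⁻¹)) :=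
      ((hasSum_geometric_of_lt_one (Real.exp_pos _).le hlt).mul_left _).mul_left C
    have hb : ∀ j : ℕ, W g (τ + (-((j : ℤ) + 1) : ℤ) * T n) *
        Real.exp (2 * θ n * (τ + (-((j : ℤ) + 1) : ℤ) * T n)) ≤
        C * (Real.exp (-T n) * Real.exp (-T n) ^ j) := by
      intro j
      have hj : (0 : ℝ) ≤ j := Nat.cast_nonneg j
      set x : ℝ := τ + (-((j : ℤ) + 1) : ℤ) * T n with hx
      have hx1 : x ≤ -(((j : ℝ) + 1) * T n / 2) := by
        rw [hx]
        push_cast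
        have h1 := le_abs_self τ
        have h2 : (0 : ℝ) ≤ j * T n := by positivity
        nlinarith
      have hx0 : x ≤ 0 := by
        have : 0 ≤ ((j : ℝ) + 1) * T n / 2 := by positivity
        linarith
      have h3 : Real.exp (2 * θ n * x) ≤ 1 := by
        rw [Real.exp_le_one_iff]
        exact mul_nonpos_of_nonneg_of_nonpos (by linarith [(hθ n).1]) hx0
      have h4 : W g x ≤ C * Real.exp (-T n) ^ (j + 1) := by
        refine (hW x).trans (mul_le_mul_of_nonneg_left ?_ hC.le)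
        rw [← Real.exp_nat_mul, abs_of_nonpos hx0]
        refine Real.exp_le_exp.2 ?_
        push_cast
        linarith
      calc W g x * Real.exp (2 * θ n * x) ≤ C * Real.exp (-T n) ^ (j + 1) * 1 :=
            mul_le_mul h4 h3 (Real.exp_pos _).le (by positivity)
        _ = C * (Real.exp (-T n) * Real.exp (-T n) ^ j) := by rw [pow_succ]; ring
    have hs : Summable (fun j : ℕ => W g (τ + (-((j : ℤ) + 1) : ℤ) * T n) *
        Real.exp (2 * θ n * (τ + (-((j : ℤ) + 1) : ℤ) * T n))) :=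
      Summable.of_nonneg_of_le (fun j => mul_nonneg (W_pos hg _).le (Real.exp_pos _).le) hb
        hgeo.summable
    exact hasSum_le hb hs.hasSum hgeo

/-- the part `k ≥ 1` -/
private theorem pos_part {g R : ℝ} (hg : 1 ≤ g) (hR : 0 < R) {T θ : ℕ → ℝ}
    (hT : Tendsto T atTop atTop) (hθ : ∀ n, 0 < θ n ∧ θ n < Real.pi / 2)
    (hRs : ∀ n, Rs g (T n) (θ n) = R) (hlim : Tendsto θ atTop (𝓝 (Real.pi / 2))) (τ : ℝ) :
    Tendsto (fun n => ∑' k : ℕ, W g (τ + (((k : ℤ) + 1 : ℤ) : ℝ) * T n) *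
      Real.exp (2 * θ n * (τ + (((k : ℤ) + 1 : ℤ) : ℝ) * T n))) atTop (𝓝 R) := by
  have hg0 : 0 < g := by linarith
  have hterm : ∀ n, ∑' k : ℕ, W g (τ + (((k : ℤ) + 1 : ℤ) : ℝ) * T n) *
      Real.exp (2 * θ n * (τ + (((k : ℤ) + 1 : ℤ) : ℝ) * T n)) =
      Real.exp (2 * θ n * τ) * ∑' k : ℕ, W g (((k : ℝ) + 1) * T n + τ) / W g (((k : ℝ) + 1) * T n) *
        (W g (((k : ℝ) + 1) * T n) * Real.exp (2 * θ n * (((k : ℝ) + 1) * T n))) := by
    intro n
    rw [← tsum_mul_left]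
    refine tsum_congr fun k => ?_
    have h1 : W g (((k : ℝ) + 1) * T n) ≠ 0 := (W_pos hg0 _).ne'
    have h2 : τ + (((k : ℤ) + 1 : ℤ) : ℝ) * T n = ((k : ℝ) + 1) * T n + τ := by
      push_cast
      ring
    rw [h2, mul_add (2 * θ n), Real.exp_add]
    field_simp
  have hsum : Tendsto (fun n => ∑' k : ℕ, W g (((k : ℝ) + 1) * T n + τ) / W g (((k : ℝ) + 1) * T n) *
        (W g (((k : ℝ) + 1) * T n) * Real.exp (2 * θ n * (((k : ℝ) + 1) * T n)))) atTop
      (𝓝 (Real.exp (-(Real.pi * τ)) * R)) := by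
    rw [Metric.tendsto_atTop]
    intro ε hε
    have hδ : 0 < ε / (2 * R) := by positivity
    obtain ⟨s₀, hs₀⟩ := Filter.eventually_atTop.1
      ((Metric.tendsto_nhds.1 (W_ratio hg τ)) (ε / (2 * R)) hδ)
    obtain ⟨N, hN⟩ := Filter.eventually_atTop.1 (hT.eventually_ge_atTop (max s₀ 1))
    refine ⟨N, fun n hn => ?_⟩
    have hTn := hN n hn
    have hT1 : 1 ≤ T n := (le_max_right _ _).trans hTn
    have hTs : s₀ ≤ T n := (le_max_left _ _).trans hTn
    have hT0 : 0 < T n := by linarith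
    have hRsum := Rs_summable hg0 hT0 (hθ n).2
    have hHas : HasSum (fun k : ℕ => W g (((k : ℝ) + 1) * T n) *
        Real.exp (2 * θ n * (((k : ℝ) + 1) * T n))) R := by
      have := hRsum.hasSum
      rw [← hRs n]
      exact this
    have hb : ∀ k : ℕ, ‖(W g (((k : ℝ) + 1) * T n + τ) / W g (((k : ℝ) + 1) * T n) -
        Real.exp (-(Real.pi * τ))) * (W g (((k : ℝ) + 1) * T n) *
          Real.exp (2 * θ n * (((k : ℝ) + 1) * T n)))‖ ≤
        ε / (2 * R) * (W g (((k : ℝ) + 1) * T n) * Real.exp (2 * θ n * (((k : ℝ) + 1) * T n))) := by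
      intro k
      have hk : (0 : ℝ) ≤ k := Nat.cast_nonneg k
      have h1 : s₀ ≤ ((k : ℝ) + 1) * T n := by nlinarith
      have h2 := hs₀ _ h1
      rw [Real.dist_eq] at h2
      have h3 : 0 ≤ W g (((k : ℝ) + 1) * T n) * Real.exp (2 * θ n * (((k : ℝ) + 1) * T n)) :=
        mul_nonneg (W_pos hg0 _).le (Real.exp_pos _).le
      rw [norm_mul, Real.norm_eq_abs, Real.norm_eq_abs, abs_of_nonneg h3]
      exact mul_le_mul_of_nonneg_right h2.le h3
    have hnb := tsum_of_norm_bounded (hHas.mul_left (ε / (2 * R))) hb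
    have hsub : Summable (fun k : ℕ => (W g (((k : ℝ) + 1) * T n + τ) / W g (((k : ℝ) + 1) * T n) -
        Real.exp (-(Real.pi * τ))) * (W g (((k : ℝ) + 1) * T n) *
          Real.exp (2 * θ n * (((k : ℝ) + 1) * T n)))) :=
      Summable.of_norm_bounded (hHas.mul_left (ε / (2 * R))).summable hb
    have hsplit : ∑' k : ℕ, W g (((k : ℝ) + 1) * T n + τ) / W g (((k : ℝ) + 1) * T n) *
        (W g (((k : ℝ) + 1) * T n) * Real.exp (2 * θ n * (((k : ℝ) + 1) * T n))) =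
        (∑' k : ℕ, (W g (((k : ℝ) + 1) * T n + τ) / W g (((k : ℝ) + 1) * T n) -
        Real.exp (-(Real.pi * τ))) * (W g (((k : ℝ) + 1) * T n) *
          Real.exp (2 * θ n * (((k : ℝ) + 1) * T n)))) + Real.exp (-(Real.pi * τ)) * R := by
      have h5 := (hsub.hasSum.add (hHas.mul_left (Real.exp (-(Real.pi * τ))))).tsum_eq
      rw [← h5]
      refine tsum_congr fun k => ?_
      ring
    rw [hsplit, Real.dist_eq, add_sub_cancel_right]
    rw [Real.norm_eq_abs] at hnb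
    refine lt_of_le_of_lt hnb ?_
    have : ε / (2 * R) * R = ε / 2 := by field_simp
    rw [this]
    linarith
  have hexp : Tendsto (fun n => Real.exp (2 * θ n * τ)) atTop (𝓝 (Real.exp (Real.pi * τ))) := by
    have h1 : Tendsto (fun n => 2 * θ n * τ) atTop (𝓝 (2 * (Real.pi / 2) * τ)) :=
      (hlim.const_mul 2).mul_const τ
    have h2 : 2 * (Real.pi / 2) * τ = Real.pi * τ := by ring
    rw [h2] at h1
    exact (Real.continuous_exp.tendsto _).comp h1
  have hprod := hexp.mul hsum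
  have hval : Real.exp (Real.pi * τ) * (Real.exp (-(Real.pi * τ)) * R) = R := by
    rw [← mul_assoc, ← Real.exp_add, add_neg_cancel, Real.exp_zero, one_mul]
  rw [hval] at hprod
  exact hprod.congr fun n => (hterm n).symm

theorem Sj2_lim {g R : ℝ} (hg : 1 ≤ g) (hR : 0 < R) {T θ : ℕ → ℝ} (hT : Tendsto T atTop atTop)
    (hθ : ∀ n, 0 < θ n ∧ θ n < Real.pi / 2) (hRs : ∀ n, Rs g (T n) (θ n) = R)
    (hlim : Tendsto θ atTop (𝓝 (Real.pi / 2))) (τ : ℝ) :
    Tendsto (fun n => Sj g (T n) (2 * θ n) τ) atTop (𝓝 (W g τ * Real.exp (Real.pi * τ) + R)) := by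
  have hg0 : 0 < g := by linarith
  have hexp : Tendsto (fun n => W g τ * Real.exp (2 * θ n * τ)) atTop
      (𝓝 (W g τ * Real.exp (Real.pi * τ))) := by
    have h1 : Tendsto (fun n => 2 * θ n * τ) atTop (𝓝 (2 * (Real.pi / 2) * τ)) :=
      (hlim.const_mul 2).mul_const τ
    have h2 : 2 * (Real.pi / 2) * τ = Real.pi * τ := by ring
    rw [h2] at h1
    exact ((Real.continuous_exp.tendsto _).comp h1).const_mul _
  have h := ((pos_part hg hR hT hθ hRs hlim τ).add hexp).add (neg_part hg0 hT hθ τ)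
  have hval : R + W g τ * Real.exp (Real.pi * τ) + 0 = W g τ * Real.exp (Real.pi * τ) + R := by ring
  rw [hval] at h
  refine h.congr' ?_
  filter_upwards [hT.eventually_ge_atTop 1] with n hn
  have hTn : 0 < T n := by linarith
  have hq : |2 * θ n| < Real.pi := by
    rw [abs_of_pos (by linarith [(hθ n).1])]
    linarith [(hθ n).2]
  have hs := Sj_summable hg0 hTn hq τ
  have hs1 : Summable (fun k : ℕ => W g (τ + (((k : ℤ) + 1 : ℤ) : ℝ) * T n) *
      Real.exp (2 * θ n * (τ + (((k : ℤ) + 1 : ℤ) : ℝ) * T n))) :=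
    hs.comp_injective (i := fun k : ℕ => (k : ℤ) + 1) (by
      intro a b hab
      simpa using hab)
  have hs2 : Summable (fun k : ℕ => W g (τ + (-((k : ℤ) + 1) : ℤ) * T n) *
      Real.exp (2 * θ n * (τ + (-((k : ℤ) + 1) : ℤ) * T n))) :=
    hs.comp_injective (i := fun k : ℕ => -((k : ℤ) + 1)) (by
      intro a b hab
      simpa using hab)
  have hsp := tsum_of_add_one_of_neg_add_one (f := fun k : ℤ => W g (τ + k * T n) *
    Real.exp (2 * θ n * (τ + k * T n))) hs1 hs2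
  unfold Sj
  rw [hsp]
  simp

end Pool.Agent.Lib.MP_70ee11_an.EZ
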