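import Mathlib
import Pool.Agent.Lib.MP_70ee11_an.EZ.Defs
import Pool.Agent.Lib.MP_70ee11_an.EZ.Gam2

/-!
Module Hil. THE HILBERT SPACE L²(W dτ).

PROOF. `nu g = W dτ` (`withDensity`). MemLp of f in L²(ν) iff W|f|² integrable w.r.t. Lebesgue
(`integrable_withDensity_iff_integrable_smul'`, `memLp_two_iff_integrable_sq_norm`); |e^{qτ}p(τ)|² ≤ C² e^{2|q||τ|},
2|q| < π, `W_integrable`. For `ee a`: |ee a τ| = e^{-τ Im a}.. (‖ee a τ‖ = exp(-(τ·a.im)), as re(-(iτ ā)) = -τ a.im).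
`inner_nu`: `L2.inner_def`, `integral_withDensity_eq_integral_toReal_smul`, coeFn_toLp.
`norm_nu_le`: if |p| ≤ ε then ‖toLp(e^{q·} p)‖ ≤ ε ‖toLp(e^{q·})‖ (`Lp.norm_le_mul_norm_of_ae_le_mul`).
-/

set_option linter.style.longLine false

open MeasureTheory Set Filter Topology

namespace Pool.Agent.Lib.MP_70ee11_an.EZ

/-- the measure W dτ -/
noncomputable def nu (g : ℝ) : Measure ℝ := volume.withDensity (fun τ : ℝ => ENNReal.ofReal (W g τ))

private theorem nu_lt_top (g : ℝ) :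
    ∀ᵐ τ : ℝ ∂volume, ENNReal.ofReal (W g τ) < ⊤ :=
  Filter.Eventually.of_forall fun _ => ENNReal.ofReal_lt_top

private theorem nu_meas {g : ℝ} (hg : 0 < g) : Measurable (fun τ : ℝ => ENNReal.ofReal (W g τ)) :=
  (W_cont hg).measurable.ennreal_ofReal

theorem memLp_nu {g q : ℝ} (hg : 0 < g) (hq : |q| < Real.pi / 2) {p : ℝ → ℂ} (hp : Continuous p) {C : ℝ}
    (hb : ∀ τ, ‖p τ‖ ≤ C) : MemLp (fun τ : ℝ => ((Real.exp (q * τ) : ℝ) : ℂ) * p τ) 2 (nu g) := by
  have hcont : Continuous (fun τ : ℝ => ((Real.exp (q * τ) : ℝ) : ℂ) * p τ) :=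
    (Complex.continuous_ofReal.comp (Real.continuous_exp.comp (continuous_const.mul continuous_id))).mul hp
  rw [memLp_two_iff_integrable_sq_norm hcont.aestronglyMeasurable]
  unfold nu
  rw [integrable_withDensity_iff (nu_meas hg) (nu_lt_top g)]
  have hC : 0 ≤ C := (norm_nonneg _).trans (hb 0)
  have hI := (W_integrable hg (q := 2 * |q|) (by linarith)).const_mul (C ^ 2)
  refine hI.mono' ?_ (Filter.Eventually.of_forall fun τ => ?_)
  · have h1 : Continuous fun τ : ℝ => ‖((Real.exp (q * τ) : ℝ) : ℂ) * p τ‖ ^ 2 := hcont.norm.pow 2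
    exact (h1.measurable.mul (nu_meas hg).ennreal_toReal).aestronglyMeasurable
  · have hW := (W_pos hg τ).le
    rw [ENNReal.toReal_ofReal hW, Real.norm_of_nonneg (mul_nonneg (sq_nonneg _) hW), norm_mul,
      Complex.norm_real, Real.norm_of_nonneg (Real.exp_pos _).le, mul_pow]
    have h1 : Real.exp (q * τ) ^ 2 ≤ Real.exp (2 * |q| * |τ|) := by
      rw [← Real.exp_nat_mul]
      refine Real.exp_le_exp.2 ?_
      have h2 : q * τ ≤ |q| * |τ| := by
        rw [← abs_mul]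
        exact le_abs_self _
      push_cast
      linarith
    have h3 : ‖p τ‖ ^ 2 ≤ C ^ 2 := pow_le_pow_left₀ (norm_nonneg _) (hb τ) 2
    calc Real.exp (q * τ) ^ 2 * ‖p τ‖ ^ 2 * W g τ
        ≤ Real.exp (2 * |q| * |τ|) * C ^ 2 * W g τ := by
          refine mul_le_mul_of_nonneg_right (mul_le_mul h1 h3 (by positivity) (by positivity)) hW
      _ = C ^ 2 * (W g τ * Real.exp (2 * |q| * |τ|)) := by ring

theorem ee_memLp {g : ℝ} (hg : 0 < g) {a : ℂ} (ha : |a.im| < Real.pi / 2) : MemLp (ee a) 2 (nu g) := by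
  have hp : Continuous (fun τ : ℝ => Complex.exp ((-(τ * a.re) : ℝ) * Complex.I)) := by
    refine Complex.continuous_exp.comp ?_
    exact (Complex.continuous_ofReal.comp (continuous_id.mul continuous_const).neg).mul continuous_const
  have h := memLp_nu hg (q := -a.im) (by rwa [abs_neg]) hp (C := 1) (fun τ => by
    rw [Complex.norm_exp_ofReal_mul_I])
  refine (memLp_congr_ae (Filter.Eventually.of_forall fun τ => ?_)).1 h
  show ((Real.exp (-a.im * τ) : ℝ) : ℂ) * Complex.exp ((-(τ * a.re) : ℝ) * Complex.I) = ee a τ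
  unfold ee
  rw [Complex.ofReal_exp, ← Complex.exp_add]
  congr 1
  apply Complex.ext
  · simp
    ring
  · simp

open Classical in
/-- the vector e_a -/
noncomputable def ev (g : ℝ) (a : ℂ) : Lp ℂ 2 (nu g) := if h : MemLp (ee a) 2 (nu g) then h.toLp _ else 0

theorem ev_coe {g : ℝ} (hg : 0 < g) {a : ℂ} (ha : |a.im| < Real.pi / 2) : (ev g a : ℝ → ℂ) =ᵐ[nu g] ee a := by
  have h := ee_memLp hg ha
  unfold ev
  rw [dif_pos h]
  exact h.coeFn_toLp

theorem inner_nu {g : ℝ} (hg : 0 < g) {u v : Lp ℂ 2 (nu g)} {f h : ℝ → ℂ} (hu : (u : ℝ → ℂ) =ᵐ[nu g] f)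
    (hv : (v : ℝ → ℂ) =ᵐ[nu g] h) : inner ℂ u v = ∫ τ : ℝ, (W g τ : ℂ) * ((starRingEnd ℂ) (f τ) * h τ) := by
  rw [L2.inner_def]
  have e1 : ∫ τ, inner ℂ (u τ) (v τ) ∂(nu g) = ∫ τ, (starRingEnd ℂ) (f τ) * h τ ∂(nu g) := by
    refine integral_congr_ae ?_
    filter_upwards [hu, hv] with τ h1 h2
    rw [h1, h2, RCLike.inner_apply, mul_comm]
  rw [e1]
  unfold nu
  rw [integral_withDensity_eq_integral_toReal_smul (nu_meas hg) (nu_lt_top g)]
  refine integral_congr_ae (Filter.Eventually.of_forall fun τ => ?_)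
  show (ENNReal.ofReal (W g τ)).toReal • ((starRingEnd ℂ) (f τ) * h τ) = _
  rw [ENNReal.toReal_ofReal (W_pos hg τ).le, Complex.real_smul]

end Pool.Agent.Lib.MP_70ee11_an.EZ
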