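import Mathlib

/-!
Module Proj (Mathlib only). FINITE DIMENSIONAL PROJECTIONS CONVERGE.

PROOF. Let U_n = span (e '' S n) (finite dimensional, so it has an orthogonal projection), U = closure of ⋃ U_n
= closure of span (⋃ e '' S n). P_n u ∈ U_n, so P_n u = Σ_{a∈S n} c_n(a) e_a (`Submodule.mem_span_image_finset_iff_exists_fun`
or `mem_span_finset`), and u - P_n u ⊥ U_n. By `Submodule.starProjection_tendsto_closure_iSup` (Monotone U_n)
P_n u → P_U u. Finally P_U u = u - h, because u - h ∈ U and h ⊥ U (h ⊥ e_a for all a, so h ⊥ span, so h ⊥ closure)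
(`Submodule.eq_starProjection_of_mem_orthogonal` or similar). So u - P_n u → h.
-/

set_option linter.style.longLine false

open Filter Topology

namespace Pool.Agent.Lib.MP_70ee11_an.EZ

theorem proj_limit {H : Type*} [NormedAddCommGroup H] [InnerProductSpace ℂ H] [CompleteSpace H] (e : ℂ → H)
    (S : ℕ → Finset ℂ) (hS : Monotone S) (u h : H) (horth : ∀ n, ∀ a ∈ S n, inner ℂ (e a) h = 0)
    (hcl : u - h ∈ (Submodule.span ℂ (⋃ n, e '' (S n : Set ℂ))).topologicalClosure) :
    ∃ c : ℕ → ℂ → ℂ, (∀ n, ∀ b ∈ S n, inner ℂ (e b) (u - ∑ a ∈ S n, c n a • e a) = 0) ∧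
      Tendsto (fun n => u - ∑ a ∈ S n, c n a • e a) atTop (𝓝 h) := by
  classical
  obtain ⟨U, hU⟩ : ∃ U : ℕ → Submodule ℂ H, U = fun n => Submodule.span ℂ (e '' (S n : Set ℂ)) :=
    ⟨_, rfl⟩
  have hUmono : Monotone U := by
    intro m n hmn
    rw [hU]
    exact Submodule.span_mono (Set.image_mono (by exact_mod_cast hS hmn))
  have hfin : ∀ n, FiniteDimensional ℂ (U n) := by
    intro n
    rw [hU]
    exact FiniteDimensional.span_of_finite ℂ ((S n).finite_toSet.image e)
  have hproj : ∀ n, (U n).HasOrthogonalProjection := fun n => inferInstance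
  have hsup : (⨆ n, U n) = Submodule.span ℂ (⋃ n, e '' (S n : Set ℂ)) := by
    rw [hU, Submodule.span_iUnion]
  have hmem : ∀ n, ∃ c : ℂ → ℂ, ∑ a ∈ S n, c a • e a = (U n).starProjection u := by
    intro n
    have h1 : (U n).starProjection u ∈ U n := Submodule.starProjection_apply_mem _ _
    have h2 : U n = Submodule.span ℂ (e '' (S n : Set ℂ)) := congrFun hU n
    exact (Submodule.mem_span_image_finset_iff_exists_fun' ℂ).1 (h2.le h1)
  choose c hc using hmem
  refine ⟨c, ?_, ?_⟩
  · intro n b hb
    rw [hc n]
    have h1 : u - (U n).starProjection u ∈ (U n)ᗮ := Submodule.sub_starProjection_mem_orthogonal u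
    refine (Submodule.mem_orthogonal _ _).1 h1 (e b) ?_
    rw [congrFun hU n]
    exact Submodule.subset_span ⟨b, by exact_mod_cast hb, rfl⟩
  · have h2 : (⨆ n, U n).topologicalClosure.starProjection u = u - h := by
      apply Submodule.eq_starProjection_of_mem_orthogonal
      · rw [hsup]
        exact hcl
      · rw [sub_sub_cancel, Submodule.orthogonal_closure, hsup, Submodule.mem_orthogonal]
        intro x hx
        induction hx using Submodule.span_induction with
        | mem x hx =>
          obtain ⟨n, a, ha, rfl⟩ := Set.mem_iUnion.1 hx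
          exact horth n a (by exact_mod_cast ha)
        | zero => exact inner_zero_left _
        | add x y _ _ hx hy => rw [inner_add_left, hx, hy, add_zero]
        | smul t x _ hx => rw [inner_smul_left, hx, mul_zero]
    have h3 := Submodule.starProjection_tendsto_closure_iSup U hUmono u
    rw [h2] at h3
    have h4 := (tendsto_const_nhds (x := u)).sub h3
    rw [sub_sub_cancel] at h4
    refine h4.congr fun n => ?_
    rw [hc n]

end Pool.Agent.Lib.MP_70ee11_an.EZ
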