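import Mathlib
import Pool.Agent.Lib.MP_70ee11_an.EZ.Defs
import Pool.Agent.Lib.MP_70ee11_an.EZ.Gam2
import Pool.Agent.Lib.MP_70ee11_an.EZ.Hil

/-!
Module Trig. e^{qτ} p(τ), p continuous T-periodic, is in the closed span of the e_a, a = 2πj/T - iq, j ∈ ℤ.

PROOF. ee(jℓ - iq)(τ) = exp(-iτ(jℓ + iq)) = e^{-ijℓτ} e^{qτ} with ℓ = 2π/T. Given ε > 0, by density of trigonometric
polynomials (`span_fourier_closure_eq_top` on C(AddCircle T, ℂ); p descends to the circle via `Function.Periodic.lift`;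
`fourier n (τ : AddCircle T) = exp(2πi n τ/T)`, `fourier_coe_apply`) there is a finite combination t(τ) = Σ c_j e^{-ijℓτ}
with |p - t| ≤ ε everywhere. Then ‖toLp(e^{q·}p) - Σ c_j ev(jℓ-iq)‖ ≤ ε ‖toLp(e^{q·})‖, as the difference is a.e. e^{qτ}(p - t).
(Alternatively: the map C(AddCircle T, ℂ) → L²(ν), φ ↦ toLp(e^{q·} φ) is continuous linear and maps the span of the
`fourier n` into the span of the ev's; so it maps the closure into the closure: `map_mem_closure` /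
`Submodule.closure_subset_topologicalClosure_map`.)
-/

set_option linter.style.longLine false

open MeasureTheory Set Filter Topology

namespace Pool.Agent.Lib.MP_70ee11_an.EZ

private theorem ee_eq_fourier (T q : ℝ) (j : ℤ) (τ : ℝ) :
    ee (((j * (2 * Real.pi / T) : ℝ) : ℂ) - (q : ℂ) * Complex.I) τ =
      ((Real.exp (q * τ) : ℝ) : ℂ) * fourier (-j) (τ : AddCircle T) := by
  rw [fourier_coe_apply, Complex.ofReal_exp, ← Complex.exp_add]
  unfold ee
  congr 1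
  simp only [map_sub, map_mul, Complex.conj_ofReal, Complex.conj_I]
  push_cast
  have h : Complex.I * Complex.I = -1 := Complex.I_mul_I
  linear_combination (-(τ : ℂ) * q) * h

section
variable {g T q : ℝ}

private theorem mlp [Fact (0 < T)] (hg : 0 < g) (hq : |q| < Real.pi / 2) (φ : C(AddCircle T, ℂ)) :
    MemLp (fun τ : ℝ => ((Real.exp (q * τ) : ℝ) : ℂ) * φ (τ : AddCircle T)) 2 (nu g) :=
  memLp_nu hg hq (p := fun τ : ℝ => φ (τ : AddCircle T)) (φ.continuous.comp (AddCircle.continuous_mk' T))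
    (C := ‖φ‖) (fun _ => φ.norm_coe_le_norm _)

private theorem mlp_add [Fact (0 < T)] (hg : 0 < g) (hq : |q| < Real.pi / 2) (φ ψ : C(AddCircle T, ℂ)) :
    (mlp hg hq (φ + ψ)).toLp _ = (mlp hg hq φ).toLp _ + (mlp hg hq ψ).toLp _ := by
  apply Lp.ext
  filter_upwards [(mlp hg hq (φ + ψ)).coeFn_toLp, (mlp hg hq φ).coeFn_toLp, (mlp hg hq ψ).coeFn_toLp,
    Lp.coeFn_add ((mlp hg hq φ).toLp _) ((mlp hg hq ψ).toLp _)] with τ h1 h2 h3 h4
  rw [h4, Pi.add_apply, h1, h2, h3, ContinuousMap.add_apply]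
  ring

private theorem mlp_smul [Fact (0 < T)] (hg : 0 < g) (hq : |q| < Real.pi / 2) (c : ℂ) (φ : C(AddCircle T, ℂ)) :
    (mlp hg hq (c • φ)).toLp _ = c • (mlp hg hq φ).toLp _ := by
  apply Lp.ext
  filter_upwards [(mlp hg hq (c • φ)).coeFn_toLp, (mlp hg hq φ).coeFn_toLp,
    Lp.coeFn_smul c ((mlp hg hq φ).toLp _)] with τ h1 h2 h4
  rw [h4, Pi.smul_apply, h1, h2, ContinuousMap.smul_apply, smul_eq_mul, smul_eq_mul]
  ring

private theorem mlp_norm [Fact (0 < T)] (hg : 0 < g) (hq : |q| < Real.pi / 2) (φ : C(AddCircle T, ℂ)) :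
    ‖(mlp hg hq φ).toLp _‖ ≤ ‖(mlp (T := T) hg hq 1).toLp _‖ * ‖φ‖ := by
  refine le_of_le_of_eq (Lp.norm_le_mul_norm_of_ae_le_mul (c := ‖φ‖) ?_) (mul_comm _ _)
  filter_upwards [(mlp hg hq φ).coeFn_toLp, (mlp (T := T) hg hq 1).coeFn_toLp] with τ h1 h2
  rw [h1, h2, ContinuousMap.one_apply, mul_one, norm_mul, mul_comm]
  exact mul_le_mul_of_nonneg_right (φ.norm_coe_le_norm _) (norm_nonneg _)

private noncomputable def Phi [Fact (0 < T)] (hg : 0 < g) (hq : |q| < Real.pi / 2) :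
    C(AddCircle T, ℂ) →L[ℂ] Lp ℂ 2 (nu g) :=
  LinearMap.mkContinuous
    { toFun := fun φ => (mlp hg hq φ).toLp _
      map_add' := fun φ ψ => mlp_add hg hq φ ψ
      map_smul' := fun c φ => mlp_smul hg hq c φ }
    (‖(mlp (T := T) hg hq 1).toLp _‖) (fun φ => mlp_norm hg hq φ)

private theorem Phi_coe [Fact (0 < T)] (hg : 0 < g) (hq : |q| < Real.pi / 2) (φ : C(AddCircle T, ℂ)) :
    (Phi hg hq φ : ℝ → ℂ) =ᵐ[nu g] fun τ : ℝ => ((Real.exp (q * τ) : ℝ) : ℂ) * φ (τ : AddCircle T) :=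
  (mlp hg hq φ).coeFn_toLp

end

theorem trig_closure {g T q : ℝ} (hg : 0 < g) (hT : 0 < T) (hq : |q| < Real.pi / 2) {p : ℝ → ℂ} (hp : Continuous p)
    (hper : Function.Periodic p T) {v : Lp ℂ 2 (nu g)}
    (hv : (v : ℝ → ℂ) =ᵐ[nu g] fun τ : ℝ => ((Real.exp (q * τ) : ℝ) : ℂ) * p τ) :
    v ∈ (Submodule.span ℂ {w : Lp ℂ 2 (nu g) | ∃ j : ℤ,
      w = ev g (((j * (2 * Real.pi / T) : ℝ) : ℂ) - (q : ℂ) * Complex.I)}).topologicalClosure := by
  have : Fact (0 < T) := ⟨hT⟩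
  have hc : Continuous (hper.lift : AddCircle T → ℂ) := continuous_coinduced_dom.mpr hp
  set φ : C(AddCircle T, ℂ) := ⟨hper.lift, hc⟩ with hφ
  have hφ1 : ∀ τ : ℝ, φ (τ : AddCircle T) = p τ := fun τ => hper.lift_coe τ
  have hvφ : v = Phi hg hq φ := by
    apply Lp.ext
    filter_upwards [hv, Phi_coe hg hq φ] with τ h1 h2
    rw [h1, h2, hφ1]
  have hcl : φ ∈ closure ((Submodule.span ℂ (range <| @fourier T) : Submodule ℂ C(AddCircle T, ℂ)) : Set C(AddCircle T, ℂ)) := by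
    have h := span_fourier_closure_eq_top (T := T)
    have h2 : φ ∈ (Submodule.span ℂ (range <| @fourier T)).topologicalClosure := by rw [h]; trivial
    exact h2
  rw [hvφ]
  refine map_mem_closure (Phi hg hq).continuous hcl ?_
  intro ψ hψ
  have h1 : Submodule.span ℂ (range <| @fourier T) ≤ (Submodule.span ℂ {w : Lp ℂ 2 (nu g) | ∃ j : ℤ,
      w = ev g (((j * (2 * Real.pi / T) : ℝ) : ℂ) - (q : ℂ) * Complex.I)}).comap (Phi (T := T) hg hq).toLinearMap := by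
    rw [Submodule.span_le]
    rintro _ ⟨n, rfl⟩
    refine Submodule.subset_span ⟨-n, ?_⟩
    apply Lp.ext
    have him : |((((-n : ℤ) * (2 * Real.pi / T) : ℝ) : ℂ) - (q : ℂ) * Complex.I).im| < Real.pi / 2 := by
      simpa using hq
    filter_upwards [Phi_coe hg hq (fourier n : C(AddCircle T, ℂ)), ev_coe hg him] with τ h1 h2
    rw [h2, ee_eq_fourier, neg_neg]
    exact h1
  exact h1 hψ

end Pool.Agent.Lib.MP_70ee11_an.EZ
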