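import Mathlib
import Pool.Agent.Lib.MP_70ee11_an.EZ.Defs
import Pool.Agent.Lib.MP_70ee11_an.EZ.Gam2
import Pool.Agent.Lib.MP_70ee11_an.EZ.Sums

/-!
Module Unf. UNFOLDING: for a continuous T-periodic p and |q| < π,
   ∫_ℝ W(τ) e^{qτ} p(τ) dτ = ∫_{-T/2}^{T/2} S_q(τ) p(τ) dτ .

PROOF. p is bounded (continuous, periodic); the integrand f is integrable by `W_integrable` (e^{qτ} ≤ e^{|q||τ|}).
For an integrable f on ℝ and T > 0: ∫ f = Σ_k ∫_{-T/2}^{T/2} f(τ+kT) dτ = ∫_{-T/2}^{T/2} Σ_k f(τ+kT) dτ.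
(the intervals Ioc(-T/2+kT, T/2+kT) form a partition: `iUnion_Ioc_add_zsmul`/`integral_iUnion`, or
`isAddFundamentalDomain_Ioc` with `IsAddFundamentalDomain.integral_eq_tsum`; swap of sum and integral:
`integral_tsum` or `hasSum_integral_of_summable_integral_norm`, Σ_k ∫|f(τ+kT)| = ∫|f| < ∞; see also
`Real.fourierCoeff_tsum_comp_add` in Mathlib.Analysis.Fourier.PoissonSummation for the pattern.)
And Σ_k f(τ+kT) = Σ_k W(τ+kT) e^{q(τ+kT)} p(τ) = S_q(τ) p(τ) (tsum_mul_right, ofReal_tsum).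
-/

set_option linter.style.longLine false

open MeasureTheory Set Filter Topology

namespace Pool.Agent.Lib.MP_70ee11_an.EZ

private theorem unf_hasSum {E : Type*} [NormedAddCommGroup E] [NormedSpace ℝ E] {T : ℝ} (hT : 0 < T)
    {f : ℝ → E} (hf : Integrable f) :
    HasSum (fun n : ℤ => ∫ τ in (-(T / 2))..(T / 2), f (τ + n * T)) (∫ τ, f τ) := by
  have h1 : Integrable (fun u : ℝ => f (T * u)) := hf.comp_mul_left' hT.ne'
  have h2 := (h1.hasSum_intervalIntegral (-(1 / 2))).const_smul T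
  have h3 : T • (∫ u, f (T * u)) = ∫ τ, f τ := by
    rw [Measure.integral_comp_mul_left, abs_of_pos (inv_pos.2 hT), smul_smul,
      mul_inv_cancel₀ hT.ne', one_smul]
  rw [h3] at h2
  have h4 : (fun n : ℤ => T • ∫ u in (-(1 / 2) + (n : ℝ))..(-(1 / 2) + (n : ℝ) + 1), f (T * u)) =
      fun n : ℤ => ∫ τ in (-(T / 2))..(T / 2), f (τ + n * T) := by
    funext n
    rw [intervalIntegral.integral_comp_mul_left _ hT.ne', smul_smul, mul_inv_cancel₀ hT.ne',
      one_smul, intervalIntegral.integral_comp_add_right]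
    congr 1 <;> ring
  rw [← h4]
  exact h2

private theorem unf_tsum {T : ℝ} (hT : 0 < T) {f : ℝ → ℂ} (hf : Integrable f) :
    ∫ τ, f τ = ∫ τ in (-(T / 2))..(T / 2), ∑' n : ℤ, f (τ + n * T) := by
  have hle : -(T / 2) ≤ T / 2 := by linarith
  have h1 := unf_hasSum hT hf
  have h2 := unf_hasSum hT hf.norm
  simp only [intervalIntegral.integral_of_le hle] at h1 h2 ⊢
  have h3 := hasSum_integral_of_summable_integral_norm (μ := volume.restrict (Ioc (-(T / 2)) (T / 2)))
    (F := fun (n : ℤ) (τ : ℝ) => f (τ + n * T))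
    (fun n => (hf.comp_add_right ((n : ℝ) * T)).restrict) h2.summable
  exact h1.unique h3

private theorem unf_bound {T : ℝ} (hT : 0 < T) {p : ℝ → ℂ} (hp : Continuous p)
    (hper : Function.Periodic p T) : ∃ M : ℝ, 0 ≤ M ∧ ∀ τ, ‖p τ‖ ≤ M := by
  obtain ⟨M, hM⟩ := (hper.isBounded_of_continuous hT.ne' hp).exists_norm_le
  exact ⟨M, (norm_nonneg _).trans (hM (p 0) (mem_range_self 0)), fun τ => hM _ (mem_range_self τ)⟩

theorem unf_integrable {g T q : ℝ} (hg : 0 < g) (hT : 0 < T) (hq : |q| < Real.pi) {p : ℝ → ℂ} (hp : Continuous p)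
    (hper : Function.Periodic p T) : Integrable (fun τ : ℝ => (W g τ : ℂ) * (((Real.exp (q * τ) : ℝ) : ℂ) * p τ)) := by
  obtain ⟨M, hM0, hM⟩ := unf_bound hT hp hper
  have h1 := (W_integrable hg hq).const_mul M
  have hW := W_cont hg
  refine h1.mono' ?_ ?_
  · refine Continuous.aestronglyMeasurable ?_
    exact (Complex.continuous_ofReal.comp hW).mul ((Complex.continuous_ofReal.comp
      (Real.continuous_exp.comp (continuous_const.mul continuous_id))).mul hp)
  · refine Filter.Eventually.of_forall fun τ => ?_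
    rw [norm_mul, norm_mul, Complex.norm_real, Complex.norm_real, Real.norm_of_nonneg (W_pos hg τ).le,
      Real.norm_of_nonneg (Real.exp_pos _).le]
    have h2 : Real.exp (q * τ) ≤ Real.exp (|q| * |τ|) := by
      rw [Real.exp_le_exp, ← abs_mul]
      exact le_abs_self _
    have h3 := (W_pos hg τ).le
    have h4 := (Real.exp_pos (|q| * |τ|)).le
    calc W g τ * (Real.exp (q * τ) * ‖p τ‖) ≤ W g τ * (Real.exp (|q| * |τ|) * M) :=
          mul_le_mul_of_nonneg_left (mul_le_mul h2 (hM τ) (norm_nonneg _) h4) h3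
      _ = M * (W g τ * Real.exp (|q| * |τ|)) := by ring

theorem unf {g T q : ℝ} (hg : 0 < g) (hT : 0 < T) (hq : |q| < Real.pi) {p : ℝ → ℂ} (hp : Continuous p)
    (hper : Function.Periodic p T) :
    ∫ τ : ℝ, (W g τ : ℂ) * (((Real.exp (q * τ) : ℝ) : ℂ) * p τ) =
      ∫ τ in (-(T / 2))..(T / 2), (Sj g T q τ : ℂ) * p τ := by
  rw [unf_tsum hT (unf_integrable hg hT hq hp hper)]
  refine intervalIntegral.integral_congr fun τ _ => ?_
  have h1 : ∀ n : ℤ, (W g (τ + n * T) : ℂ) * (((Real.exp (q * (τ + n * T)) : ℝ) : ℂ) * p (τ + n * T)) =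
      ((W g (τ + n * T) * Real.exp (q * (τ + n * T)) : ℝ) : ℂ) * p τ := by
    intro n
    have h2 : p (τ + n * T) = p τ := hper.int_mul n τ
    rw [h2]
    push_cast
    ring
  simp only [h1]
  rw [tsum_mul_right, ← Complex.ofReal_tsum]
  rfl

end Pool.Agent.Lib.MP_70ee11_an.EZ
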