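import Mathlib
import Pool.Agent.Lib.MP_70ee11_an.EZ.Defs
import Pool.Agent.Lib.MP_70ee11_an.EZ.Gam2
import Pool.Agent.Lib.MP_70ee11_an.EZ.Sums
import Pool.Agent.Lib.MP_70ee11_an.EZ.Unf
import Pool.Agent.Lib.MP_70ee11_an.EZ.Det
import Pool.Agent.Lib.MP_70ee11_an.EZ.Hil
import Pool.Agent.Lib.MP_70ee11_an.EZ.Trig
import Pool.Agent.Lib.MP_70ee11_an.EZ.Proj

/-!
Module Per. PERIODIC ZERO SETS: SP implies that the Fourier coefficients of D are ≥ 0.

PROOF. ℓ = 2π/T. Z_N = {jℓ ± iθ : |j| ≤ N} (Finset image), increasing, conjugation symmetric, 0 < |Im| = θ < π/2.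
ee(jℓ - iq)(τ) = e^{-ijℓτ} e^{qτ}. Let h = hT (real; h(τ) = 1 - al e^{θτ} - be e^{-θτ}), h_L its class in L²(ν)
(`memLp_nu` with q = 0, θ, -θ and p = 1, al, be: continuous periodic, so bounded), u = ev g 0 = class of 1.
(a) horth: for a = jℓ - iq, q = ±θ: inner (ev a) h_L = ∫ W e^{qτ} e^{ijℓτ} h dτ  (`inner_nu`; conj(ee a) = e^{ijℓτ}e^{qτ})
    = ∫ W e^{qτ} e^{ijℓτ} - ∫ W e^{(q+θ)τ} al e^{ijℓτ} - ∫ W e^{(q-θ)τ} be e^{ijℓτ}
    = ∫_{-T/2}^{T/2} e^{ijℓτ} (S_q - al S_{q+θ} - be S_{q-θ}) dτ (`unf` three times, |q±θ| ≤ 2θ < π) = 0 by `eq1` (q = θ),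
    `eq2` (q = -θ).
(b) hcl: u - h_L = class of al e^{θτ} + be e^{-θτ}: in the closure by `trig_closure` (twice, q = θ, q = -θ; monotonicity of
    topologicalClosure and span: each generator ev(jℓ - iq) is in e '' Z_{|j|}).
(c) `proj_limit` gives c_N. inner (ev b)(u - Σ c_N(a) ev a) = ∫ W e^{iτb} hh Z_N c_N dτ (= 0 for b ∈ Z_N), and the same
    formula with b = x real. SP gives 0 ≤ Re inner (ev x)(u - Σ...) → Re inner (ev x) h_L  (continuity of inner),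
    so 0 ≤ Re ∫ W e^{iτx} h dτ.
(d) For x = nℓ: = Re ∫_{-T/2}^{T/2} e^{iτnℓ}(S_0 - al S_θ - be S_{-θ}) dτ = ∫_{-T/2}^{T/2} cos(τ nℓ) DD dτ by `unf`
    (q = 0, θ, -θ).
-/

set_option linter.style.longLine false

open MeasureTheory Set Filter Topology

namespace Pool.Agent.Lib.MP_70ee11_an.EZ

/-- the character `e^{ijℓτ}` -/
private noncomputable def Ech (T : ℝ) (j : ℤ) (τ : ℝ) : ℂ :=
  Complex.exp ((τ : ℂ) * Complex.I * ((j * (2 * Real.pi / T) : ℝ) : ℂ))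

private theorem Ech_cont (T : ℝ) (j : ℤ) : Continuous (Ech T j) := by
  refine Complex.continuous_exp.comp ?_
  exact (Complex.continuous_ofReal.mul continuous_const).mul continuous_const

private theorem Ech_per {T : ℝ} (hT : 0 < T) (j : ℤ) : Function.Periodic (Ech T j) T := by
  intro τ
  unfold Ech
  have h : (((τ + T : ℝ) : ℂ)) * Complex.I * ((j * (2 * Real.pi / T) : ℝ) : ℂ) =
      (τ : ℂ) * Complex.I * ((j * (2 * Real.pi / T) : ℝ) : ℂ) + (j : ℂ) * (2 * Real.pi * Complex.I) := by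
    have hT' : (T : ℂ) ≠ 0 := by exact_mod_cast hT.ne'
    push_cast
    field_simp
  rw [h, Complex.exp_add, Complex.exp_int_mul_two_pi_mul_I, mul_one]

private theorem conj_ee (a : ℂ) (τ : ℝ) : (starRingEnd ℂ) (ee a τ) = Complex.exp ((τ : ℂ) * Complex.I * a) := by
  unfold ee
  rw [← Complex.exp_conj]
  congr 1
  simp only [map_neg, map_mul, Complex.conj_ofReal, Complex.conj_I, Complex.conj_conj]
  ring

/-- the point `jℓ - iq` -/
private noncomputable def zp (T : ℝ) (p : ℤ × ℝ) : ℂ := ((p.1 * (2 * Real.pi / T) : ℝ) : ℂ) - (p.2 : ℂ) * Complex.I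

private theorem exp_zp (T : ℝ) (j : ℤ) (q τ : ℝ) :
    Complex.exp ((τ : ℂ) * Complex.I * zp T (j, q)) = ((Real.exp (q * τ) : ℝ) : ℂ) * Ech T j τ := by
  unfold Ech zp
  rw [Complex.ofReal_exp, ← Complex.exp_add]
  congr 1
  push_cast
  have h : Complex.I * Complex.I = -1 := Complex.I_mul_I
  linear_combination (-(τ : ℂ) * q) * h

private theorem zp_im (T : ℝ) (j : ℤ) (q : ℝ) : (zp T (j, q)).im = -q := by
  unfold zp
  simp

private theorem zp_conj (T : ℝ) (j : ℤ) (q : ℝ) : (starRingEnd ℂ) (zp T (j, q)) = zp T (j, -q) := by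
  unfold zp
  simp only [map_sub, map_mul, Complex.conj_ofReal, Complex.conj_I]
  push_cast
  ring

open Classical in
/-- the zero sets -/
private noncomputable def Z (T θ : ℝ) (N : ℕ) : Finset ℂ :=
  ((Finset.Icc (-(N : ℤ)) N) ×ˢ ({θ, -θ} : Finset ℝ)).image (zp T)

private theorem mem_Z {T θ : ℝ} {N : ℕ} {a : ℂ} :
    a ∈ Z T θ N ↔ ∃ j : ℤ, (-(N : ℤ) ≤ j ∧ j ≤ N) ∧ ∃ q : ℝ, (q = θ ∨ q = -θ) ∧ zp T (j, q) = a := by
  unfold Z
  simp only [Finset.mem_image, Finset.mem_product, Finset.mem_Icc, Finset.mem_insert, Finset.mem_singleton,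
    Prod.exists]
  constructor
  · rintro ⟨j, q, ⟨h1, h2⟩, h3⟩
    exact ⟨j, h1, q, h2, h3⟩
  · rintro ⟨j, h1, q, h2, h3⟩
    exact ⟨j, q, ⟨h1, h2⟩, h3⟩

private theorem Z_mono (T θ : ℝ) : Monotone (Z T θ) := by
  intro N M h a ha
  rw [mem_Z] at ha ⊢
  obtain ⟨j, h1, q, h2, h3⟩ := ha
  refine ⟨j, ⟨?_, ?_⟩, q, h2, h3⟩
  · have : (N : ℤ) ≤ M := by exact_mod_cast h
    omega
  · have : (N : ℤ) ≤ M := by exact_mod_cast h
    omega

private theorem hTc_cont {g T θ : ℝ} (hg : 0 < g) (hT : 0 < T) (hθ : 0 < θ) (hθ' : θ < Real.pi / 2) :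
    Continuous (fun τ => ((EZ.hT g T θ τ : ℝ) : ℂ)) := by
  refine Complex.continuous_ofReal.comp ?_
  unfold EZ.hT
  have h1 : Continuous fun τ : ℝ => Real.exp (θ * τ) := by fun_prop
  have h2 : Continuous fun τ : ℝ => Real.exp (-(θ * τ)) := by fun_prop
  exact (continuous_const.sub ((al_cont hg hT hθ hθ').mul h1)).sub ((be_cont hg hT hθ hθ').mul h2)

private theorem unfh {g T θ : ℝ} (hg : 0 < g) (hT : 0 < T) (hθ : 0 < θ) (hθ' : θ < Real.pi / 2) {E : ℝ → ℂ}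
    (hE : Continuous E) (hEp : Function.Periodic E T) {q : ℝ} (h1 : |q| < Real.pi) (h2 : |q + θ| < Real.pi)
    (h3 : |q - θ| < Real.pi) :
    ∫ τ : ℝ, (W g τ : ℂ) * ((((Real.exp (q * τ) : ℝ) : ℂ) * E τ) * ((EZ.hT g T θ τ : ℝ) : ℂ)) =
      ∫ τ in (-(T / 2))..(T / 2),
        ((Sj g T q τ - al g T θ τ * Sj g T (q + θ) τ - be g T θ τ * Sj g T (q - θ) τ : ℝ) : ℂ) * E τ := by
  have hal : Continuous fun τ => ((al g T θ τ : ℝ) : ℂ) * E τ :=
    (Complex.continuous_ofReal.comp (al_cont hg hT hθ hθ')).mul hE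
  have hbe : Continuous fun τ => ((be g T θ τ : ℝ) : ℂ) * E τ :=
    (Complex.continuous_ofReal.comp (be_cont hg hT hθ hθ')).mul hE
  have halp : Function.Periodic (fun τ => ((al g T θ τ : ℝ) : ℂ) * E τ) T := fun τ => by
    show ((al g T θ (τ + T) : ℝ) : ℂ) * E (τ + T) = _
    rw [al_periodic g T θ τ, hEp τ]
  have hbep : Function.Periodic (fun τ => ((be g T θ τ : ℝ) : ℂ) * E τ) T := fun τ => by
    show ((be g T θ (τ + T) : ℝ) : ℂ) * E (τ + T) = _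
    rw [be_periodic g T θ τ, hEp τ]
  have e : (fun τ : ℝ => (W g τ : ℂ) * ((((Real.exp (q * τ) : ℝ) : ℂ) * E τ) * ((EZ.hT g T θ τ : ℝ) : ℂ))) =
      fun τ : ℝ => (W g τ : ℂ) * (((Real.exp (q * τ) : ℝ) : ℂ) * E τ) -
        (W g τ : ℂ) * (((Real.exp ((q + θ) * τ) : ℝ) : ℂ) * (((al g T θ τ : ℝ) : ℂ) * E τ)) -
        (W g τ : ℂ) * (((Real.exp ((q - θ) * τ) : ℝ) : ℂ) * (((be g T θ τ : ℝ) : ℂ) * E τ)) := by
    funext τ
    have e1 : Real.exp ((q + θ) * τ) = Real.exp (q * τ) * Real.exp (θ * τ) := by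
      rw [← Real.exp_add]; ring_nf
    have e2 : Real.exp ((q - θ) * τ) = Real.exp (q * τ) * Real.exp (-(θ * τ)) := by
      rw [← Real.exp_add]; ring_nf
    rw [e1, e2]
    unfold EZ.hT
    push_cast
    ring
  have i1 := unf_integrable hg hT h1 hE hEp
  have i2 := unf_integrable hg hT h2 hal halp
  have i3 := unf_integrable hg hT h3 hbe hbep
  have i12 : Integrable fun τ : ℝ => (W g τ : ℂ) * (((Real.exp (q * τ) : ℝ) : ℂ) * E τ) -
        (W g τ : ℂ) * (((Real.exp ((q + θ) * τ) : ℝ) : ℂ) * (((al g T θ τ : ℝ) : ℂ) * E τ)) := i1.sub i2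
  rw [e, integral_sub i12 i3, integral_sub i1 i2, unf hg hT h1 hE hEp, unf hg hT h2 hal halp,
    unf hg hT h3 hbe hbep]
  have c1 : Continuous fun τ => ((Sj g T q τ : ℝ) : ℂ) * E τ :=
    (Complex.continuous_ofReal.comp (Sj_cont hg hT h1)).mul hE
  have c2 : Continuous fun τ => ((Sj g T (q + θ) τ : ℝ) : ℂ) * (((al g T θ τ : ℝ) : ℂ) * E τ) :=
    (Complex.continuous_ofReal.comp (Sj_cont hg hT h2)).mul hal
  have c3 : Continuous fun τ => ((Sj g T (q - θ) τ : ℝ) : ℂ) * (((be g T θ τ : ℝ) : ℂ) * E τ) :=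
    (Complex.continuous_ofReal.comp (Sj_cont hg hT h3)).mul hbe
  have c12 : Continuous fun τ => ((Sj g T q τ : ℝ) : ℂ) * E τ -
      ((Sj g T (q + θ) τ : ℝ) : ℂ) * (((al g T θ τ : ℝ) : ℂ) * E τ) := c1.sub c2
  rw [← intervalIntegral.integral_sub (c1.intervalIntegrable _ _) (c2.intervalIntegrable _ _),
    ← intervalIntegral.integral_sub (c12.intervalIntegrable _ _) (c3.intervalIntegrable _ _)]
  refine intervalIntegral.integral_congr fun τ _ => ?_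
  show ((Sj g T q τ : ℝ) : ℂ) * E τ - ((Sj g T (q + θ) τ : ℝ) : ℂ) * (((al g T θ τ : ℝ) : ℂ) * E τ) -
    ((Sj g T (q - θ) τ : ℝ) : ℂ) * (((be g T θ τ : ℝ) : ℂ) * E τ) = _
  push_cast
  ring

private theorem bdd_of_per {T : ℝ} (hT : 0 < T) {f : ℝ → ℝ} (hf : Continuous f) (hp : Function.Periodic f T) :
    ∃ C : ℝ, ∀ τ, ‖((f τ : ℝ) : ℂ)‖ ≤ C := by
  obtain ⟨C, hC⟩ := (hp.isBounded_of_continuous hT.ne' hf).exists_norm_le
  exact ⟨C, fun τ => by rw [Complex.norm_real]; exact hC _ (mem_range_self τ)⟩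

private theorem ee_zero (τ : ℝ) : ee 0 τ = 1 := by
  unfold ee
  simp

theorem per {g T θ : ℝ} (hg : 0 < g) (hT : 0 < T) (hθ : 0 < θ) (hθ' : θ < Real.pi / 2) (hSP : SP g) (n : ℤ) :
    0 ≤ ∫ τ in (-(T / 2))..(T / 2), Real.cos (τ * (n * (2 * Real.pi / T))) * DD g T θ τ := by
  have hpi := Real.pi_pos
  have habs : ∀ q : ℝ, (q = θ ∨ q = -θ) → |q| = θ := by
    rintro q (rfl | rfl)
    · exact abs_of_pos hθ
    · rw [abs_neg, abs_of_pos hθ]
  have hθabs : |θ| < Real.pi / 2 := by rw [abs_of_pos hθ]; exact hθ'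
  have hθabs' : |-θ| < Real.pi / 2 := by rw [abs_neg]; exact hθabs
  -- the vectors
  obtain ⟨Ca, hCa⟩ := bdd_of_per hT (al_cont hg hT hθ hθ') (al_periodic g T θ)
  obtain ⟨Cb, hCb⟩ := bdd_of_per hT (be_cont hg hT hθ hθ') (be_periodic g T θ)
  have alc : Continuous fun τ => ((al g T θ τ : ℝ) : ℂ) := Complex.continuous_ofReal.comp (al_cont hg hT hθ hθ')
  have bec : Continuous fun τ => ((be g T θ τ : ℝ) : ℂ) := Complex.continuous_ofReal.comp (be_cont hg hT hθ hθ')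
  have m1 := memLp_nu hg hθabs alc hCa
  have m2 := memLp_nu hg hθabs' bec hCb
  set v₁ : Lp ℂ 2 (nu g) := m1.toLp _ with hv₁
  set v₂ : Lp ℂ 2 (nu g) := m2.toLp _ with hv₂
  set u : Lp ℂ 2 (nu g) := ev g 0 with hu
  set h : Lp ℂ 2 (nu g) := u - v₁ - v₂ with hh'
  have u_coe : (u : ℝ → ℂ) =ᵐ[nu g] ee 0 := ev_coe hg (by simp; positivity)
  have h_coe : (h : ℝ → ℂ) =ᵐ[nu g] fun τ => ((EZ.hT g T θ τ : ℝ) : ℂ) := by
    filter_upwards [Lp.coeFn_sub (u - v₁) v₂, Lp.coeFn_sub u v₁, m1.coeFn_toLp, m2.coeFn_toLp, u_coe] with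
      τ k1 k2 k3 k4 k5
    rw [hh', k1, Pi.sub_apply, k2, Pi.sub_apply, k5, k3, k4, ee_zero]
    unfold EZ.hT
    push_cast
    rw [neg_mul]
    ring
  have uh_coe : ∀ a : ℂ, |a.im| < Real.pi / 2 → inner ℂ (ev g a) h =
      ∫ τ : ℝ, (W g τ : ℂ) * (Complex.exp ((τ : ℂ) * Complex.I * a) * ((EZ.hT g T θ τ : ℝ) : ℂ)) := by
    intro a ha
    rw [inner_nu hg (ev_coe hg ha) h_coe]
    simp only [conj_ee]
  have hzp : ∀ (j : ℤ) (q : ℝ), |q| < Real.pi / 2 → inner ℂ (ev g (zp T (j, q))) h =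
      ∫ τ in (-(T / 2))..(T / 2),
        ((Sj g T q τ - al g T θ τ * Sj g T (q + θ) τ - be g T θ τ * Sj g T (q - θ) τ : ℝ) : ℂ) * Ech T j τ := by
    intro j q hq
    rw [uh_coe _ (by rw [zp_im, abs_neg]; exact hq)]
    simp only [exp_zp]
    have hq2 := abs_lt.1 hq
    exact unfh hg hT hθ hθ' (Ech_cont T j) (Ech_per hT j) (by linarith)
      (abs_lt.2 ⟨by linarith, by linarith⟩) (abs_lt.2 ⟨by linarith, by linarith⟩)
  -- (a)
  have horth : ∀ N, ∀ a ∈ Z T θ N, inner ℂ (ev g a) h = 0 := by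
    intro N a ha
    obtain ⟨j, -, q, hq, rfl⟩ := mem_Z.1 ha
    rw [hzp j q (by rw [habs q hq]; exact hθ')]
    have h0 : ∀ τ, Sj g T q τ - al g T θ τ * Sj g T (q + θ) τ - be g T θ τ * Sj g T (q - θ) τ = 0 := by
      intro τ
      rcases hq with rfl | rfl
      · rw [show q + q = 2 * q by ring, sub_self]
        exact eq1 hg hT hθ hθ' τ
      · rw [show -θ + θ = 0 by ring, show -θ - θ = -(2 * θ) by ring]
        exact eq2 hg hT hθ hθ' τ
    simp only [h0, Complex.ofReal_zero, zero_mul, intervalIntegral.integral_zero]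
  -- (b)
  have hcl : u - h ∈ (Submodule.span ℂ (⋃ N, ev g '' (Z T θ N : Set ℂ))).topologicalClosure := by
    have e : u - h = v₁ + v₂ := by rw [hh']; abel
    rw [e]
    have hsub : ∀ q : ℝ, (q = θ ∨ q = -θ) → (Submodule.span ℂ {w : Lp ℂ 2 (nu g) | ∃ j : ℤ,
        w = ev g (((j * (2 * Real.pi / T) : ℝ) : ℂ) - (q : ℂ) * Complex.I)}).topologicalClosure ≤
        (Submodule.span ℂ (⋃ N, ev g '' (Z T θ N : Set ℂ))).topologicalClosure := by
      intro q hq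
      refine Submodule.topologicalClosure_mono (Submodule.span_mono ?_)
      rintro w ⟨j, rfl⟩
      refine mem_iUnion.2 ⟨j.natAbs, ⟨_, ?_, rfl⟩⟩
      rw [Finset.mem_coe, mem_Z]
      exact ⟨j, ⟨by omega, by omega⟩, q, hq, rfl⟩
    refine Submodule.add_mem _ ?_ ?_
    · exact hsub θ (Or.inl rfl) (trig_closure hg hT hθabs alc (fun τ => by
        show ((al g T θ (τ + T) : ℝ) : ℂ) = _
        rw [al_periodic g T θ τ]) m1.coeFn_toLp)
    · exact hsub (-θ) (Or.inr rfl) (trig_closure hg hT hθabs' bec (fun τ => by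
        show ((be g T θ (τ + T) : ℝ) : ℂ) = _
        rw [be_periodic g T θ τ]) m2.coeFn_toLp)
  -- (c)
  obtain ⟨c, hc1, hc2⟩ := proj_limit (ev g) (Z T θ) (Z_mono T θ) u h horth hcl
  have him : ∀ N, ∀ a ∈ Z T θ N, 0 < |a.im| ∧ |a.im| < Real.pi / 2 := by
    intro N a ha
    obtain ⟨j, -, q, hq, rfl⟩ := mem_Z.1 ha
    rw [zp_im, abs_neg, habs q hq]
    exact ⟨hθ, hθ'⟩
  have hsum : ∀ N, ((u - ∑ a ∈ Z T θ N, c N a • ev g a : Lp ℂ 2 (nu g)) : ℝ → ℂ) =ᵐ[nu g] hh (Z T θ N) (c N) := by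
    intro N
    have e1 : ∀ S : Finset ℂ, (∀ a ∈ S, |a.im| < Real.pi / 2) →
        ((∑ a ∈ S, c N a • ev g a : Lp ℂ 2 (nu g)) : ℝ → ℂ) =ᵐ[nu g] fun τ => ∑ a ∈ S, c N a * ee a τ := by
      classical
      intro S
      induction S using Finset.induction_on with
      | empty =>
        intro _
        simp only [Finset.sum_empty]
        exact Lp.coeFn_zero _ _ _
      | insert a S ha ih =>
        intro hS
        have ih' := ih fun b hb => hS b (Finset.mem_insert_of_mem hb)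
        rw [Finset.sum_insert ha]
        filter_upwards [ih', Lp.coeFn_add (c N a • ev g a) (∑ a ∈ S, c N a • ev g a),
          Lp.coeFn_smul (c N a) (ev g a), ev_coe hg (hS a (Finset.mem_insert_self a S))] with τ k1 k2 k3 k4
        rw [k2, Pi.add_apply, k3, Pi.smul_apply, k4, k1, Finset.sum_insert ha, smul_eq_mul]
    filter_upwards [e1 _ fun a ha => (him N a ha).2, u_coe, Lp.coeFn_sub u (∑ a ∈ Z T θ N, c N a • ev g a)] with
      τ k1 k2 k3
    rw [k3, Pi.sub_apply, k1, k2, ee_zero]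
    rfl
  have hin : ∀ N (b : ℂ), |b.im| < Real.pi / 2 → inner ℂ (ev g b) (u - ∑ a ∈ Z T θ N, c N a • ev g a) =
      ∫ τ : ℝ, (W g τ : ℂ) * (Complex.exp ((τ : ℂ) * Complex.I * b) * hh (Z T θ N) (c N) τ) := by
    intro N b hb
    rw [inner_nu hg (ev_coe hg hb) (hsum N)]
    simp only [conj_ee]
  have hpos : ∀ N (x : ℝ), 0 ≤ (inner ℂ (ev g (x : ℂ)) (u - ∑ a ∈ Z T θ N, c N a • ev g a) : ℂ).re := by
    intro N x
    rw [hin N x (by simp; positivity)]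
    refine hSP (Z T θ N) (c N) (him N) ?_ ?_ x
    · intro a ha
      obtain ⟨j, hj, q, hq, rfl⟩ := mem_Z.1 ha
      rw [zp_conj]
      exact mem_Z.2 ⟨j, hj, -q, by rcases hq with rfl | rfl <;> simp, rfl⟩
    · intro b hb
      rw [← hin N b (him N b hb).2]
      exact hc1 N b hb
  have hlim : ∀ x : ℝ, 0 ≤ (inner ℂ (ev g (x : ℂ)) h : ℂ).re := by
    intro x
    have ht : Tendsto (fun N => (inner ℂ (ev g (x : ℂ)) (u - ∑ a ∈ Z T θ N, c N a • ev g a) : ℂ).re) atTop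
        (𝓝 (inner ℂ (ev g (x : ℂ)) h : ℂ).re) :=
      (Complex.continuous_re.tendsto _).comp ((tendsto_const_nhds.inner hc2))
    exact ge_of_tendsto' ht fun N => hpos N x
  -- (d)
  have hfin := hlim (n * (2 * Real.pi / T))
  have hz0 : (((n * (2 * Real.pi / T) : ℝ)) : ℂ) = zp T (n, 0) := by unfold zp; simp
  rw [hz0, hzp n 0 (by simp; positivity)] at hfin
  have hcont : Continuous fun τ => ((Sj g T 0 τ - al g T θ τ * Sj g T (0 + θ) τ - be g T θ τ * Sj g T (0 - θ) τ : ℝ) : ℂ) * Ech T n τ := by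
    have s0 := Sj_cont hg hT (q := 0) (by simp; positivity)
    have s1 := Sj_cont hg hT (q := 0 + θ) (by rw [zero_add]; linarith)
    have s2 := Sj_cont hg hT (q := 0 - θ) (by rw [zero_sub]; linarith)
    exact (Complex.continuous_ofReal.comp ((s0.sub ((al_cont hg hT hθ hθ').mul s1)).sub
      ((be_cont hg hT hθ hθ').mul s2))).mul (Ech_cont T n)
  have hre : (∫ τ in (-(T / 2))..(T / 2),
      ((Sj g T 0 τ - al g T θ τ * Sj g T (0 + θ) τ - be g T θ τ * Sj g T (0 - θ) τ : ℝ) : ℂ) * Ech T n τ).re =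
      ∫ τ in (-(T / 2))..(T / 2), Real.cos (τ * (n * (2 * Real.pi / T))) * DD g T θ τ := by
    have h1 := intervalIntegral.intervalIntegral_re (𝕜 := ℂ) (hcont.intervalIntegrable (μ := volume) (-(T / 2)) (T / 2))
    have h2 : (∫ τ in (-(T / 2))..(T / 2),
      ((Sj g T 0 τ - al g T θ τ * Sj g T (0 + θ) τ - be g T θ τ * Sj g T (0 - θ) τ : ℝ) : ℂ) * Ech T n τ).re =
      RCLike.re (∫ τ in (-(T / 2))..(T / 2),
      ((Sj g T 0 τ - al g T θ τ * Sj g T (0 + θ) τ - be g T θ τ * Sj g T (0 - θ) τ : ℝ) : ℂ) * Ech T n τ) := rfl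
    rw [h2, ← h1]
    refine intervalIntegral.integral_congr fun τ _ => ?_
    show (((Sj g T 0 τ - al g T θ τ * Sj g T (0 + θ) τ - be g T θ τ * Sj g T (0 - θ) τ : ℝ) : ℂ) * Ech T n τ).re = _
    rw [Complex.re_ofReal_mul]
    unfold Ech DD
    rw [show (τ : ℂ) * Complex.I * ((n * (2 * Real.pi / T) : ℝ) : ℂ) =
      ((τ * (n * (2 * Real.pi / T)) : ℝ) : ℂ) * Complex.I by push_cast; ring, Complex.exp_ofReal_mul_I_re,
      zero_add, zero_sub]
    ring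
  rw [← hre]
  exact hfin

end Pool.Agent.Lib.MP_70ee11_an.EZ
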