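import Mathlib
import Pool.Agent.Lib.MP_70ee11_an.EZ.Defs
import Pool.Agent.Lib.MP_70ee11_an.EZ.Gam2
import Pool.Agent.Lib.MP_70ee11_an.EZ.Sums
import Pool.Agent.Lib.MP_70ee11_an.EZ.Det
import Pool.Agent.Lib.MP_70ee11_an.EZ.Per
import Pool.Agent.Lib.MP_70ee11_an.EZ.LimA
import Pool.Agent.Lib.MP_70ee11_an.EZ.LimB
import Pool.Agent.Lib.MP_70ee11_an.EZ.LimC

/-!
Module LimD. THE LIMIT: ∫ cos(τx) φ(τ) dτ ≥ 0.

PROOF.
* DD_lim: by `Sj_lim` (q = 0, θ_n, -θ_n), `Sj2_lim` and `Sj_neg` (S_{-2θ}(τ) = S_{2θ}(-τ) → W(τ)e^{-πτ} + R, W even), writing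
  E = e^{πτ/2}: S → W, A → WE, B → W/E, P → WE²+R, Q → W/E²+R. By `DD_formula`
  DD → W - ((W/E²+R)W²E² - 2W³ + (WE²+R)W²/E²)/((WE²+R)(W/E²+R) - W²) = W - RW²κ/(WRκ+R²), κ = E²+E^{-2} = 2cosh πτ
     = WR/(Wκ+R) = 1/(1/W + κ/R) = φ with c = 2/R  (the determinant limit WRκ+R² is > 0).
* k_nonneg: x ≠ 0 first, by symmetry x > 0. R = 2/c. T_n = 2π(n+1)/x → ∞ ; choose θ_n by `exists_theta` (valid for n large: shift
  the sequence, T_n = 2π(n+1+n₀)/x), θ_n → π/2 by `theta_tendsto`. `per` with the integer n+1+n₀: (n+1+n₀)(2π/T_n) = x, so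
     0 ≤ ∫_{-T_n/2}^{T_n/2} cos(τx) DD dτ = ∫_ℝ 1_{|τ|≤T_n/2} cos(τx) DD_n(τ) dτ.
  |1 cos DD| ≤ S_0 ≤ C e^{-|τ|} (`DD_le`, `DD_nonneg`, `S0_bound`), pointwise limit cos(τx)φ(τ); dominated convergence
  (`tendsto_integral_of_dominated_convergence`) and `ge_of_tendsto'`. For x = 0: φ > 0, integral_nonneg.
-/

set_option linter.style.longLine false

open MeasureTheory Set Filter Topology

namespace Pool.Agent.Lib.MP_70ee11_an.EZ

/-- the algebra of the limit -/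
private theorem lim_algebra {w R e e' : ℝ} (hw : 0 < w) (hR : 0 < R) (he : 0 < e) (he' : 0 < e')
    (hee : e * e' = 1) :
    w - ((w * e' + R) * (w ^ 2 * e) - 2 * w * (w ^ 2) + (w * e + R) * (w ^ 2 * e')) /
      ((w * e + R) * (w * e' + R) - w ^ 2) = 1 / (1 / w + 2 / R * ((e + e') / 2)) := by
  have hd : (w * e + R) * (w * e' + R) - w ^ 2 = R * (w * (e + e') + R) := by
    linear_combination w ^ 2 * hee
  have hn : (w * e' + R) * (w ^ 2 * e) - 2 * w * (w ^ 2) + (w * e + R) * (w ^ 2 * e') =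
      w ^ 2 * (R * (e + e')) := by
    linear_combination 2 * w ^ 3 * hee
  rw [hd, hn]
  have h1 : 0 < w * (e + e') + R := by positivity
  have h2 : 1 / w + 2 / R * ((e + e') / 2) = (w * (e + e') + R) / (w * R) := by
    field_simp
    ring
  rw [h2]
  field_simp
  ring

theorem DD_lim {g R : ℝ} (hg : 1 ≤ g) (hR : 0 < R) {T θ : ℕ → ℝ} (hT : Tendsto T atTop atTop) (hT0 : ∀ n, 0 < T n)
    (hθ : ∀ n, 0 < θ n ∧ θ n < Real.pi / 2) (hRs : ∀ n, Rs g (T n) (θ n) = R)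
    (hlim : Tendsto θ atTop (𝓝 (Real.pi / 2))) (τ : ℝ) :
    Tendsto (fun n => DD g (T n) (θ n) τ) atTop (𝓝 (phi g (2 / R) τ)) := by
  have hpi := Real.pi_pos
  have hg0 : 0 < g := by linarith
  have hw := W_pos hg0 τ
  have hS0 : Tendsto (fun n => Sj g (T n) 0 τ) atTop (𝓝 (W g τ)) := by
    have h := Sj_lim hg0 hT (q := fun _ => 0) (q0 := 0) (fun n => by rw [abs_zero]; positivity)
      tendsto_const_nhds τ
    rwa [zero_mul, Real.exp_zero, mul_one] at h
  have hA : Tendsto (fun n => Sj g (T n) (θ n) τ) atTop (𝓝 (W g τ * Real.exp (Real.pi / 2 * τ))) :=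
    Sj_lim hg0 hT (fun n => by rw [abs_of_pos (hθ n).1]; exact (hθ n).2.le) hlim τ
  have hB : Tendsto (fun n => Sj g (T n) (-θ n) τ) atTop
      (𝓝 (W g τ * Real.exp (-(Real.pi / 2) * τ))) :=
    Sj_lim hg0 hT (q := fun n => -θ n) (fun n => by rw [abs_neg, abs_of_pos (hθ n).1]; exact (hθ n).2.le)
      hlim.neg τ
  have hP : Tendsto (fun n => Sj g (T n) (2 * θ n) τ) atTop
      (𝓝 (W g τ * Real.exp (Real.pi * τ) + R)) := Sj2_lim hg hR hT hθ hRs hlim τ
  have hQ : Tendsto (fun n => Sj g (T n) (-(2 * θ n)) τ) atTop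
      (𝓝 (W g τ * Real.exp (-(Real.pi * τ)) + R)) := by
    have h := Sj2_lim hg hR hT hθ hRs hlim (-τ)
    rw [W_even, mul_neg] at h
    exact h.congr fun n => Sj_neg g (T n) (2 * θ n) τ
  set w := W g τ with hwdef
  set e := Real.exp (Real.pi * τ) with he
  set e' := Real.exp (-(Real.pi * τ)) with he'
  have hepos : 0 < e := Real.exp_pos _
  have hepos' : 0 < e' := Real.exp_pos _
  have hee : e * e' = 1 := by
    rw [he, he', ← Real.exp_add, add_neg_cancel, Real.exp_zero]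
  have hE2 : Real.exp (Real.pi / 2 * τ) ^ 2 = e := by
    rw [he, ← Real.exp_nat_mul]
    congr 1
    push_cast
    ring
  have hE2' : Real.exp (-(Real.pi / 2) * τ) ^ 2 = e' := by
    rw [he', ← Real.exp_nat_mul]
    congr 1
    push_cast
    ring
  have hEE : Real.exp (Real.pi / 2 * τ) * Real.exp (-(Real.pi / 2) * τ) = 1 := by
    rw [← Real.exp_add]
    have : Real.pi / 2 * τ + -(Real.pi / 2) * τ = 0 := by ring
    rw [this, Real.exp_zero]
  have hdd : Tendsto (fun n => dd g (T n) (θ n) τ) atTop (𝓝 ((w * e + R) * (w * e' + R) - w ^ 2)) := by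
    unfold dd
    exact (hP.mul hQ).sub (hS0.pow 2)
  have hddne : (w * e + R) * (w * e' + R) - w ^ 2 ≠ 0 := by
    have hd : (w * e + R) * (w * e' + R) - w ^ 2 = R * (w * (e + e') + R) := by
      linear_combination w ^ 2 * hee
    rw [hd]
    positivity
  have hnum : Tendsto (fun n => Sj g (T n) (-(2 * θ n)) τ * Sj g (T n) (θ n) τ ^ 2 -
      2 * Sj g (T n) 0 τ * Sj g (T n) (θ n) τ * Sj g (T n) (-θ n) τ +
      Sj g (T n) (2 * θ n) τ * Sj g (T n) (-θ n) τ ^ 2) atTop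
      (𝓝 ((w * e' + R) * (w ^ 2 * e) - 2 * w * (w ^ 2) + (w * e + R) * (w ^ 2 * e'))) := by
    have h := ((hQ.mul (hA.pow 2)).sub (((hS0.const_mul 2).mul hA).mul hB)).add (hP.mul (hB.pow 2))
    have hval : (w * e' + R) * (w * Real.exp (Real.pi / 2 * τ)) ^ 2 -
        2 * w * (w * Real.exp (Real.pi / 2 * τ)) * (w * Real.exp (-(Real.pi / 2) * τ)) +
        (w * e + R) * (w * Real.exp (-(Real.pi / 2) * τ)) ^ 2 =
        (w * e' + R) * (w ^ 2 * e) - 2 * w * (w ^ 2) + (w * e + R) * (w ^ 2 * e') := by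
      rw [mul_pow, mul_pow, hE2, hE2']
      linear_combination (-2 * w ^ 3) * hEE
    rw [hval] at h
    exact h
  have hfin := hS0.sub (hnum.div hdd hddne)
  have hphi : phi g (2 / R) τ = 1 / (1 / w + 2 / R * ((e + e') / 2)) := by
    unfold phi
    rw [Real.cosh_eq, ← hwdef, ← he, ← he']
  rw [hphi, ← lim_algebra hw hR hepos hepos' hee]
  refine hfin.congr fun n => ?_
  exact (DD_formula hg0 (hT0 n) (hθ n).1 (hθ n).2 τ).symm

private theorem k_nonneg_pos {g : ℝ} (hg : 1 ≤ g) (hSP : SP g) {c : ℝ} (hc : 0 < c) {x : ℝ}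
    (hx : 0 < x) : 0 ≤ ∫ τ : ℝ, Real.cos (τ * x) * phi g c τ := by
  have hpi := Real.pi_pos
  have hg0 : 0 < g := by linarith
  set R : ℝ := 2 / c with hRdef
  have hR : 0 < R := by positivity
  have hcR : 2 / R = c := by
    rw [hRdef]
    field_simp
  obtain ⟨T₀, hT₀⟩ := Filter.eventually_atTop.1 (exists_theta (g := g) hg hR)
  obtain ⟨n₀, hn₀⟩ := exists_nat_ge (max T₀ 1 * x / (2 * Real.pi))
  have hn₀' : max T₀ 1 ≤ 2 * Real.pi * n₀ / x := by
    rw [div_le_iff₀ (by positivity)] at hn₀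
    rw [le_div_iff₀ hx]
    linarith
  let T : ℕ → ℝ := fun n => 2 * Real.pi * ((n : ℝ) + 1 + n₀) / x
  have hTdef : ∀ n, T n = 2 * Real.pi * ((n : ℝ) + 1 + n₀) / x := fun n => rfl
  have hTge : ∀ n, max T₀ 1 ≤ T n := by
    intro n
    refine hn₀'.trans ?_
    rw [hTdef]
    have : (0 : ℝ) ≤ n := Nat.cast_nonneg n
    gcongr
    linarith
  have hT1 : ∀ n, 1 ≤ T n := fun n => (le_max_right _ _).trans (hTge n)
  have hT0 : ∀ n, 0 < T n := fun n => by linarith [hT1 n]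
  have hTlim : Tendsto T atTop atTop := by
    have h1 : Tendsto (fun n : ℕ => 2 * Real.pi / x * (n : ℝ)) atTop atTop :=
      tendsto_natCast_atTop_atTop.const_mul_atTop (by positivity)
    refine tendsto_atTop_mono (fun n => ?_) h1
    rw [hTdef]
    have h2 : 2 * Real.pi * ((n : ℝ) + 1 + n₀) / x = 2 * Real.pi / x * ((n : ℝ) + 1 + n₀) := by ring
    rw [h2]
    have h3 : (0 : ℝ) ≤ n₀ := Nat.cast_nonneg n₀
    gcongr
    linarith
  have hex : ∀ n, ∃ θ : ℝ, 0 < θ ∧ θ < Real.pi / 2 ∧ Rs g (T n) θ = R := fun n =>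
    hT₀ (T n) ((le_max_left _ _).trans (hTge n))
  choose θ hθ1 hθ2 hRs using hex
  have hθ : ∀ n, 0 < θ n ∧ θ n < Real.pi / 2 := fun n => ⟨hθ1 n, hθ2 n⟩
  have hθlim := theta_tendsto hg hR hTlim hθ hRs
  obtain ⟨C, hC, hbd⟩ := S0_bound hg0
  let F : ℕ → ℝ → ℝ := fun n => (Set.Ioc (-(T n / 2)) (T n / 2)).indicator
    (fun τ => Real.cos (τ * x) * DD g (T n) (θ n) τ)
  have hFint : ∀ n, 0 ≤ ∫ τ, F n τ := by
    intro n
    have h1 := per hg0 (hT0 n) (hθ1 n) (hθ2 n) hSP ((n : ℤ) + 1 + n₀)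
    have h2 : (((n : ℤ) + 1 + n₀ : ℤ) : ℝ) * (2 * Real.pi / T n) = x := by
      have h3 : (0 : ℝ) < (n : ℝ) + 1 + n₀ := by positivity
      rw [hTdef]
      push_cast
      field_simp
    rw [h2, intervalIntegral.integral_of_le (by linarith [hT0 n]),
      ← integral_indicator measurableSet_Ioc] at h1
    exact h1
  have hmeas : ∀ n, AEStronglyMeasurable (F n) volume := by
    intro n
    refine AEStronglyMeasurable.indicator ?_ measurableSet_Ioc
    have h1 := DD_cont hg0 (hT0 n) (hθ1 n) (hθ2 n)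
    have h2 : Continuous (fun τ => Real.cos (τ * x) * DD g (T n) (θ n) τ) := by fun_prop
    exact h2.aestronglyMeasurable
  have hbint : Integrable (fun τ : ℝ => C * Real.exp (-(1 * |τ|))) :=
    (exp_abs_integrable one_pos).const_mul C
  have hdom : ∀ n, ∀ᵐ τ ∂(volume : Measure ℝ), ‖F n τ‖ ≤ C * Real.exp (-(1 * |τ|)) := by
    intro n
    refine Eventually.of_forall fun τ => ?_
    by_cases hτ : τ ∈ Set.Ioc (-(T n / 2)) (T n / 2)
    · have h1 : F n τ = Real.cos (τ * x) * DD g (T n) (θ n) τ := Set.indicator_of_mem hτ _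
      rw [h1, norm_mul, Real.norm_eq_abs, Real.norm_eq_abs]
      have h2 := DD_nonneg hg0 (hT0 n) (hθ1 n) (hθ2 n) τ
      have h3 := DD_le hg0 (hT0 n) (hθ1 n) (hθ2 n) τ
      have h4 := hbd (T n) (hT1 n) τ (abs_le.2 ⟨hτ.1.le, hτ.2⟩)
      rw [abs_of_nonneg h2, one_mul]
      calc |Real.cos (τ * x)| * DD g (T n) (θ n) τ ≤ 1 * DD g (T n) (θ n) τ :=
            mul_le_mul_of_nonneg_right (Real.abs_cos_le_one _) h2
        _ ≤ C * Real.exp (-|τ|) := by linarith
    · have h1 : F n τ = 0 := Set.indicator_of_notMem hτ _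
      rw [h1, norm_zero]
      positivity
  have hpt : ∀ᵐ τ ∂(volume : Measure ℝ), Tendsto (fun n => F n τ) atTop
      (𝓝 (Real.cos (τ * x) * phi g c τ)) := by
    refine Eventually.of_forall fun τ => ?_
    have h1 := (DD_lim hg hR hTlim hT0 hθ hRs hθlim τ).const_mul (Real.cos (τ * x))
    rw [hcR] at h1
    refine h1.congr' ?_
    filter_upwards [hTlim.eventually_ge_atTop (2 * |τ| + 1)] with n hn
    have hτ : τ ∈ Set.Ioc (-(T n / 2)) (T n / 2) := by
      have h2 := le_abs_self τ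
      have h3 := neg_abs_le τ
      exact ⟨by linarith, by linarith⟩
    exact (Set.indicator_of_mem hτ
      (fun τ => Real.cos (τ * x) * DD g (T n) (θ n) τ)).symm
  exact ge_of_tendsto' (tendsto_integral_of_dominated_convergence _ hmeas hbint hdom hpt) hFint

theorem k_nonneg {g : ℝ} (hg : 1 ≤ g) (hSP : SP g) {c : ℝ} (hc : 0 < c) (x : ℝ) :
    0 ≤ ∫ τ : ℝ, Real.cos (τ * x) * phi g c τ := by
  rcases lt_trichotomy x 0 with hx | hx | hx
  · have h := k_nonneg_pos hg hSP hc (neg_pos.2 hx)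
    have h1 : ∀ τ : ℝ, Real.cos (τ * -x) = Real.cos (τ * x) := by
      intro τ
      rw [mul_neg, Real.cos_neg]
    simpa only [h1] using h
  · subst hx
    refine integral_nonneg fun τ => ?_
    have hw := W_pos (show 0 < g by linarith) τ
    have hcosh := Real.cosh_pos (Real.pi * τ)
    rw [Pi.zero_apply, mul_zero, Real.cos_zero, one_mul]
    unfold phi
    positivity
  · exact k_nonneg_pos hg hSP hc hx

end Pool.Agent.Lib.MP_70ee11_an.EZ
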