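import Mathlib
import Pool.Agent.Lib.MP_70ee11_an.EZ.Link
import Pool.Agent.Lib.MP_70ee11_an.EZ.Disc
import Pool.Agent.Lib.MP_70ee11_an.EZ.LimD
import Pool.Agent.Lib.MP_70ee11_an.EZ.Fin

/-!
Module Asm. ASSEMBLY.
-/

set_option linter.style.longLine false

open MeasureTheory Set Filter Topology Metric

namespace Pool.Agent.Lib.MP_70ee11_an.EZ

theorem exists_EZ {α : ℝ} (hα : 1 < α) : ∃ (Z : Finset ℂ) (b : ℂ), (∀ a ∈ Z, a ∈ Metric.ball (0 : ℂ) 1) ∧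
    b ∈ Metric.ball (0 : ℂ) 1 ∧ (0 : ℂ) ∉ Z ∧ b ∉ Z ∧ EZat α Z b := by
  by_contra hno
  have hSP := link (by linarith) hno
  exact fin (g := α + 2) (by linarith) (fun c hc x => k_nonneg (by linarith) hSP hc x)

theorem main {α : ℝ} (hα : 1 < α) : ∃ (Z : Finset ℂ) (b : ℂ), (∀ a ∈ Z, a ∈ ball (0 : ℂ) 1 ∧ a ≠ 0) ∧
    b ∈ ball (0 : ℂ) 1 ∧ b ∉ Z ∧
    IsClosed (VZ α Z : Set (Lp ℂ 2 (mu α))) ∧
    (∀ f ∈ VZ α Z, ∃ g ∈ VZ α Z, (g : ℂ → ℂ) =ᵐ[mu α] fun z => z * f z) ∧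
    (∀ w ∈ VZ α Z, (∀ f ∈ VZ α Z, ∀ g ∈ VZ α Z, (g : ℂ → ℂ) =ᵐ[mu α] (fun z => z * f z) → inner ℂ g w = 0) →
      ∀ G : ℂ → ℂ, DifferentiableOn ℂ G (ball (0:ℂ) 1) → (w : ℂ → ℂ) =ᵐ[mu α] G → G b = 0) ∧
    ¬ (VZ α Z ≤ (Submodule.span ℂ {h : Lp ℂ 2 (mu α) | ∃ p : Polynomial ℂ, ∃ w ∈ VZ α Z,
                (∀ f ∈ VZ α Z, ∀ g ∈ VZ α Z,
                    (g : ℂ → ℂ) =ᵐ[mu α] (fun z => z * f z) → inner ℂ g w = 0) ∧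
                (h : ℂ → ℂ) =ᵐ[mu α] fun z => p.eval z * w z}).topologicalClosure) := by
  have hα0 : 0 < α := by linarith
  obtain ⟨Z, b, hZ, hb, h0, hbZ, hEZ⟩ := exists_EZ hα
  refine ⟨Z, b, fun a ha => ⟨hZ a ha, fun h => h0 (h ▸ ha)⟩, hb, hbZ, VZ_closed hα0 hZ, fun f hf => VZ_mul_z hf, ?_,
    VZ_not_generated hα0 hZ hb h0 hbZ hEZ⟩
  intro w hw horth G hG hwG
  exact VZ_wander hα0 hZ hb h0 hEZ hw horth hG hwG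

end Pool.Agent.Lib.MP_70ee11_an.EZ
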